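import Pool.Agent.Lib.MP_43823f_an.Dense

set_option autoImplicit false
set_option linter.unusedSectionVars false

/-!
# The quantum semigroup structure on the compact operators
-/

open Filter Topology InnerProductSpace

noncomputable section

namespace Pool.Agent.Lib.MP_43823f_an

variable {H : Type} [NormedAddCommGroup H] [InnerProductSpace ℂ H] [CompleteSpace H]
  (b : HilbertBasis (ℤ × P) ℂ H)
  {K : Type} [NormedAddCommGroup K] [InnerProductSpace ℂ K] [CompleteSpace K]
  (U : HT H K ≃ₗᵢ[ℂ] HT H H)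

/-- The comultiplication. -/
def Dl (a : KH b) : Bidual (KH (hbt b b)) := bop (hbt b b) (dop U a.1)

/-- The convolution product. -/
def conv (μ ν : Dual (KH b)) : Dual (KH b) :=
  Dual.mk (fun a => Dl b U a (pf b b μ ν))
    (fun a a' => by
      change bop (hbt b b) (dop U (a.1 + a'.1)) _ = _
      rw [dop_add, bop_add]; rfl)
    (fun k a => by
      change bop (hbt b b) (dop U (k • a.1)) _ = _
      rw [dop_smul, bop_smul]; rfl) ‖pf b b μ ν‖ (fun a => by
      refine (Bidual.le_norm _ _).trans ?_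
      rw [mul_comm]
      exact mul_le_mul_of_nonneg_left ((norm_bop_le _ _).trans (norm_dop_le U a.1)) (norm_nonneg _))

theorem conv_apply (μ ν : Dual (KH b)) (a : KH b) :
    conv b U μ ν a = bop (hbt b b) (dop U a.1) (pf b b μ ν) := rfl

theorem mul_fp_mem (S : H →L[ℂ] H) (F : Finset (ℤ × P)) : S * fp b F ∈ KH b :=
  mul_mem_KH b S (fp_mem b F)

theorem mul_fp_tendsto (S : H →L[ℂ] H) (ξ : H) :
    Tendsto (fun F => (S * fp b F) ξ) atTop (𝓝 (S ξ)) :=
  (S.continuous.tendsto _).comp (fp_tendsto b ξ)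

theorem norm_mul_fp_le (S : H →L[ℂ] H) (F : Finset (ℤ × P)) : ‖S * fp b F‖ ≤ ‖S‖ :=
  (norm_mul_le _ _).trans (mul_le_of_le_one_right (norm_nonneg _) (norm_fp_le b F))

instance atTop_neBot : (atTop : Filter (Finset (ℤ × P))).NeBot := by
  classical
  infer_instance

/-- The extension of the convolution to bounded operators. -/
theorem bop_conv (S : H →L[ℂ] H) (μ ν : Dual (KH b)) :
    bop b S (conv b U μ ν) = bop (hbt b b) (dop U S) (pf b b μ ν) := by
  have h1 : Tendsto (fun F => bop b (S * fp b F) (conv b U μ ν)) atTop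
      (𝓝 (bop b S (conv b U μ ν))) :=
    bop_tendsto b _ _ ‖S‖ (norm_mul_fp_le b S) (mul_fp_tendsto b S) _
  have h2 : Tendsto (fun F => bop (hbt b b) (dop U (S * fp b F)) (pf b b μ ν)) atTop
      (𝓝 (bop (hbt b b) (dop U S) (pf b b μ ν))) :=
    bop_tendsto _ _ _ ‖S‖ (fun F => (norm_dop_le U _).trans (norm_mul_fp_le b S F))
      (dop_tendsto U _ _ ‖S‖ (norm_mul_fp_le b S) (mul_fp_tendsto b S)) _
  refine tendsto_nhds_unique h1 (h2.congr fun F => ?_)
  have h3 : emb (⟨S * fp b F, mul_fp_mem b S F⟩ : KH b) = bop b (S * fp b F) := emb_eq b _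
  rw [← h3, emb_apply, conv_apply]

theorem top_fp_tendsto (S S' : H →L[ℂ] H) (z : HT H H) :
    Tendsto (fun F => top (S * fp b F) (S' * fp b F) z) atTop (𝓝 (top S S' z)) := by
  refine tendsto_of_basis (hbt b b) _ _ (‖S‖ * ‖S'‖) (fun F => ?_) (fun p => ?_) z
  · exact (norm_top_le _ _).trans (mul_le_mul (norm_mul_fp_le b S F) (norm_mul_fp_le b S' F)
      (norm_nonneg _) (norm_nonneg _))
  · rw [hbt_apply]
    simp only [top_tt]
    obtain ⟨x, y⟩ := p
    have h : ∀ᶠ F : Finset (ℤ × P) in atTop, x ∈ F ∧ y ∈ F := by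
      classical
      filter_upwards [eventually_ge_atTop ({x, y} : Finset (ℤ × P))] with F hF
      exact ⟨hF (by simp), hF (by simp)⟩
    refine tendsto_const_nhds.congr' ?_
    classical
    filter_upwards [h] with F hF
    rw [mul_apply_eq_comp, mul_apply_eq_comp, fp_basis_of_mem b F x hF.1,
      fp_basis_of_mem b F y hF.2]

theorem bop_top (S S' : H →L[ℂ] H) (μ ν : Dual (KH b)) :
    bop (hbt b b) (top S S') (pf b b μ ν) = bop b S μ * bop b S' ν := by
  have h1 : Tendsto (fun F => bop (hbt b b) (top (S * fp b F) (S' * fp b F)) (pf b b μ ν)) atTop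
      (𝓝 (bop (hbt b b) (top S S') (pf b b μ ν))) :=
    bop_tendsto _ _ _ (‖S‖ * ‖S'‖) (fun F => (norm_top_le _ _).trans
      (mul_le_mul (norm_mul_fp_le b S F) (norm_mul_fp_le b S' F)
      (norm_nonneg _) (norm_nonneg _))) (top_fp_tendsto b S S') _
  have h2 : Tendsto (fun F => bop b (S * fp b F) μ * bop b (S' * fp b F) ν) atTop
      (𝓝 (bop b S μ * bop b S' ν)) :=
    (bop_tendsto b _ _ ‖S‖ (norm_mul_fp_le b S) (mul_fp_tendsto b S) _).mul
      (bop_tendsto b _ _ ‖S'‖ (norm_mul_fp_le b S') (mul_fp_tendsto b S') _)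
  refine tendsto_nhds_unique h1 (h2.congr fun F => ?_)
  have h3 : emb (⟨S * fp b F, mul_fp_mem b S F⟩ : KH b) = bop b (S * fp b F) := emb_eq b _
  have h4 : emb (⟨S' * fp b F, mul_fp_mem b S' F⟩ : KH b) = bop b (S' * fp b F) := emb_eq b _
  have h5 : emb (ktmul b b ⟨S * fp b F, mul_fp_mem b S F⟩ ⟨S' * fp b F, mul_fp_mem b S' F⟩) =
      bop (hbt b b) (top (S * fp b F) (S' * fp b F)) := emb_eq _ _
  rw [← h3, ← h4, ← h5, emb_apply, emb_apply, emb_apply, pf_ktmul]

theorem bop_conv_of_mem {u : unitary (H →L[ℂ] H)} (hu : u ∈ GLike U) (μ ν : Dual (KH b)) :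
    bop b u.1 (conv b U μ ν) = bop b u.1 μ * bop b u.1 ν := by
  have hu' : dop U u.1 = top u.1 u.1 := hu
  rw [bop_conv, hu', bop_top]

theorem bop_Sp_eq {μ : Dual (KH b)} (h : ∀ u ∈ Gm b, bop b u.1 μ = 0) {x : H →L[ℂ] H}
    (hx : x ∈ Sp b) : bop b x μ = 0 := by
  induction hx using Submodule.span_induction with
  | mem x hx => obtain ⟨u, hu, rfl⟩ := hx; exact h u hu
  | zero =>
    have : bop b (0 : H →L[ℂ] H) = 0 := by
      have := bop_smul b 0 (0 : H →L[ℂ] H)
      rwa [zero_smul, zero_smul] at this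
    rw [this]; rfl
  | add x y _ _ hx hy => rw [bop_add, Bidual.add_apply, hx, hy, add_zero]
  | smul k x _ hx => rw [bop_smul, Bidual.smul_apply, hx, mul_zero]

/-- The group separates the functionals. -/
theorem eq_zero_of_Gm {μ : Dual (KH b)} (h : ∀ u ∈ Gm b, bop b u.1 μ = 0) : μ = 0 := by
  have h1 : ∀ x x', μ (rk b (b x) (b x')) = 0 := by
    intro x x'
    have h2 : Tendsto (fun m => bop b (Zx b x x' m) μ) atTop
        (𝓝 (bop b (rankOne ℂ (b x) (b x')) μ)) :=
      bop_tendsto b _ _ 1 (norm_Zx_le b x x') (Zx_tendsto b x x') μ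
    have h3 : ∀ m, bop b (Zx b x x' m) μ = 0 := fun m => bop_Sp_eq b h (Zx_mem b x x' m)
    simp only [h3] at h2
    have h4 := tendsto_nhds_unique tendsto_const_nhds h2
    have h5 : emb (rk b (b x) (b x')) = bop b (rankOne ℂ (b x) (b x')) := emb_eq b _
    rw [← emb_apply, h5, ← h4]
  refine Dual.ext fun a => ?_
  have h2 := KH_dense_induction b (LinearMap.ker (μ : KH b →L[ℂ] ℂ).toLinearMap)
    (isClosed_eq μ.continuous' continuous_const) (fun x x' => h1 x x') a
  exact h2

theorem bidual_sub {A : Type} [NonUnitalCStarAlgebra A] (F : Bidual A) (μ ν : Dual A) :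
    F (μ - ν) = F μ - F ν := by
  rw [sub_eq_add_neg, F.map_add, show -ν = (-1 : ℂ) • ν by simp, F.map_smul]; ring

theorem eq_of_Gm {μ ν : Dual (KH b)} (h : ∀ u ∈ Gm b, bop b u.1 μ = bop b u.1 ν) : μ = ν := by
  have h1 : μ - ν = 0 := eq_zero_of_Gm b fun u hu => by
    rw [bidual_sub, h u hu, sub_self]
  exact sub_eq_zero.1 h1

section withU

variable (hU : ∀ u ∈ Gm b, u ∈ GLike U)
include hU

theorem conv_comm (μ ν : Dual (KH b)) : conv b U μ ν = conv b U ν μ :=
  eq_of_Gm b fun u hu => by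
    rw [bop_conv_of_mem b U (hU u hu), bop_conv_of_mem b U (hU u hu), mul_comm]

theorem conv_assoc (μ ν ρ : Dual (KH b)) :
    conv b U (conv b U μ ν) ρ = conv b U μ (conv b U ν ρ) :=
  eq_of_Gm b fun u hu => by
    simp only [bop_conv_of_mem b U (hU u hu), mul_assoc]

/-- The quantum semigroup. -/
def qs : Comultiplication (kTensor b b) where
  Δ := Dl b U
  add a a' := by
    change bop (hbt b b) (dop U (a.1 + a'.1)) = _
    rw [dop_add, bop_add]; rfl
  smul k a := by
    change bop (hbt b b) (dop U (k • a.1)) = _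
    rw [dop_smul, bop_smul]; rfl
  norm_le a := (norm_bop_le _ _).trans (norm_dop_le U a.1)
  mul a a' := by
    change bop (hbt b b) (dop U (a.1 * a'.1)) = _
    rw [dop_mul, ← arens_bop]; rfl
  star a := by
    change bop (hbt b b) (dop U (star a.1)) = _
    rw [← dop_star, ← bstar_bop]; rfl
  isMult a := isMult_bop _ _
  nondegenerate := by
    intro t
    have h1 : Tendsto (fun F => dop U (fp b F) * t.1) atTop (𝓝 (dop U 1 * t.1)) :=
      tendsto_mul_right (hbt b b) _ _ 1 (fun F => (norm_dop_le U _).trans (norm_fp_le b F))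
        (dop_tendsto U _ _ 1 (norm_fp_le b) (fun ξ => fp_tendsto b ξ)) t
    rw [dop_one, one_mul] at h1
    have h2 : Tendsto (fun F => (⟨dop U (fp b F) * t.1, mul_mem_KH _ _ t.2⟩ : KH (hbt b b))) atTop
        (𝓝 t) := by
      rw [tendsto_subtype_rng]; exact h1
    refine mem_closure_of_tendsto h2 (Eventually.of_forall fun F => ?_)
    refine Submodule.subset_span ⟨⟨fp b F, fp_mem b F⟩, t, ?_⟩
    rw [emb_eq, emb_eq]
    change _ = arens (bop (hbt b b) (dop U (fp b F))) _
    rw [arens_bop]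
  coassoc μ ν ρ μν νρ h1 h2 a := by
    have e1 : μν = conv b U μ ν := Dual.ext h1
    have e2 : νρ = conv b U ν ρ := Dual.ext h2
    have h3 := congrArg (fun φ : Dual (KH b) => φ a) (conv_assoc b U hU μ ν ρ)
    rw [← e1, ← e2] at h3
    exact h3

/-! ### Weak cancellation -/

/-- The slice as an element of the bidual. -/
def slb (ν : Dual (KH b)) (d : KH b) : Bidual (KH b) :=
  Bidual.mk (fun ρ => Dl b U d (pf b b ν ρ))
    (fun ρ ρ' => by rw [pf_add_right, Bidual.map_add])
    (fun k ρ => by rw [pf_smul_right, Bidual.map_smul]) (‖Dl b U d‖ * ‖ν‖)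
    (fun ρ => (Bidual.le_norm _ _).trans (by
      rw [mul_assoc]; exact mul_le_mul_of_nonneg_left (norm_pf_le b b ν ρ) (norm_nonneg _)))

omit hU in
theorem slb_vf (ξ η : H) (d : KH b) (m : Bidual (KH b))
    (hm : ∀ ρ, m ρ = Dl b U d (pf b b (vf b ξ η) ρ)) : m = bop b (blk (dop U d.1) ξ η) :=
  bidual_ext b fun ζ ζ' => by
    rw [hm, pf_vf, bop_vf, inner_blk]
    exact bop_vf _ _ _ _

omit hU in
theorem blk_star (R : HT H H →L[ℂ] HT H H) (ξ η : H) : star (blk R ξ η) = blk (star R) η ξ := by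
  refine blk_ext fun ζ ζ' => ?_
  rw [ContinuousLinearMap.star_eq_adjoint, ContinuousLinearMap.adjoint_inner_right,
    ← inner_conj_symm, inner_blk, inner_blk, ContinuousLinearMap.star_eq_adjoint,
    ContinuousLinearMap.adjoint_inner_right, inner_conj_symm]

omit hU in
theorem blk_apply_tendsto {ι : Type} {l : Filter ι} (R : ι → HT H H →L[ℂ] HT H H)
    (R₀ : HT H H →L[ℂ] HT H H) (h : ∀ z, Tendsto (fun i => R i z) l (𝓝 (R₀ z))) (ξ η ζ : H) :
    Tendsto (fun i => blk (R i) ξ η ζ) l (𝓝 (blk R₀ ξ η ζ)) :=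
  ((ContinuousLinearMap.adjoint (tl ξ : H →L[ℂ] HT H H)).continuous.tendsto _).comp (h (tt η ζ))

end withU

end Pool.Agent.Lib.MP_43823f_an
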