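import Mathlib

set_option autoImplicit false

/-!
# Quantum semigroups, weak cancellation, idempotent states and their supports

For a C*-algebra `A` the second dual `A**` is the bidual Banach space `Bidual A` with the Arens
product `arens`; this is the enveloping von Neumann algebra of `A`, and `A ⊆ M(A) ⊆ A**`.
-/

open Filter Topology

noncomputable section

namespace Pool.Agent.Lib.MP_43823f_an

/-! ## The dual and the bidual of a C*-algebra -/

/-- The dual Banach space `A*` of a C*-algebra `A`. -/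
def Dual (A : Type) [NonUnitalCStarAlgebra A] : Type := A →L[ℂ] ℂ

instance (A : Type) [NonUnitalCStarAlgebra A] : NormedAddCommGroup (Dual A) :=
  (inferInstance : NormedAddCommGroup (A →L[ℂ] ℂ))

instance (A : Type) [NonUnitalCStarAlgebra A] : NormedSpace ℂ (Dual A) :=
  (inferInstance : NormedSpace ℂ (A →L[ℂ] ℂ))

instance (A : Type) [NonUnitalCStarAlgebra A] : FunLike (Dual A) A ℂ :=
  (inferInstance : FunLike (A →L[ℂ] ℂ) A ℂ)

/-- The bidual Banach space `A**` of a C*-algebra `A`. -/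
def Bidual (A : Type) [NonUnitalCStarAlgebra A] : Type := Dual A →L[ℂ] ℂ

instance (A : Type) [NonUnitalCStarAlgebra A] : NormedAddCommGroup (Bidual A) :=
  (inferInstance : NormedAddCommGroup (Dual A →L[ℂ] ℂ))

instance (A : Type) [NonUnitalCStarAlgebra A] : NormedSpace ℂ (Bidual A) :=
  (inferInstance : NormedSpace ℂ (Dual A →L[ℂ] ℂ))

instance (A : Type) [NonUnitalCStarAlgebra A] : FunLike (Bidual A) (Dual A) ℂ :=
  (inferInstance : FunLike (Dual A →L[ℂ] ℂ) (Dual A) ℂ)

variable {A : Type} [NonUnitalCStarAlgebra A]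

theorem Dual.map_add (μ : Dual A) (a b : A) : μ (a + b) = μ a + μ b :=
  ContinuousLinearMap.map_add (μ : A →L[ℂ] ℂ) a b

theorem Dual.map_smul (μ : Dual A) (c : ℂ) (a : A) : μ (c • a) = c * μ a :=
  ContinuousLinearMap.map_smul (μ : A →L[ℂ] ℂ) c a

theorem Dual.le_norm (μ : Dual A) (a : A) : ‖μ a‖ ≤ ‖μ‖ * ‖a‖ :=
  ContinuousLinearMap.le_opNorm (μ : A →L[ℂ] ℂ) a

theorem Dual.add_apply (μ ν : Dual A) (a : A) : (μ + ν) a = μ a + ν a := rfl

theorem Dual.smul_apply (c : ℂ) (μ : Dual A) (a : A) : (c • μ) a = c * μ a := rfl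

theorem Dual.ext {μ ν : Dual A} (h : ∀ a, μ a = ν a) : μ = ν :=
  ContinuousLinearMap.ext (f := (μ : A →L[ℂ] ℂ)) (g := (ν : A →L[ℂ] ℂ)) h

theorem Bidual.map_add (F : Bidual A) (μ ν : Dual A) : F (μ + ν) = F μ + F ν :=
  ContinuousLinearMap.map_add (F : Dual A →L[ℂ] ℂ) μ ν

theorem Bidual.map_smul (F : Bidual A) (c : ℂ) (μ : Dual A) : F (c • μ) = c * F μ :=
  ContinuousLinearMap.map_smul (F : Dual A →L[ℂ] ℂ) c μ

theorem Bidual.le_norm (F : Bidual A) (μ : Dual A) : ‖F μ‖ ≤ ‖F‖ * ‖μ‖ :=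
  ContinuousLinearMap.le_opNorm (F : Dual A →L[ℂ] ℂ) μ

theorem Bidual.ext {F G : Bidual A} (h : ∀ μ, F μ = G μ) : F = G :=
  ContinuousLinearMap.ext (f := (F : Dual A →L[ℂ] ℂ)) (g := (G : Dual A →L[ℂ] ℂ)) h

/-- The element of `A*` given by a linear bounded function. -/
def Dual.mk (f : A → ℂ) (h₁ : ∀ a b, f (a + b) = f a + f b) (h₂ : ∀ (c : ℂ) a, f (c • a) = c * f a)
    (C : ℝ) (h₃ : ∀ a, ‖f a‖ ≤ C * ‖a‖) : Dual A :=
  LinearMap.mkContinuous { toFun := f, map_add' := h₁, map_smul' := h₂ } C h₃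

/-- The element of `A**` given by a linear bounded function. -/
def Bidual.mk (f : Dual A → ℂ) (h₁ : ∀ a b, f (a + b) = f a + f b)
    (h₂ : ∀ (c : ℂ) a, f (c • a) = c * f a) (C : ℝ) (h₃ : ∀ a, ‖f a‖ ≤ C * ‖a‖) : Bidual A :=
  LinearMap.mkContinuous { toFun := f, map_add' := h₁, map_smul' := h₂ } C h₃

theorem Dual.norm_le (μ : Dual A) (C : ℝ) (hC : 0 ≤ C) (h : ∀ a, ‖μ a‖ ≤ C * ‖a‖) : ‖μ‖ ≤ C :=
  ContinuousLinearMap.opNorm_le_bound (μ : A →L[ℂ] ℂ) hC h

theorem Bidual.norm_le (F : Bidual A) (C : ℝ) (hC : 0 ≤ C) (h : ∀ μ, ‖F μ‖ ≤ C * ‖μ‖) : ‖F‖ ≤ C :=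
  ContinuousLinearMap.opNorm_le_bound (F : Dual A →L[ℂ] ℂ) hC h

/-- The functional `μ · a : b ↦ μ (a b)`. -/
def rmul (μ : Dual A) (a : A) : Dual A :=
  Dual.mk (fun b => μ (a * b)) (fun b c => by rw [mul_add, μ.map_add])
    (fun c b => by rw [mul_smul_comm, μ.map_smul]) (‖μ‖ * ‖a‖)
    (fun b => (μ.le_norm _).trans (by
      rw [mul_assoc]; exact mul_le_mul_of_nonneg_left (norm_mul_le a b) (norm_nonneg μ)))

/-- The functional `a · μ : b ↦ μ (b a)`. -/
def lmul (a : A) (μ : Dual A) : Dual A :=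
  Dual.mk (fun b => μ (b * a)) (fun b c => by rw [add_mul, μ.map_add])
    (fun c b => by rw [smul_mul_assoc, μ.map_smul]) (‖μ‖ * ‖a‖)
    (fun b => (μ.le_norm _).trans (by
      rw [mul_assoc, mul_comm ‖a‖]
      exact mul_le_mul_of_nonneg_left (norm_mul_le b a) (norm_nonneg μ)))

theorem rmul_apply (μ : Dual A) (a b : A) : rmul μ a b = μ (a * b) := rfl

theorem lmul_apply (μ : Dual A) (a b : A) : lmul a μ b = μ (b * a) := rfl

theorem norm_rmul_le (μ : Dual A) (a : A) : ‖rmul μ a‖ ≤ ‖μ‖ * ‖a‖ :=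
  Dual.norm_le _ _ (by positivity) fun b => (μ.le_norm _).trans (by
      rw [mul_assoc]; exact mul_le_mul_of_nonneg_left (norm_mul_le a b) (norm_nonneg μ))

theorem rmul_add (μ : Dual A) (a b : A) : rmul μ (a + b) = rmul μ a + rmul μ b :=
  Dual.ext fun c => by rw [Dual.add_apply]; simp only [rmul_apply, add_mul, μ.map_add]

theorem rmul_smul (μ : Dual A) (c : ℂ) (a : A) : rmul μ (c • a) = c • rmul μ a :=
  Dual.ext fun b => by rw [Dual.smul_apply]; simp only [rmul_apply, smul_mul_assoc, μ.map_smul]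

theorem add_rmul (μ ν : Dual A) (a : A) : rmul (μ + ν) a = rmul μ a + rmul ν a := rfl

theorem smul_rmul (c : ℂ) (μ : Dual A) (a : A) : rmul (c • μ) a = c • rmul μ a := rfl

/-- For `G ∈ A**` and `μ ∈ A*`, the functional `b ↦ G (μ · b)`. -/
def act (G : Bidual A) (μ : Dual A) : Dual A :=
  Dual.mk (fun b => G (rmul μ b)) (fun b c => by rw [rmul_add, G.map_add])
    (fun c b => by rw [rmul_smul, G.map_smul]) (‖G‖ * ‖μ‖)
    (fun b => (G.le_norm _).trans (by
      rw [mul_assoc]; exact mul_le_mul_of_nonneg_left (norm_rmul_le μ b) (norm_nonneg G)))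

theorem act_apply (G : Bidual A) (μ : Dual A) (b : A) : act G μ b = G (rmul μ b) := rfl

theorem norm_act_le (G : Bidual A) (μ : Dual A) : ‖act G μ‖ ≤ ‖G‖ * ‖μ‖ :=
  Dual.norm_le _ _ (by positivity) fun b => (G.le_norm _).trans (by
      rw [mul_assoc]; exact mul_le_mul_of_nonneg_left (norm_rmul_le μ b) (norm_nonneg G))

theorem act_add (G : Bidual A) (μ ν : Dual A) : act G (μ + ν) = act G μ + act G ν :=
  Dual.ext fun b => by rw [Dual.add_apply]; simp only [act_apply, add_rmul, G.map_add]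

theorem act_smul (G : Bidual A) (c : ℂ) (μ : Dual A) : act G (c • μ) = c • act G μ :=
  Dual.ext fun b => by rw [Dual.smul_apply]; simp only [act_apply, smul_rmul, G.map_smul]

/-- The product of `A**` (Arens product): `(F G) (μ) = F (b ↦ G (μ · b))`. -/
def arens (F G : Bidual A) : Bidual A :=
  Bidual.mk (fun μ => F (act G μ)) (fun μ ν => by rw [act_add, F.map_add])
    (fun c μ => by rw [act_smul, F.map_smul]) (‖F‖ * ‖G‖)
    (fun μ => (F.le_norm _).trans (by
      rw [mul_assoc]; exact mul_le_mul_of_nonneg_left (norm_act_le G μ) (norm_nonneg F)))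

theorem arens_apply (F G : Bidual A) (μ : Dual A) : arens F G μ = F (act G μ) := rfl

/-- The functional `μ* : a ↦ conj (μ (a*))`. -/
def dstar (μ : Dual A) : Dual A :=
  Dual.mk (fun a => starRingEnd ℂ (μ (star a)))
    (fun a b => by rw [star_add, μ.map_add, RingHom.map_add])
    (fun c a => by rw [star_smul, μ.map_smul, RingHom.map_mul, starRingEnd_apply, star_star])
    ‖μ‖ (fun a => by
      rw [RCLike.norm_conj]; exact (μ.le_norm _).trans_eq (by rw [norm_star]))

theorem dstar_apply (μ : Dual A) (a : A) : dstar μ a = starRingEnd ℂ (μ (star a)) := rfl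

theorem norm_dstar_le (μ : Dual A) : ‖dstar μ‖ ≤ ‖μ‖ :=
  Dual.norm_le _ _ (norm_nonneg μ) fun a => by
    rw [dstar_apply, RCLike.norm_conj]; exact (μ.le_norm _).trans_eq (by rw [norm_star])

theorem dstar_add (μ ν : Dual A) : dstar (μ + ν) = dstar μ + dstar ν :=
  Dual.ext fun a => by
    rw [Dual.add_apply]; simp only [dstar_apply, Dual.add_apply, RingHom.map_add]

theorem dstar_smul (c : ℂ) (μ : Dual A) : dstar (c • μ) = starRingEnd ℂ c • dstar μ :=
  Dual.ext fun a => by
    rw [Dual.smul_apply]; simp only [dstar_apply, Dual.smul_apply, RingHom.map_mul]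

/-- The involution of `A**`: `F* (μ) = conj (F (μ*))`. -/
def bstar (F : Bidual A) : Bidual A :=
  Bidual.mk (fun μ => starRingEnd ℂ (F (dstar μ)))
    (fun μ ν => by rw [dstar_add, F.map_add, RingHom.map_add])
    (fun c μ => by rw [dstar_smul, F.map_smul, RingHom.map_mul, Complex.conj_conj])
    ‖F‖ (fun μ => by
      rw [RCLike.norm_conj]
      exact (F.le_norm _).trans (mul_le_mul_of_nonneg_left (norm_dstar_le μ) (norm_nonneg F)))

theorem bstar_apply (F : Bidual A) (μ : Dual A) : bstar F μ = starRingEnd ℂ (F (dstar μ)) := rfl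

/-- The canonical embedding of `A` into `A**`. -/
def emb (a : A) : Bidual A :=
  Bidual.mk (fun μ => μ a) (fun _ _ => rfl) (fun _ _ => rfl) ‖a‖
    (fun μ => (μ.le_norm a).trans_eq (mul_comm _ _))

theorem emb_apply (a : A) (μ : Dual A) : emb a μ = μ a := rfl

/-! ## Multipliers, projections, states -/

/-- `m ∈ A**` is in the multiplier algebra `M(A) = {m : m A ⊆ A, A m ⊆ A}`. -/
def IsMult (m : Bidual A) : Prop :=
  ∀ a : A, (∃ b, arens m (emb a) = emb b) ∧ ∃ b, arens (emb a) m = emb b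

/-- The linear subspace `S` of `A**` is dense in `M(A)` in the strict topology, which is given by
the seminorms `m ↦ ‖m c‖` and `m ↦ ‖c m‖`, `c ∈ A`. -/
def StrictlyDense (S : Submodule ℂ (Bidual A)) : Prop :=
  ∀ m : Bidual A, IsMult m → ∀ (s : Finset A) (ε : ℝ), 0 < ε →
    ∃ n ∈ S, ∀ c ∈ s, ‖arens (m - n) (emb c)‖ < ε ∧ ‖arens (emb c) (m - n)‖ < ε

/-- Positive elements of a C*-algebra. -/
def IsPos (a : A) : Prop := ∃ b : A, a = star b * b

/-- `ω` is a state of `A`. -/
def IsState (ω : Dual A) : Prop := ‖ω‖ = 1 ∧ ∀ a : A, IsPos a → ∃ r : ℝ, 0 ≤ r ∧ ω a = r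

/-- `p` is a projection of `A**`. -/
def IsProj (p : Bidual A) : Prop := arens p p = p ∧ bstar p = p

/-- `e` is the unit of `A**`. -/
def IsUnit1 (e : Bidual A) : Prop := ∀ F : Bidual A, arens e F = F ∧ arens F e = F

/-- `q` is an open projection: a projection that is the strong limit of an increasing net of
positive elements of `A` (a net `x i` in `A` tends strongly to `q` if and only if
`(q - x i)* (q - x i)` tends to zero at all functionals). -/
def IsOpenProj (q : Bidual A) : Prop :=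
  IsProj q ∧ ∃ (I : Type) (_ : Preorder I) (_ : Nonempty I) (x : I → A),
    (∀ i j : I, ∃ k, i ≤ k ∧ j ≤ k) ∧ (∀ i, IsPos (x i)) ∧ (∀ i j, i ≤ j → IsPos (x j - x i)) ∧
      ∀ μ : Dual A, Tendsto (fun i => arens (bstar (q - emb (x i))) (q - emb (x i)) μ)
        atTop (𝓝 0)

/-- `p` is a closed projection: its complement is open. -/
def IsClosedProj (p : Bidual A) : Prop :=
  IsProj p ∧ ∃ e : Bidual A, IsUnit1 e ∧ IsOpenProj (e - p)

/-- `p` is a compact projection: it is closed and `x p = p` for some positive `x` in `A`. -/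
def IsCompactProj (p : Bidual A) : Prop :=
  IsClosedProj p ∧ ∃ x : A, IsPos x ∧ arens (emb x) p = p

/-- `p` is the support projection of `ω`: the smallest closed projection with `ω (p) = 1`. -/
def IsSupport (ω : Dual A) (p : Bidual A) : Prop :=
  IsClosedProj p ∧ p ω = 1 ∧ ∀ p' : Bidual A, IsClosedProj p' → p' ω = 1 → arens p p' = p

/-! ## The minimal tensor product -/

/-- A faithful `*`-representation of a C*-algebra on a Hilbert space. -/
structure FaithfulRep (A H : Type) [NonUnitalCStarAlgebra A] [NormedAddCommGroup H]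
    [InnerProductSpace ℂ H] where
  /-- the operator of `a` -/
  op : A → H → H
  add_vec : ∀ a x y, op a (x + y) = op a x + op a y
  smul_vec : ∀ a (c : ℂ) x, op a (c • x) = c • op a x
  add_op : ∀ a b x, op (a + b) x = op a x + op b x
  smul_op : ∀ (c : ℂ) a x, op (c • a) x = c • op a x
  mul_op : ∀ a b x, op (a * b) x = op a (op b x)
  star_op : ∀ a x y, inner ℂ (op a x) y = inner ℂ x (op (star a) y)
  faithful : ∀ a, (∀ x, op a x = 0) → a = 0

/-- `L` with the bilinear map `t` is the Hilbert space tensor product of `H` and `K`. -/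
def IsHilbertTensor {H K L : Type} [NormedAddCommGroup H] [InnerProductSpace ℂ H]
    [NormedAddCommGroup K] [InnerProductSpace ℂ K] [NormedAddCommGroup L]
    [InnerProductSpace ℂ L] (t : H → K → L) : Prop :=
  (∀ x x' y y', inner ℂ (t x y) (t x' y') = inner ℂ x x' * inner ℂ y y') ∧
    Dense (Submodule.span ℂ {z | ∃ x y, z = t x y} : Set L)

/-- `T` is the minimal (spatial) tensor product of the C*-algebras `A` and `B`: it is faithfully
represented on `H ⊗ K`, where `A` and `B` are faithfully represented on `H` and `K`, so that the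
element `tmul a b` acts as `a ⊗ b`, and these elements have dense linear span.  The field `pfun` is
the product functional `μ ⊗ ν`, which is determined by its values `μ (a) ν (b)` at the elements
`tmul a b`. -/
structure MinTensor (A B T : Type) [NonUnitalCStarAlgebra A] [NonUnitalCStarAlgebra B]
    [NonUnitalCStarAlgebra T] where
  /-- the elementary tensor `a ⊗ b` -/
  tmul : A → B → T
  spatial : ∃ (H K L : Type) (_ : NormedAddCommGroup H) (_ : InnerProductSpace ℂ H)
    (_ : CompleteSpace H) (_ : NormedAddCommGroup K) (_ : InnerProductSpace ℂ K)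
    (_ : CompleteSpace K) (_ : NormedAddCommGroup L) (_ : InnerProductSpace ℂ L)
    (_ : CompleteSpace L) (π : FaithfulRep A H) (σ : FaithfulRep B K) (θ : FaithfulRep T L)
    (t : H → K → L), IsHilbertTensor t ∧ ∀ a b x y, θ.op (tmul a b) (t x y) = t (π.op a x) (σ.op b y)
  dense : Dense (Submodule.span ℂ {z | ∃ a b, z = tmul a b} : Set T)
  /-- the product functional `μ ⊗ ν` -/
  pfun : Dual A → Dual B → Dual T
  pfun_tmul : ∀ μ ν a b, pfun μ ν (tmul a b) = μ a * ν b

/-! ## Quantum semigroups -/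

/-- A comultiplication on the C*-algebra `A`, where `T = A ⊗ A`: a nondegenerate
`*`-homomorphism `Δ : A → M(A ⊗ A)` with `(Δ ⊗ id) Δ = (id ⊗ Δ) Δ`.  (The bound `‖Δ a‖ ≤ ‖a‖` holds
for all `*`-homomorphisms; coassociativity is stated as associativity of the convolution product
`μ ⋆ ν = (μ ⊗ ν) Δ` of `A*`, to which it is equivalent, since product functionals separate the
points of `M(A ⊗ A ⊗ A)`.) -/
structure Comultiplication {A T : Type} [NonUnitalCStarAlgebra A] [NonUnitalCStarAlgebra T]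
    (τ : MinTensor A A T) where
  /-- the map `Δ` -/
  Δ : A → Bidual T
  add : ∀ a b, Δ (a + b) = Δ a + Δ b
  smul : ∀ (c : ℂ) a, Δ (c • a) = c • Δ a
  norm_le : ∀ a, ‖Δ a‖ ≤ ‖a‖
  mul : ∀ a b, Δ (a * b) = arens (Δ a) (Δ b)
  star : ∀ a, Δ (star a) = bstar (Δ a)
  isMult : ∀ a, IsMult (Δ a)
  nondegenerate : Dense (Submodule.span ℂ {s : T | ∃ a t, emb s = arens (Δ a) (emb t)} : Set T)
  coassoc : ∀ (μ ν ρ μν νρ : Dual A), (∀ a, μν a = Δ a (τ.pfun μ ν)) →
    (∀ a, νρ a = Δ a (τ.pfun ν ρ)) → ∀ a, Δ a (τ.pfun μν ρ) = Δ a (τ.pfun μ νρ)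

/-- Weak cancellation: for every nonzero `μ ∈ A*` the sets of all `b ⋆ (μ · a) = (μ · a ⊗ id) Δ b`
and of all `(b · μ) ⋆ a = (id ⊗ b · μ) Δ a` have strictly dense linear span in `M(A)`. -/
def WeakCancellation {A T : Type} [NonUnitalCStarAlgebra A] [NonUnitalCStarAlgebra T]
    {τ : MinTensor A A T} (δ : Comultiplication τ) : Prop :=
  ∀ μ : Dual A, μ ≠ 0 →
    StrictlyDense (Submodule.span ℂ {m : Bidual A | ∃ a b : A, ∀ ρ : Dual A,
      m ρ = δ.Δ b (τ.pfun (rmul μ a) ρ)}) ∧
    StrictlyDense (Submodule.span ℂ {m : Bidual A | ∃ a b : A, ∀ ρ : Dual A,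
      m ρ = δ.Δ a (τ.pfun ρ (lmul b μ))})

/-- `ω` is idempotent: `ω ⋆ ω = ω`. -/
def IsIdempotent {A T : Type} [NonUnitalCStarAlgebra A] [NonUnitalCStarAlgebra T]
    {τ : MinTensor A A T} (δ : Comultiplication τ) (ω : Dual A) : Prop :=
  ∀ a, δ.Δ a (τ.pfun ω ω) = ω a

end Pool.Agent.Lib.MP_43823f_an
end
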