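import Pool.Agent.Lib.MP_43823f_an.HTensor

set_option autoImplicit false
set_option linter.unusedSectionVars false

/-!
# The minimal tensor product of algebras of compact operators; product functionals
-/

open Filter Topology InnerProductSpace
open scoped TensorProduct

noncomputable section

namespace Pool.Agent.Lib.MP_43823f_an

variable {H : Type} [NormedAddCommGroup H] [InnerProductSpace ℂ H] [CompleteSpace H]
  {K : Type} [NormedAddCommGroup K] [InnerProductSpace ℂ K] [CompleteSpace K]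
  {X Y : Type} (b : HilbertBasis X ℂ H) (c : HilbertBasis Y ℂ K)

theorem fp_prod (F : Finset X) (G : Finset Y) :
    fp (hbt b c) (F ×ˢ G) = top (fp b F) (fp c G) :=
  ht_ext fun x y => by
    have e1 : ∀ z : HT H K, fp (hbt b c) (F ×ˢ G) z =
        ∑ p ∈ F ×ˢ G, inner ℂ (tt (b p.1) (c p.2)) z • tt (b p.1) (c p.2) := by
      intro z
      rw [fp_apply]
      exact Finset.sum_congr rfl fun p _ => by rw [hbt_apply]
    rw [e1, top_tt, fp_apply, fp_apply]
    have e2 : ∀ (s : Finset X) (f : X → H) (w : K), tt (∑ i ∈ s, f i) w = ∑ i ∈ s, tt (f i) w :=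
      fun s f w => map_sum (tr w : H →L[ℂ] HT H K) f s
    have e3 : ∀ (s : Finset Y) (f : Y → K) (w : H), tt w (∑ i ∈ s, f i) = ∑ i ∈ s, tt w (f i) :=
      fun s f w => map_sum (tl w : K →L[ℂ] HT H K) f s
    rw [e2, Finset.sum_product]
    refine Finset.sum_congr rfl fun i _ => ?_
    rw [e3]
    refine Finset.sum_congr rfl fun j _ => ?_
    rw [inner_tt, tt_smul_left, tt_smul_right, smul_smul]

theorem top_mem {a : H →L[ℂ] H} {d : K →L[ℂ] K} (ha : a ∈ KH b) (hd : d ∈ KH c) :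
    top a d ∈ KH (hbt b c) := by
  rw [mem_KH_iff]
  intro ε hε
  obtain ⟨F, hF⟩ := (mem_KH_iff b a).1 ha (ε / (2 * (‖d‖ + 1))) (by positivity)
  obtain ⟨G, hG⟩ := (mem_KH_iff c d).1 hd (ε / (2 * (‖a‖ + 1))) (by positivity)
  refine ⟨F ×ˢ G, ?_⟩
  rw [fp_prod, top_mul]
  have e : top a d - top (a * fp b F) (d * fp c G) =
      top (a - a * fp b F) d + top (a * fp b F) (d - d * fp c G) :=
    ht_ext fun x y => by
      simp only [sub_apply, add_apply, top_tt]
      have e1 : ∀ u v : H, ∀ w : K, tt (u - v) w = tt u w - tt v w := fun u v w =>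
        map_sub (tr w : H →L[ℂ] HT H K) u v
      have e2 : ∀ u v : K, ∀ w : H, tt w (u - v) = tt w u - tt w v := fun u v w =>
        map_sub (tl w : K →L[ℂ] HT H K) u v
      simp only [e1, e2]
      abel
  rw [e]
  have h1 : ‖top (a - a * fp b F) d‖ ≤ ‖a - a * fp b F‖ * ‖d‖ := norm_top_le _ _
  have h2 : ‖top (a * fp b F) (d - d * fp c G)‖ ≤ ‖a * fp b F‖ * ‖d - d * fp c G‖ :=
    norm_top_le _ _
  have h3 : ‖a * fp b F‖ ≤ ‖a‖ :=
    (norm_mul_le _ _).trans (mul_le_of_le_one_right (norm_nonneg _) (norm_fp_le b F))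
  have h4 : ‖a - a * fp b F‖ * ‖d‖ ≤ ε / (2 * (‖d‖ + 1)) * ‖d‖ := by gcongr
  have h5 : ε / (2 * (‖d‖ + 1)) * ‖d‖ < ε / 2 := by
    rw [div_mul_eq_mul_div, div_lt_div_iff₀ (by positivity) (by positivity)]
    nlinarith [norm_nonneg d]
  have h6 : ‖a * fp b F‖ * ‖d - d * fp c G‖ ≤ ‖a‖ * (ε / (2 * (‖a‖ + 1))) := by gcongr
  have h7 : ‖a‖ * (ε / (2 * (‖a‖ + 1))) ≤ ε / 2 := by
    rw [mul_div_assoc', div_le_div_iff₀ (by positivity) (by positivity)]
    nlinarith [norm_nonneg a]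
  calc _ ≤ ‖top (a - a * fp b F) d‖ + ‖top (a * fp b F) (d - d * fp c G)‖ := norm_add_le _ _
    _ < ε := by linarith

/-- The elementary tensor of compact operators. -/
def ktmul (a : KH b) (d : KH c) : KH (hbt b c) := ⟨top a.1 d.1, top_mem b c a.2 d.2⟩

theorem rankOne_tt (x x' : H) (y y' : K) :
    (rankOne ℂ (tt x y) (tt x' y') : HT H K →L[ℂ] HT H K) =
      top (rankOne ℂ x x') (rankOne ℂ y y') :=
  ht_ext fun u v => by
    rw [rankOne_apply, top_tt, rankOne_apply, rankOne_apply, inner_tt, tt_smul_left,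
      tt_smul_right, smul_smul]

theorem KH_dense_induction (W : Submodule ℂ (KH b)) (hW : IsClosed (W : Set (KH b)))
    (h : ∀ x x', rk b (b x) (b x') ∈ W) (a : KH b) : a ∈ W := by
  classical
  have h1 : ∀ ξ x', rk b ξ (b x') ∈ W := by
    intro ξ x'
    let f : H →L[ℂ] KH b := LinearMap.mkContinuous
      { toFun := fun ξ => rk b ξ (b x')
        map_add' := fun x y => by
          apply Subtype.ext
          change rankOne ℂ (x + y) _ = rankOne ℂ x _ + rankOne ℂ y _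
          simp
        map_smul' := fun c x => by
          apply Subtype.ext
          change rankOne ℂ (c • x) _ = c • rankOne ℂ x _
          simp } ‖b x'‖ (fun η => by
            have : ‖rk b η (b x')‖ = ‖η‖ * ‖b x'‖ := norm_rankOne η (b x')
            change ‖rk b η (b x')‖ ≤ _
            rw [this, mul_comm])
    exact HilbertBasis_induction b (W.comap f.toLinearMap) (hW.preimage f.continuous)
      (fun x => h x x') ξ
  refine hW.mem_of_tendsto (mulfp_tendsto b a) (Eventually.of_forall fun F => ?_)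
  have e : mulfp b a F = ∑ x ∈ F, rk b (a.1 (b x)) (b x) := by
    apply Subtype.ext
    rw [mulfp_coe, fp, Finset.mul_sum, AddSubmonoidClass.coe_finsetSum]
    refine Finset.sum_congr rfl fun x _ => ?_
    exact comp_rankOne _ _ _
  rw [e]
  exact Submodule.sum_mem _ fun x _ => h1 _ _

theorem ktmul_dense :
    Dense (Submodule.span ℂ {z | ∃ a d, z = ktmul b c a d} : Set (KH (hbt b c))) := by
  rw [Submodule.dense_iff_topologicalClosure_eq_top, eq_top_iff]
  intro R _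
  refine KH_dense_induction (hbt b c) _ (Submodule.isClosed_topologicalClosure _)
    (fun p q => ?_) R
  refine Submodule.le_topologicalClosure _ (Submodule.subset_span
    ⟨rk b (b p.1) (b q.1), rk c (c p.2) (c q.2), ?_⟩)
  apply Subtype.ext
  change rankOne ℂ (hbt b c p) (hbt b c q) = top (rankOne ℂ _ _) (rankOne ℂ _ _)
  rw [hbt_apply, hbt_apply, rankOne_tt]

/-! ### Slices -/

/-- The block `(⟨ξ| ⊗ 1) R (|η⟩ ⊗ 1)`. -/
def blk (R : HT H K →L[ℂ] HT H K) (ξ η : H) : K →L[ℂ] K :=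
  (ContinuousLinearMap.adjoint (tl ξ : K →L[ℂ] HT H K)) ∘L R ∘L (tl η)

theorem inner_blk (R : HT H K →L[ℂ] HT H K) (ξ η : H) (ζ ζ' : K) :
    inner ℂ ζ (blk R ξ η ζ') = inner ℂ (tt ξ ζ) (R (tt η ζ')) := by
  rw [blk, ContinuousLinearMap.comp_apply, ContinuousLinearMap.adjoint_inner_right]; rfl

theorem norm_blk_le (R : HT H K →L[ℂ] HT H K) (ξ η : H) : ‖blk R ξ η‖ ≤ ‖R‖ * ‖ξ‖ * ‖η‖ := by
  refine ContinuousLinearMap.opNorm_le_bound _ (by positivity) fun ζ => ?_
  have h1 : ‖blk R ξ η ζ‖ ≤ ‖ξ‖ * ‖R (tt η ζ)‖ := by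
    have h0 : blk R ξ η ζ = ContinuousLinearMap.adjoint (tl ξ : K →L[ℂ] HT H K) (R (tt η ζ)) := rfl
    rw [h0]
    refine (ContinuousLinearMap.le_opNorm _ _).trans ?_
    rw [LinearIsometryEquiv.norm_map]
    exact mul_le_mul_of_nonneg_right (norm_tl_le ξ) (norm_nonneg _)
  have h2 : ‖R (tt η ζ)‖ ≤ ‖R‖ * (‖η‖ * ‖ζ‖) := by
    rw [← norm_tt]; exact R.le_opNorm _
  calc _ ≤ ‖ξ‖ * ‖R (tt η ζ)‖ := h1
    _ ≤ ‖ξ‖ * (‖R‖ * (‖η‖ * ‖ζ‖)) := by gcongr
    _ = _ := by ring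

theorem blk_ext {S T : K →L[ℂ] K} (h : ∀ ζ ζ', inner ℂ ζ (S ζ') = inner ℂ ζ (T ζ')) : S = T := by
  ext ζ'
  exact ext_inner_left ℂ fun ζ => h ζ ζ'

theorem blk_add_left (R : HT H K →L[ℂ] HT H K) (ξ ξ' η : H) :
    blk R (ξ + ξ') η = blk R ξ η + blk R ξ' η := blk_ext fun ζ ζ' => by
  rw [add_apply, inner_add_right, inner_blk, inner_blk, inner_blk, tt_add_left, inner_add_left]

theorem blk_smul_left (R : HT H K →L[ℂ] HT H K) (k : ℂ) (ξ η : H) :
    blk R (k • ξ) η = starRingEnd ℂ k • blk R ξ η := blk_ext fun ζ ζ' => by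
  rw [smul_apply, inner_smul_right, inner_blk, inner_blk, tt_smul_left, inner_smul_left]

theorem blk_add_right (R : HT H K →L[ℂ] HT H K) (ξ η η' : H) :
    blk R ξ (η + η') = blk R ξ η + blk R ξ η' := blk_ext fun ζ ζ' => by
  rw [add_apply, inner_add_right, inner_blk, inner_blk, inner_blk, tt_add_left, map_add,
    inner_add_right]

theorem blk_smul_right (R : HT H K →L[ℂ] HT H K) (k : ℂ) (ξ η : H) :
    blk R ξ (k • η) = k • blk R ξ η := blk_ext fun ζ ζ' => by
  rw [smul_apply, inner_smul_right, inner_blk, inner_blk, tt_smul_left, map_smul, inner_smul_right]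

theorem blk_add (R R' : HT H K →L[ℂ] HT H K) (ξ η : H) :
    blk (R + R') ξ η = blk R ξ η + blk R' ξ η := blk_ext fun ζ ζ' => by
  rw [add_apply, inner_add_right, inner_blk, inner_blk, inner_blk, add_apply, inner_add_right]

theorem blk_smul (k : ℂ) (R : HT H K →L[ℂ] HT H K) (ξ η : H) :
    blk (k • R) ξ η = k • blk R ξ η := blk_ext fun ζ ζ' => by
  rw [smul_apply, inner_smul_right, inner_blk, inner_blk, smul_apply, inner_smul_right]

theorem blk_sub (R R' : HT H K →L[ℂ] HT H K) (ξ η : H) :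
    blk (R - R') ξ η = blk R ξ η - blk R' ξ η := blk_ext fun ζ ζ' => by
  rw [sub_apply, inner_sub_right, inner_blk, inner_blk, inner_blk, sub_apply, inner_sub_right]

theorem blk_mul_top (R : HT H K →L[ℂ] HT H K) (a : H →L[ℂ] H) (d : K →L[ℂ] K) (ξ η : H) :
    blk (R * top a d) ξ η = blk R ξ (a η) * d := blk_ext fun ζ ζ' => by
  rw [inner_blk, mul_apply_eq_comp, mul_apply_eq_comp, top_tt, inner_blk]

theorem blk_top (a : H →L[ℂ] H) (d : K →L[ℂ] K) (ξ η : H) :
    blk (top a d) ξ η = inner ℂ ξ (a η) • d := blk_ext fun ζ ζ' => by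
  rw [inner_blk, top_tt, inner_tt, smul_apply, inner_smul_right]

theorem exists_rect (R : HT H K →L[ℂ] HT H K) (hR : R ∈ KH (hbt b c)) (ε : ℝ) (hε : 0 < ε) :
    ∃ (F : Finset X) (G : Finset Y), ‖R - R * top (fp b F) (fp c G)‖ < ε := by
  classical
  rw [mem_KH_iff', Metric.tendsto_atTop] at hR
  obtain ⟨E, hE⟩ := hR ε hε
  refine ⟨E.image Prod.fst, E.image Prod.snd, ?_⟩
  have h1 := hE (E.image Prod.fst ×ˢ E.image Prod.snd) Finset.subset_product
  rw [fp_prod, dist_comm, dist_eq_norm] at h1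
  exact h1

theorem blk_mem (R : KH (hbt b c)) (ξ η : H) : blk R.1 ξ η ∈ KH c := by
  rw [mem_KH_iff]
  intro ε hε
  obtain ⟨F, G, h⟩ := exists_rect b c R.1 R.2 (ε / (2 * (‖ξ‖ * ‖η‖ + 1))) (by positivity)
  refine ⟨G, ?_⟩
  have e1 : blk R.1 ξ η - blk R.1 ξ η * fp c G = blk (R.1 - R.1 * top 1 (fp c G)) ξ η := by
    rw [blk_sub, blk_mul_top]; rfl
  have e2 : R.1 - R.1 * top 1 (fp c G) = (R.1 - R.1 * top (fp b F) (fp c G)) -
      (R.1 - R.1 * top (fp b F) (fp c G)) * top 1 (fp c G) := by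
    rw [sub_mul, mul_assoc R.1, top_mul, mul_one, fp_idem]
    abel
  have h1 : ‖R.1 - R.1 * top 1 (fp c G)‖ ≤ 2 * ‖R.1 - R.1 * top (fp b F) (fp c G)‖ := by
    rw [e2]
    refine (norm_sub_le _ _).trans ?_
    have h2 : ‖(top 1 (fp c G) : HT H K →L[ℂ] HT H K)‖ ≤ 1 := by
      refine (norm_top_le _ _).trans ?_
      have h7 : ‖(1 : H →L[ℂ] H)‖ ≤ 1 := ContinuousLinearMap.norm_id_le
      exact mul_le_one₀ h7 (norm_nonneg (fp c G)) (norm_fp_le c G)
    have h3 : ‖(R.1 - R.1 * top (fp b F) (fp c G)) * top 1 (fp c G)‖ ≤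
        ‖R.1 - R.1 * top (fp b F) (fp c G)‖ :=
      (norm_mul_le _ _).trans (mul_le_of_le_one_right (norm_nonneg _) h2)
    linarith
  rw [e1]
  refine (norm_blk_le _ _ _).trans_lt ?_
  have h5 : ‖R.1 - R.1 * top 1 (fp c G)‖ * ‖ξ‖ * ‖η‖ ≤
      2 * (ε / (2 * (‖ξ‖ * ‖η‖ + 1))) * (‖ξ‖ * ‖η‖) := by
    rw [mul_assoc]
    exact mul_le_mul_of_nonneg_right (by linarith) (by positivity)
  refine h5.trans_lt ?_
  have h6 : 0 < ‖ξ‖ * ‖η‖ + 1 := by positivity
  rw [show 2 * (ε / (2 * (‖ξ‖ * ‖η‖ + 1))) * (‖ξ‖ * ‖η‖) =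
    ε * (‖ξ‖ * ‖η‖) / (‖ξ‖ * ‖η‖ + 1) by field_simp]
  rw [div_lt_iff₀ h6]
  nlinarith

/-- the block as an element of the algebra -/
def blkK (R : KH (hbt b c)) (ξ η : H) : KH c := ⟨blk R.1 ξ η, blk_mem b c R ξ η⟩

/-- the sesquilinear form of the slice -/
def sform (ν : Dual (KH c)) (R : KH (hbt b c)) : H →L⋆[ℂ] H →L[ℂ] ℂ :=
  LinearMap.mkContinuous₂
    (LinearMap.mk₂'ₛₗ (starRingEnd ℂ) (RingHom.id ℂ) (fun ξ η => ν (blkK b c R ξ η))
      (fun x y z => by
        rw [← ν.map_add]; congr 1; exact Subtype.ext (blk_add_left _ _ _ _))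
      (fun k x y => by
        rw [smul_eq_mul, ← ν.map_smul]; congr 1; exact Subtype.ext (blk_smul_left _ _ _ _))
      (fun x y z => by
        rw [← ν.map_add]; congr 1; exact Subtype.ext (blk_add_right _ _ _ _))
      (fun k x y => by
        rw [smul_eq_mul, RingHom.id_apply, ← ν.map_smul]; congr 1
        exact Subtype.ext (blk_smul_right _ _ _ _))) (‖ν‖ * ‖R‖) (fun x y => by
        refine (ν.le_norm _).trans ?_
        rw [mul_assoc, mul_assoc, ← mul_assoc ‖R‖]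
        exact mul_le_mul_of_nonneg_left (norm_blk_le R.1 x y) (norm_nonneg _))

theorem sform_apply (ν : Dual (KH c)) (R : KH (hbt b c)) (ξ η : H) :
    sform b c ν R ξ η = ν (blkK b c R ξ η) := rfl

theorem norm_sform_le (ν : Dual (KH c)) (R : KH (hbt b c)) : ‖sform b c ν R‖ ≤ ‖ν‖ * ‖R‖ :=
  LinearMap.mkContinuous₂_norm_le _ (by positivity) _

/-- The slice `(id ⊗ ν) (R)`. -/
def sl (ν : Dual (KH c)) (R : KH (hbt b c)) : H →L[ℂ] H :=
  ContinuousLinearMap.adjoint (continuousLinearMapOfBilin (sform b c ν R))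

theorem inner_sl (ν : Dual (KH c)) (R : KH (hbt b c)) (ξ η : H) :
    inner ℂ ξ (sl b c ν R η) = ν (blkK b c R ξ η) := by
  rw [sl, ContinuousLinearMap.adjoint_inner_right, continuousLinearMapOfBilin_apply, sform_apply]

theorem norm_sl_le (ν : Dual (KH c)) (R : KH (hbt b c)) : ‖sl b c ν R‖ ≤ ‖ν‖ * ‖R‖ := by
  refine ContinuousLinearMap.opNorm_le_bound _ (by positivity) fun η => ?_
  by_cases h : ‖sl b c ν R η‖ = 0
  · rw [h]; positivity
  · have h0 : 0 < ‖sl b c ν R η‖ := lt_of_le_of_ne (norm_nonneg _) (Ne.symm h)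
    have h1 : ‖(inner ℂ (sl b c ν R η) (sl b c ν R η) : ℂ)‖ = ‖sl b c ν R η‖ ^ 2 := by
      rw [inner_self_eq_norm_sq_to_K]; simp
    have h2 : ‖(inner ℂ (sl b c ν R η) (sl b c ν R η) : ℂ)‖ ≤
        ‖ν‖ * ‖R‖ * ‖sl b c ν R η‖ * ‖η‖ := by
      rw [inner_sl]
      refine (ν.le_norm _).trans ?_
      rw [mul_assoc, mul_assoc, ← mul_assoc ‖R‖]
      exact mul_le_mul_of_nonneg_left (norm_blk_le R.1 _ _) (norm_nonneg _)
    rw [h1] at h2
    nlinarith

theorem sl_ext {S T : H →L[ℂ] H} (h : ∀ ξ η, inner ℂ ξ (S η) = inner ℂ ξ (T η)) : S = T := by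
  ext η
  exact ext_inner_left ℂ fun ξ => h ξ η

theorem sl_add (ν : Dual (KH c)) (R R' : KH (hbt b c)) :
    sl b c ν (R + R') = sl b c ν R + sl b c ν R' := sl_ext fun ξ η => by
  rw [add_apply, inner_add_right, inner_sl, inner_sl, inner_sl, ← ν.map_add]
  congr 1
  exact Subtype.ext (blk_add _ _ _ _)

theorem sl_smul (ν : Dual (KH c)) (k : ℂ) (R : KH (hbt b c)) :
    sl b c ν (k • R) = k • sl b c ν R := sl_ext fun ξ η => by
  rw [smul_apply, inner_smul_right, inner_sl, inner_sl, ← ν.map_smul]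
  congr 1
  exact Subtype.ext (blk_smul _ _ _ _)

theorem sl_add' (ν ν' : Dual (KH c)) (R : KH (hbt b c)) :
    sl b c (ν + ν') R = sl b c ν R + sl b c ν' R := sl_ext fun ξ η => by
  rw [add_apply, inner_add_right, inner_sl, inner_sl, inner_sl, Dual.add_apply]

theorem sl_smul' (k : ℂ) (ν : Dual (KH c)) (R : KH (hbt b c)) :
    sl b c (k • ν) R = k • sl b c ν R := sl_ext fun ξ η => by
  rw [smul_apply, inner_smul_right, inner_sl, inner_sl, Dual.smul_apply]

theorem sl_ktmul (ν : Dual (KH c)) (a : KH b) (d : KH c) :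
    sl b c ν (ktmul b c a d) = ν d • a.1 := sl_ext fun ξ η => by
  rw [smul_apply, inner_smul_right, inner_sl]
  have : blkK b c (ktmul b c a d) ξ η = (inner ℂ ξ (a.1 η) : ℂ) • d :=
    Subtype.ext (blk_top _ _ _ _)
  rw [this, ν.map_smul, mul_comm]

theorem sl_mem (ν : Dual (KH c)) (R : KH (hbt b c)) : sl b c ν R ∈ KH b := by
  rw [mem_KH_iff]
  intro ε hε
  obtain ⟨F, G, h⟩ := exists_rect b c R.1 R.2 (ε / (2 * (‖ν‖ + 1))) (by positivity)
  refine ⟨F, ?_⟩
  have hm : R.1 * top (fp b F) 1 ∈ KH (hbt b c) := mul_mem_KH' _ _ R.2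
  have e1 : sl b c ν R - sl b c ν R * fp b F = sl b c ν (R - ⟨R.1 * top (fp b F) 1, hm⟩) :=
    sl_ext fun ξ η => by
      rw [sub_apply, inner_sub_right, mul_apply_eq_comp, inner_sl, inner_sl, inner_sl,
        ← ν.map_sub']
      congr 1
      apply Subtype.ext
      change blk R.1 ξ η - blk R.1 ξ (fp b F η) = blk (R.1 - R.1 * top (fp b F) 1) ξ η
      rw [blk_sub, blk_mul_top, mul_one]
  have e2 : R.1 - R.1 * top (fp b F) 1 = (R.1 - R.1 * top (fp b F) (fp c G)) -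
      (R.1 - R.1 * top (fp b F) (fp c G)) * top (fp b F) 1 := by
    rw [sub_mul, mul_assoc R.1, top_mul, mul_one, fp_idem]
    abel
  have h1 : ‖R.1 - R.1 * top (fp b F) 1‖ ≤ 2 * ‖R.1 - R.1 * top (fp b F) (fp c G)‖ := by
    rw [e2]
    refine (norm_sub_le _ _).trans ?_
    have h2 : ‖(top (fp b F) 1 : HT H K →L[ℂ] HT H K)‖ ≤ 1 := by
      refine (norm_top_le _ _).trans ?_
      have h7 : ‖(1 : K →L[ℂ] K)‖ ≤ 1 := ContinuousLinearMap.norm_id_le
      exact mul_le_one₀ (norm_fp_le b F) (norm_nonneg (1 : K →L[ℂ] K)) h7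
    have h3 : ‖(R.1 - R.1 * top (fp b F) (fp c G)) * top (fp b F) 1‖ ≤
        ‖R.1 - R.1 * top (fp b F) (fp c G)‖ :=
      (norm_mul_le _ _).trans (mul_le_of_le_one_right (norm_nonneg _) h2)
    linarith
  rw [e1]
  refine (norm_sl_le _ _ _ _).trans_lt ?_
  have h5 : ‖ν‖ * ‖R - ⟨R.1 * top (fp b F) 1, hm⟩‖ ≤ ‖ν‖ * (2 * (ε / (2 * (‖ν‖ + 1)))) := by
    refine mul_le_mul_of_nonneg_left ?_ (norm_nonneg _)
    change ‖R.1 - R.1 * top (fp b F) 1‖ ≤ _
    linarith
  refine h5.trans_lt ?_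
  have h6 : 0 < ‖ν‖ + 1 := by positivity
  rw [show ‖ν‖ * (2 * (ε / (2 * (‖ν‖ + 1)))) = ε * ‖ν‖ / (‖ν‖ + 1) by field_simp]
  rw [div_lt_iff₀ h6]
  nlinarith

/-- the slice as an element of the algebra -/
def slK (ν : Dual (KH c)) (R : KH (hbt b c)) : KH b := ⟨sl b c ν R, sl_mem b c ν R⟩

/-- The product functional `μ ⊗ ν`. -/
def pf (μ : Dual (KH b)) (ν : Dual (KH c)) : Dual (KH (hbt b c)) :=
  Dual.mk (fun R => μ (slK b c ν R))
    (fun R R' => by rw [← μ.map_add]; congr 1; exact Subtype.ext (sl_add _ _ _ _ _))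
    (fun k R => by rw [← μ.map_smul]; congr 1; exact Subtype.ext (sl_smul _ _ _ _ _))
    (‖μ‖ * ‖ν‖) (fun R => (μ.le_norm _).trans (by
      rw [mul_assoc]; exact mul_le_mul_of_nonneg_left (norm_sl_le b c ν R) (norm_nonneg μ)))

theorem pf_apply (μ : Dual (KH b)) (ν : Dual (KH c)) (R : KH (hbt b c)) :
    pf b c μ ν R = μ (slK b c ν R) := rfl

theorem norm_pf_le (μ : Dual (KH b)) (ν : Dual (KH c)) : ‖pf b c μ ν‖ ≤ ‖μ‖ * ‖ν‖ :=
  Dual.norm_le _ _ (by positivity) fun R => (μ.le_norm _).trans (by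
      rw [mul_assoc]; exact mul_le_mul_of_nonneg_left (norm_sl_le b c ν R) (norm_nonneg μ))

theorem pf_add_left (μ μ' : Dual (KH b)) (ν : Dual (KH c)) :
    pf b c (μ + μ') ν = pf b c μ ν + pf b c μ' ν := Dual.ext fun _ => rfl

theorem pf_smul_left (k : ℂ) (μ : Dual (KH b)) (ν : Dual (KH c)) :
    pf b c (k • μ) ν = k • pf b c μ ν := Dual.ext fun _ => rfl

theorem pf_add_right (μ : Dual (KH b)) (ν ν' : Dual (KH c)) :
    pf b c μ (ν + ν') = pf b c μ ν + pf b c μ ν' := Dual.ext fun R => by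
  rw [Dual.add_apply, pf_apply, pf_apply, pf_apply, ← μ.map_add]
  congr 1; exact Subtype.ext (sl_add' _ _ _ _ _)

theorem pf_smul_right (k : ℂ) (μ : Dual (KH b)) (ν : Dual (KH c)) :
    pf b c μ (k • ν) = k • pf b c μ ν := Dual.ext fun R => by
  rw [Dual.smul_apply, pf_apply, pf_apply, ← μ.map_smul]
  congr 1; exact Subtype.ext (sl_smul' _ _ _ _ _)

theorem pf_ktmul (μ : Dual (KH b)) (ν : Dual (KH c)) (a : KH b) (d : KH c) :
    pf b c μ ν (ktmul b c a d) = μ a * ν d := by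
  rw [pf_apply]
  have : slK b c ν (ktmul b c a d) = ν d • a := Subtype.ext (sl_ktmul _ _ _ _ _)
  rw [this, μ.map_smul, mul_comm]

theorem pf_vf (ξ η : H) (ξ' η' : K) :
    pf b c (vf b ξ η) (vf c ξ' η') = vf (hbt b c) (tt ξ ξ') (tt η η') := Dual.ext fun R => by
  rw [pf_apply, vf_apply, vf_apply]
  change inner ℂ ξ (sl b c (vf c ξ' η') R η) = _
  rw [inner_sl, vf_apply]
  exact inner_blk _ _ _ _ _

/-! ### The minimal tensor product structure -/

/-- The identity representation. -/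
def idRep : FaithfulRep (KH b) H where
  op a := a.1
  add_vec a := map_add a.1
  smul_vec a := map_smul a.1
  add_op _ _ _ := rfl
  smul_op _ _ _ := rfl
  mul_op _ _ _ := rfl
  star_op a x y := by
    change _ = inner ℂ x ((star a.1) y)
    rw [ContinuousLinearMap.star_eq_adjoint, ContinuousLinearMap.adjoint_inner_right]
  faithful a h := Subtype.ext (ContinuousLinearMap.ext h)

/-- The minimal tensor product of the algebras of compact operators. -/
def kTensor : MinTensor (KH b) (KH c) (KH (hbt b c)) where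
  tmul := ktmul b c
  spatial := ⟨H, K, HT H K, inferInstance, inferInstance, inferInstance, inferInstance,
    inferInstance, inferInstance, inferInstance, inferInstance, inferInstance, idRep b, idRep c,
    idRep (hbt b c), tt, ⟨fun x x' y y' => inner_tt x x' y y', dense_span_tt⟩,
    fun a d x y => top_tt a.1 d.1 x y⟩
  dense := ktmul_dense b c
  pfun := pf b c
  pfun_tmul := pf_ktmul b c

end Pool.Agent.Lib.MP_43823f_an
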