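import Pool.Agent.Lib.MP_43823f_an.Total
import Pool.Agent.Lib.MP_43823f_an.Slice

set_option autoImplicit false
set_option linter.unusedSectionVars false

/-!
# The comultiplication on operators
-/

open Filter Topology InnerProductSpace

noncomputable section

namespace Pool.Agent.Lib.MP_43823f_an

variable {H : Type} [NormedAddCommGroup H] [InnerProductSpace ℂ H] [CompleteSpace H]

/-- `u ⊗ u` -/
def hat : unitary (H →L[ℂ] H) →* unitary (HT H H →L[ℂ] HT H H) where
  toFun u := ⟨top u.1 u.1, by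
    have h := Unitary.mem_iff.1 u.2
    rw [Unitary.mem_iff, top_star, top_mul, top_mul, h.1, h.2, top_one]
    exact ⟨rfl, rfl⟩⟩
  map_one' := Subtype.ext top_one
  map_mul' u w := Subtype.ext (top_mul _ _ _ _).symm

theorem hat_val (u : unitary (H →L[ℂ] H)) : (hat u).1 = top u.1 u.1 := rfl

theorem hat_tt (u : unitary (H →L[ℂ] H)) (x y : H) : (hat u).1 (tt x y) = tt (u.1 x) (u.1 y) :=
  top_tt _ _ _ _

section model

variable (b : HilbertBasis (ℤ × P) ℂ H)

/-- the hat operators -/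
def hT (v : V) : unitary (HT H H →L[ℂ] HT H H) := hat (uT b v)

/-- the hat operators -/
def hD : unitary (HT H H →L[ℂ] HT H H) := hat (uD b)

/-- the hat operators -/
def hM (k : ℕ) : unitary (HT H H →L[ℂ] HT H H) := hat (uM b k)

theorem rel_hat : Rel (unitary (HT H H →L[ℂ] HT H H)) (hT b) (hD b) (hM b) :=
  (rel_model b).map hat

theorem red_mon_of_le {n j : ℤ} (h : n ≤ j) : red n (mon j) = 0 := by
  ext i
  rw [red_apply, mon_of_ne (by omega)]; rfl

theorem red_mon (n : ℤ) (i : ℕ) : red n (mon (n - 1 - i)) = Finsupp.single i 1 := by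
  ext l
  rw [red_apply]
  by_cases h : l = i
  · subst h; rw [mon_self, Finsupp.single_eq_same]
  · rw [mon_of_ne (by omega), Finsupp.single_eq_of_ne h]

theorem hat_hN (η : HT H H) (h : ∀ j, (hT b (mon j)).1 η = η) : η = 0 := by
  have hcoef : ∀ p, inner ℂ (hbt b b p) η = 0 := by
    rintro ⟨⟨n, c⟩, ⟨n', c'⟩⟩
    let f : ℕ → (ℤ × P) × (ℤ × P) := fun i =>
      ((n, c + red n (mon (n - 1 - i))), (n', c' + red n' (mon (n - 1 - i))))
    have hf : Function.Injective f := by
      intro i i' hii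
      have h1 : c + red n (mon (n - 1 - i)) = c + red n (mon (n - 1 - i')) :=
        congrArg (fun q => q.1.2) hii
      rw [red_mon, red_mon] at h1
      have h2 := add_left_cancel h1
      by_contra hne
      have h3 := DFunLike.congr_fun h2 i
      rw [Finsupp.single_eq_same, Finsupp.single_eq_of_ne hne] at h3
      exact one_ne_zero h3
    have h1 : ∀ i, ‖inner ℂ (hbt b b (f i)) η‖ ^ 2 =
        ‖inner ℂ (hbt b b ((n, c), (n', c'))) η‖ ^ 2 := by
      intro i
      have h2 : inner ℂ (hbt b b ((n, c), (n', c'))) η =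
          inner ℂ ((hT b (mon (n - 1 - i))).1 (hbt b b ((n, c), (n', c')))) η := by
        conv_rhs => rw [← h (n - 1 - i)]
        rw [u_inner]
      rw [h2, hbt_apply, hbt_apply]
      change _ = ‖inner ℂ ((hT b (mon (n - 1 - i))).1 (tt (b (n, c)) (b (n', c')))) η‖ ^ 2
      rw [hT, hat_tt, uT_apply, uT_apply, tt_smul_left, tt_smul_right, inner_smul_left,
        inner_smul_left, norm_mul, norm_mul, RCLike.norm_conj, RCLike.norm_conj, norm_sgn,
        norm_sgn, one_mul, one_mul]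
    have h3 : Summable fun p => ‖inner ℂ (hbt b b p) η‖ ^ 2 :=
      (hbt b b).orthonormal.inner_products_summable η
    have h4 := h3.comp_injective hf
    have h5 : Summable fun _ : ℕ => ‖inner ℂ (hbt b b ((n, c), (n', c'))) η‖ ^ 2 :=
      h4.congr h1
    rw [summable_const_iff] at h5
    have h6 : ‖inner ℂ (hbt b b ((n, c), (n', c'))) η‖ = 0 := by
      exact pow_eq_zero_iff (two_ne_zero) |>.1 h5
    exact norm_eq_zero.1 h6
  have h1 : η ∈ (⊤ : Submodule ℂ (HT H H)) := trivial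
  have h2 := HilbertBasis_induction (hbt b b) (LinearMap.ker (innerSL ℂ η).toLinearMap)
    (isClosed_eq (innerSL ℂ η).continuous continuous_const) (fun p => by
      change inner ℂ η (hbt b b p) = 0
      rw [← inner_conj_symm, hcoef, map_zero]) η
  exact inner_self_eq_zero.1 h2

theorem hat_hJ (z : (ℤ × P) × (ℤ × P)) :
    ∃ J : ℤ, ∀ j, J < j → (hT b (mon j)).1 (hbt b b z) = hbt b b z := by
  obtain ⟨⟨n, c⟩, ⟨n', c'⟩⟩ := z
  refine ⟨max n n', fun j hj => ?_⟩
  have h1 : n < j := lt_of_le_of_lt (le_max_left _ _) hj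
  have h2 : n' < j := lt_of_le_of_lt (le_max_right _ _) hj
  rw [hbt_apply]
  change (hT b (mon j)).1 (tt (b (n, c)) (b (n', c'))) = tt (b (n, c)) (b (n', c'))
  rw [hT, hat_tt, uT_apply, uT_apply, mon_of_ne (by omega), mon_of_ne (by omega), sgn_zero,
    one_smul, one_smul, red_mon_of_le h1.le, red_mon_of_le h2.le, add_zero, add_zero]

theorem hat_hK (z : (ℤ × P) × (ℤ × P)) :
    ∃ K : ℕ, ∀ k, K ≤ k → (hM b k).1 (hbt b b z) = hbt b b z := by
  obtain ⟨⟨n, c⟩, ⟨n', c'⟩⟩ := z
  obtain ⟨N, hN⟩ := exists_bound c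
  obtain ⟨N', hN'⟩ := exists_bound c'
  refine ⟨max N N', fun k hk => ?_⟩
  have h1 : N ≤ k := le_trans (le_max_left _ _) hk
  have h2 : N' ≤ k := le_trans (le_max_right _ _) hk
  rw [hbt_apply]
  change (hM b k).1 (tt (b (n, c)) (b (n', c'))) = tt (b (n, c)) (b (n', c'))
  have e : ∀ (d : P) (B : ℕ), (∀ i, B ≤ i → d i = 0) → B ≤ k → mk' k d = d := by
    intro d B hB hk
    have : shp (k + 1) d = 0 := by
      ext i; rw [shp_apply]; exact hB _ (by omega)
    rw [mk', this, add_zero]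
  rw [hM, hat_tt, uM_apply, uM_apply, hN k h1, hN' k h2, sgn_zero, one_smul, one_smul,
    e c N hN h1, e c' N' hN' h2]

end model

/-! ### Comultiplications of the form `a ↦ U (a ⊗ 1) U*` -/

section dop

variable {K : Type} [NormedAddCommGroup K] [InnerProductSpace ℂ K] [CompleteSpace K]
  {L : Type} [NormedAddCommGroup L] [InnerProductSpace ℂ L] [CompleteSpace L]
  (U : HT H K ≃ₗᵢ[ℂ] L)

/-- `a ↦ U (a ⊗ 1) U*` -/
def dop (a : H →L[ℂ] H) : L →L[ℂ] L :=
  (U.toContinuousLinearEquiv : HT H K →L[ℂ] L) ∘L (top a 1) ∘L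
    (U.symm.toContinuousLinearEquiv : L →L[ℂ] HT H K)

theorem dop_apply (a : H →L[ℂ] H) (z : L) : dop U a z = U (top a 1 (U.symm z)) := rfl

theorem dop_add (a c : H →L[ℂ] H) : dop U (a + c) = dop U a + dop U c := by
  ext z
  rw [add_apply, dop_apply, dop_apply, dop_apply, top_add_left, add_apply, map_add]

theorem dop_smul (k : ℂ) (a : H →L[ℂ] H) : dop U (k • a) = k • dop U a := by
  ext z
  rw [smul_apply, dop_apply, dop_apply, top_smul_left, smul_apply, map_smul]

theorem dop_mul (a c : H →L[ℂ] H) : dop U (a * c) = dop U a * dop U c := by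
  ext z
  rw [mul_apply_eq_comp, dop_apply, dop_apply, dop_apply, LinearIsometryEquiv.symm_apply_apply,
    ← mul_apply_eq_comp (top a 1), top_mul, mul_one]

theorem dop_one : dop U 1 = 1 := by
  ext z
  rw [dop_apply, top_one]
  exact U.apply_symm_apply z

theorem dop_star (a : H →L[ℂ] H) : star (dop U a) = dop U (star a) := by
  rw [ContinuousLinearMap.star_eq_adjoint]
  symm
  refine (ContinuousLinearMap.eq_adjoint_iff _ _).2 fun z w => ?_
  rw [dop_apply, dop_apply]
  have h1 : star (top a 1 : HT H K →L[ℂ] HT H K) = top (star a) 1 := by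
    rw [top_star, star_one]
  rw [← h1, ContinuousLinearMap.star_eq_adjoint]
  have h2 : inner ℂ (U (ContinuousLinearMap.adjoint (top a 1) (U.symm z))) w =
      inner ℂ (U (ContinuousLinearMap.adjoint (top a 1) (U.symm z))) (U (U.symm w)) := by
    rw [U.apply_symm_apply]
  have h3 : inner ℂ z (U (top a 1 (U.symm w))) =
      inner ℂ (U (U.symm z)) (U (top a 1 (U.symm w))) := by
    rw [U.apply_symm_apply]
  rw [h2, h3, U.inner_map_map, U.inner_map_map, ContinuousLinearMap.adjoint_inner_left]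

theorem norm_dop_le (a : H →L[ℂ] H) : ‖dop U a‖ ≤ ‖a‖ := by
  refine ContinuousLinearMap.opNorm_le_bound _ (norm_nonneg _) fun z => ?_
  rw [dop_apply, U.norm_map]
  refine (ContinuousLinearMap.le_opNorm _ _).trans ?_
  rw [U.symm.norm_map]
  refine mul_le_mul_of_nonneg_right ((norm_top_le _ _).trans ?_) (norm_nonneg _)
  have h7 : ‖(1 : K →L[ℂ] K)‖ ≤ 1 := ContinuousLinearMap.norm_id_le
  exact mul_le_of_le_one_right (norm_nonneg _) h7

theorem isClosed_tendsto {E F ι : Type} [NormedAddCommGroup E] [NormedSpace ℂ E]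
    [NormedAddCommGroup F] [NormedSpace ℂ F] {l : Filter ι} (S : ι → E →L[ℂ] F) (S₀ : E →L[ℂ] F)
    (C : ℝ) (hC : ∀ i, ‖S i‖ ≤ C) : IsClosed {z | Tendsto (fun i => S i z) l (𝓝 (S₀ z))} := by
  refine isClosed_of_closure_subset fun μ hμ => ?_
  rw [Metric.mem_closure_iff] at hμ
  change Tendsto _ _ _
  rw [Metric.tendsto_nhds]
  intro ε hε
  set K := |C| + ‖S₀‖ + 1 with hK
  have hK0 : 0 < K := by positivity
  obtain ⟨ν, hν, hμν⟩ := hμ (ε / (3 * K)) (by positivity)
  have h3 : ∀ᶠ i in l, dist (S i ν) (S₀ ν) < ε / 3 :=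
    (Metric.tendsto_nhds.1 hν) _ (by positivity)
  filter_upwards [h3] with i hi
  rw [dist_eq_norm] at hi hμν ⊢
  have e : S i μ - S₀ μ = S i (μ - ν) + (S i ν - S₀ ν) - S₀ (μ - ν) := by
    rw [map_sub, map_sub]; abel
  have h5 : ‖S i (μ - ν)‖ ≤ |C| * ‖μ - ν‖ :=
    ((S i).le_opNorm _).trans (mul_le_mul_of_nonneg_right
      ((hC i).trans (le_abs_self C)) (norm_nonneg _))
  have h6 : ‖S₀ (μ - ν)‖ ≤ ‖S₀‖ * ‖μ - ν‖ := S₀.le_opNorm _
  have h7 : (|C| + ‖S₀‖) * ‖μ - ν‖ ≤ ε / 3 := by
    have h8 : (|C| + ‖S₀‖) * ‖μ - ν‖ ≤ K * (ε / (3 * K)) :=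
      mul_le_mul (by linarith) hμν.le (norm_nonneg _) hK0.le
    have h9 : K * (ε / (3 * K)) = ε / 3 := by field_simp
    linarith
  rw [e]
  calc _ ≤ ‖S i (μ - ν) + (S i ν - S₀ ν)‖ + ‖S₀ (μ - ν)‖ := norm_sub_le _ _
    _ ≤ ‖S i (μ - ν)‖ + ‖S i ν - S₀ ν‖ + ‖S₀ (μ - ν)‖ := by
        gcongr; exact norm_add_le _ _
    _ < ε := by nlinarith

theorem dop_tendsto {ι : Type} {l : Filter ι} (S : ι → H →L[ℂ] H) (S₀ : H →L[ℂ] H) (C : ℝ)
    (hC : ∀ i, ‖S i‖ ≤ C) (h : ∀ ξ, Tendsto (fun i => S i ξ) l (𝓝 (S₀ ξ))) (z : L) :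
    Tendsto (fun i => dop U (S i) z) l (𝓝 (dop U S₀ z)) := by
  have h1 : ∀ w : HT H K, Tendsto (fun i => top (S i) 1 w) l (𝓝 (top S₀ 1 w)) := by
    intro w
    let W : Submodule ℂ (HT H K) :=
      { carrier := {w | Tendsto (fun i => top (S i) 1 w) l (𝓝 (top S₀ 1 w))}
        add_mem' := fun {a c} ha hc => by
          have h1 : Tendsto (fun i => top (S i) 1 a) l (𝓝 (top S₀ 1 a)) := ha
          have h2 : Tendsto (fun i => top (S i) 1 c) l (𝓝 (top S₀ 1 c)) := hc
          change Tendsto (fun i => top (S i) 1 (a + c)) l (𝓝 (top S₀ 1 (a + c)))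
          simp only [map_add]
          exact h1.add h2
        zero_mem' := by
          change Tendsto (fun i => top (S i) 1 0) l (𝓝 (top S₀ 1 0))
          simp only [map_zero]
          exact tendsto_const_nhds
        smul_mem' := fun k {a} ha => by
          have h1 : Tendsto (fun i => top (S i) 1 a) l (𝓝 (top S₀ 1 a)) := ha
          change Tendsto (fun i => top (S i) 1 (k • a)) l (𝓝 (top S₀ 1 (k • a)))
          simp only [map_smul]
          exact h1.const_smul k }
    have hW : IsClosed (W : Set (HT H K)) :=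
      isClosed_tendsto (fun i => (top (S i) 1 : HT H K →L[ℂ] HT H K)) (top S₀ 1) |C| (fun i => by
        refine (norm_top_le _ _).trans ?_
        have h7 : ‖(1 : K →L[ℂ] K)‖ ≤ 1 := ContinuousLinearMap.norm_id_le
        exact (mul_le_of_le_one_right (norm_nonneg _) h7).trans ((hC i).trans (le_abs_self C)))
    have h4 : (Submodule.span ℂ {z : HT H K | ∃ x y, z = tt x y}).topologicalClosure ≤ W := by
      refine Submodule.topologicalClosure_minimal _ (Submodule.span_le.2 ?_) hW
      rintro _ ⟨x, y, rfl⟩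
      change Tendsto (fun i => top (S i) 1 (tt x y)) l (𝓝 (top S₀ 1 (tt x y)))
      simp only [top_tt]
      exact ((tr ((1 : K →L[ℂ] K) y) : H →L[ℂ] HT H K).continuous.tendsto _).comp (h x)
    rw [Submodule.dense_iff_topologicalClosure_eq_top.1 (dense_span_tt (H := H) (K := K))] at h4
    exact h4 trivial
  exact (U.continuous.tendsto _).comp (h1 (U.symm z))

end dop

section trans

variable {E L : Type} [NormedAddCommGroup E] [InnerProductSpace ℂ E] [NormedAddCommGroup L]
  [InnerProductSpace ℂ L] {Z : Type}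

/-- the unitary between two Hilbert bases -/
def transB (b : HilbertBasis Z ℂ E) (e : HilbertBasis Z ℂ L) : E ≃ₗᵢ[ℂ] L :=
  b.repr.trans e.repr.symm

theorem transB_apply (b : HilbertBasis Z ℂ E) (e : HilbertBasis Z ℂ L) (z : Z) :
    transB b e (b z) = e z := by
  classical
  rw [transB, LinearIsometryEquiv.trans_apply, HilbertBasis.repr_self,
    HilbertBasis.repr_symm_single]

end trans

section UU

variable {K : Type} [NormedAddCommGroup K] [InnerProductSpace ℂ K] [CompleteSpace K]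
  {L : Type} [NormedAddCommGroup L] [InnerProductSpace ℂ L] [CompleteSpace L]
  {X Y : Type} (b : HilbertBasis X ℂ H) (c : HilbertBasis Y ℂ K) (e : HilbertBasis (X × Y) ℂ L)

/-- The unitary between Hilbert spaces with given bases. -/
def UU : HT H K ≃ₗᵢ[ℂ] L := transB (hbt b c) e

theorem UU_apply (x : X) (y : Y) : UU b c e (tt (b x) (c y)) = e (x, y) := by
  have h1 : tt (b x) (c y) = hbt b c (x, y) := (hbt_apply b c (x, y)).symm
  rw [h1]
  exact transB_apply (hbt b c) e (x, y)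

theorem UU_symm_apply (x : X) (y : Y) : (UU b c e).symm (e (x, y)) = tt (b x) (c y) := by
  rw [← UU_apply b c e, LinearIsometryEquiv.symm_apply_apply]

end UU

/-! ### Group-like elements -/

/-- The group of the unitaries `u` with `Δ u = u ⊗ u`. -/
def GLike {K : Type} [NormedAddCommGroup K] [InnerProductSpace ℂ K] [CompleteSpace K]
    (U : HT H K ≃ₗᵢ[ℂ] HT H H) : Subgroup (unitary (H →L[ℂ] H)) where
  carrier := {u | dop U u.1 = top u.1 u.1}
  mul_mem' := fun {u w} hu hw => by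
    change dop U (u.1 * w.1) = top (u.1 * w.1) (u.1 * w.1)
    rw [dop_mul, ← top_mul]
    exact congrArg₂ _ hu hw
  one_mem' := by
    change dop U 1 = top 1 1
    rw [dop_one, top_one]
  inv_mem' := fun {u} hu => by
    change dop U (star u.1) = top (star u.1) (star u.1)
    rw [← dop_star, ← top_star]
    exact congrArg _ hu

section model

variable (b : HilbertBasis (ℤ × P) ℂ H)
  {K : Type} [NormedAddCommGroup K] [InnerProductSpace ℂ K] [CompleteSpace K]
  {Y : Type} (c : HilbertBasis Y ℂ K) (e : HilbertBasis ((ℤ × P) × Y) ℂ (HT H H))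

theorem mem_GLike_of (u : unitary (H →L[ℂ] H)) (σ : ℤ × P → ℤ × P) (s : ℤ × P → ℂ)
    (h1 : ∀ x, u.1 (b x) = s x • b (σ x))
    (h2 : ∀ x y, (hat u).1 (e (x, y)) = s x • e (σ x, y)) : u ∈ GLike (UU b c e) := by
  refine basis_ext e fun p => ?_
  obtain ⟨x, y⟩ := p
  rw [dop_apply, UU_symm_apply, top_tt, h1, tt_smul_left, map_smul]
  change s x • UU b c e (tt (b (σ x)) (c y)) = _
  rw [UU_apply, ← h2]; rfl

/-- The structure theorem. -/
theorem exists_intertwiner : ∃ (K : Type) (_ : NormedAddCommGroup K) (_ : InnerProductSpace ℂ K)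
    (_ : CompleteSpace K) (U : HT H K ≃ₗᵢ[ℂ] HT H H), (∀ v, uT b v ∈ GLike U) ∧ uD b ∈ GLike U ∧
      ∀ k, uM b k ∈ GLike U := by
  have : CompleteSpace (KK (hT b) (hM b)) := isClosed_KK.completeSpace_coe
  obtain ⟨w, c, _⟩ := exists_hilbertBasis ℂ (KK (hT b) (hM b))
  let e : HilbertBasis ((ℤ × P) × w) ℂ (HT H H) :=
    bEv (rel_hat b) (hbt b b) (hat_hN b) (hat_hJ b) (hat_hK b) c
  have he : ∀ x y, e (x, y) = ev (hT b) (hD b) x (c y : HT H H) := fun x y => bEv_apply _ _ _ _ _ _ _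
  let K := lp (fun _ : w => ℂ) 2
  let c' : HilbertBasis w ℂ K := HilbertBasis.ofRepr (LinearIsometryEquiv.refl ℂ K)
  refine ⟨K, inferInstance, inferInstance, inferInstance, UU b c' e, fun v => ?_, ?_, fun k => ?_⟩
  · refine mem_GLike_of b c' e _ (permT v) (fun x => sgn (v x.1))
      (fun x => uT_apply b v x.1 x.2) (fun x y => ?_)
    rw [he, he]
    exact T_ev (rel_hat b) (c y).2.1 v x.1 x.2
  · refine mem_GLike_of b c' e _ permD (fun _ => 1)
      (fun x => (uD_apply b x.1 x.2).trans (one_smul _ _).symm) (fun x y => ?_)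
    rw [he, he, one_smul]
    exact D_ev (rel_hat b) x.1 x.2
  · refine mem_GLike_of b c' e _ (permM k) (fun x => sgn (x.2 k))
      (fun x => uM_apply b k x.1 x.2) (fun x y => ?_)
    rw [he, he]
    exact M_ev (rel_hat b) (c y).2 k x.1 x.2

end model

end Pool.Agent.Lib.MP_43823f_an
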