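import Pool.Agent.Lib.MP_43823f_an.Delta

set_option autoImplicit false
set_option linter.unusedSectionVars false

/-!
# Density of the span of the group
-/

open Filter Topology InnerProductSpace

noncomputable section

namespace Pool.Agent.Lib.MP_43823f_an

variable {H : Type} [NormedAddCommGroup H] [InnerProductSpace ℂ H] [CompleteSpace H]
  (b : HilbertBasis (ℤ × P) ℂ H)

/-- The monoid generated by the `T v`, `D`, its inverse and the `M k`. -/
def Gm : Submonoid (unitary (H →L[ℂ] H)) :=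
  Submonoid.closure (Set.range (uT b) ∪ Set.range (fun n : ℤ => uD b ^ n) ∪ Set.range (uM b))

theorem uT_mem_Gm (v : V) : uT b v ∈ Gm b :=
  Submonoid.subset_closure (Or.inl (Or.inl ⟨v, rfl⟩))

theorem uD_mem_Gm (n : ℤ) : uD b ^ n ∈ Gm b :=
  Submonoid.subset_closure (Or.inl (Or.inr ⟨n, rfl⟩))

theorem uM_mem_Gm (k : ℕ) : uM b k ∈ Gm b :=
  Submonoid.subset_closure (Or.inr ⟨k, rfl⟩)

theorem Gm_le_GLike {K : Type} [NormedAddCommGroup K] [InnerProductSpace ℂ K] [CompleteSpace K]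
    (U : HT H K ≃ₗᵢ[ℂ] HT H H) (h1 : ∀ v, uT b v ∈ GLike U) (h2 : uD b ∈ GLike U)
    (h3 : ∀ k, uM b k ∈ GLike U) {u : unitary (H →L[ℂ] H)} (hu : u ∈ Gm b) : u ∈ GLike U := by
  have h : Gm b ≤ (GLike U).toSubmonoid := by
    refine Submonoid.closure_le.2 ?_
    rintro w ((⟨v, rfl⟩ | ⟨n, rfl⟩) | ⟨k, rfl⟩)
    · exact h1 v
    · exact Subgroup.zpow_mem _ h2 n
    · exact h3 k
  exact h hu

/-- products of the `M k` -/
def Mm : Submonoid (unitary (H →L[ℂ] H)) := Submonoid.closure (Set.range (uM b))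

theorem Mm_T {m : unitary (H →L[ℂ] H)} (hm : m ∈ Mm b) (v : V) :
    ∃ w, m * uT b v = uT b w * m := by
  induction hm using Submonoid.closure_induction generalizing v with
  | mem x hx =>
    obtain ⟨k, rfl⟩ := hx
    exact ⟨_, (rel_model b).M_T k v⟩
  | one => exact ⟨v, by rw [one_mul, mul_one]⟩
  | mul x y _ _ hx hy =>
    obtain ⟨w, hw⟩ := hy v
    obtain ⟨w', hw'⟩ := hx w
    exact ⟨w', by rw [mul_assoc, hw, ← mul_assoc, hw', mul_assoc]⟩

theorem Mm_D {m : unitary (H →L[ℂ] H)} (hm : m ∈ Mm b) (n : ℤ) :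
    m * uD b ^ n = uD b ^ n * m := by
  induction hm using Submonoid.closure_induction with
  | mem x hx =>
    obtain ⟨k, rfl⟩ := hx
    exact (rel_model b).M_Dpow k n
  | one => rw [one_mul, mul_one]
  | mul x y _ _ hx hy =>
    rw [mul_assoc, hy, ← mul_assoc, hx, mul_assoc]

theorem Mm_apply {m : unitary (H →L[ℂ] H)} (hm : m ∈ Mm b) (n : ℤ) :
    m.1 (b (n, 0)) = b (n, 0) := by
  induction hm using Submonoid.closure_induction with
  | mem x hx =>
    obtain ⟨k, rfl⟩ := hx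
    rw [uM_apply, mk', map_zero, add_zero, Finsupp.zero_apply, sgn_zero, one_smul]
  | one => rfl
  | mul x y _ _ hx hy =>
    rw [← u_mul, hy, hx]

theorem Gm_normal {u : unitary (H →L[ℂ] H)} (hu : u ∈ Gm b) :
    ∃ (v : V) (n : ℤ), ∃ m ∈ Mm b, u = uT b v * uD b ^ n * m := by
  have hR := rel_model b
  induction hu using Submonoid.closure_induction with
  | mem x hx =>
    rcases hx with (⟨v, rfl⟩ | ⟨n, rfl⟩) | ⟨k, rfl⟩
    · exact ⟨v, 0, 1, one_mem _, by rw [zpow_zero, mul_one, mul_one]⟩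
    · exact ⟨0, n, 1, one_mem _, by rw [hR.T_zero, one_mul, mul_one]⟩
    · exact ⟨0, 0, uM b k, Submonoid.subset_closure ⟨k, rfl⟩, by
        rw [hR.T_zero, zpow_zero, one_mul, one_mul]⟩
  | one => exact ⟨0, 0, 1, one_mem _, by rw [hR.T_zero, zpow_zero, one_mul, one_mul]⟩
  | mul x y _ _ hx hy =>
    obtain ⟨v, n, m, hm, rfl⟩ := hx
    obtain ⟨v', n', m', hm', rfl⟩ := hy
    obtain ⟨w, hw⟩ := Mm_T b hm v'
    refine ⟨v + sh n w, n + n', m * m', mul_mem hm hm', ?_⟩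
    have e1 : uT b v * uD b ^ n * m * (uT b v' * uD b ^ n' * m') =
        uT b v * (uD b ^ n * (m * uT b v')) * uD b ^ n' * m' := by
      simp only [mul_assoc]
    rw [e1, hw, ← mul_assoc (uD b ^ n), hR.Dpow_T, hR.T_add, zpow_add]
    have e2 : uT b v * (uT b (sh n w) * uD b ^ n * m) * uD b ^ n' * m' =
        uT b v * uT b (sh n w) * uD b ^ n * (m * uD b ^ n') * m' := by
      simp only [mul_assoc]
    rw [e2, Mm_D b hm]
    simp only [mul_assoc]

/-! ### Approximating the projection onto a basis vector -/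

/-- `(1 + u) / 2` -/
def half (u : unitary (H →L[ℂ] H)) : H →L[ℂ] H := (1 / 2 : ℂ) • (1 + u.1)

theorem half_apply (u : unitary (H →L[ℂ] H)) (ξ : H) :
    half u ξ = (1 / 2 : ℂ) • (ξ + u.1 ξ) := rfl

theorem half_apply_of_eq (u : unitary (H →L[ℂ] H)) (ξ : H) (h : u.1 ξ = ξ) :
    half u ξ = ξ := by
  rw [half_apply, h, ← two_smul ℂ ξ, smul_smul]; norm_num

theorem half_apply_of_neg (u : unitary (H →L[ℂ] H)) (ξ : H) (h : u.1 ξ = -ξ) :
    half u ξ = 0 := by
  rw [half_apply, h, add_neg_cancel, smul_zero]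

theorem norm_unitary_le (u : unitary (H →L[ℂ] H)) : ‖u.1‖ ≤ 1 := by
  refine ContinuousLinearMap.opNorm_le_bound _ zero_le_one fun ξ => ?_
  have h := u_inner u ξ ξ
  rw [inner_self_eq_norm_sq_to_K, inner_self_eq_norm_sq_to_K] at h
  have h2 : ‖u.1 ξ‖ ^ 2 = ‖ξ‖ ^ 2 := by exact_mod_cast h
  rw [one_mul]
  nlinarith [norm_nonneg (u.1 ξ), norm_nonneg ξ]

theorem norm_half_le (u : unitary (H →L[ℂ] H)) : ‖half u‖ ≤ 1 := by
  rw [half, norm_smul]
  have h1 : ‖(1 : H →L[ℂ] H)‖ ≤ 1 := ContinuousLinearMap.norm_id_le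
  have h2 : ‖(1 : H →L[ℂ] H) + u.1‖ ≤ 2 :=
    (norm_add_le _ _).trans (by linarith [norm_unitary_le u])
  have h3 : ‖(1 / 2 : ℂ)‖ = 1 / 2 := by norm_num
  rw [h3]; linarith

theorem half_star (u : unitary (H →L[ℂ] H)) : star (half u) = half u⁻¹ := by
  rw [half, star_smul, star_add, star_one, half]
  congr 1
  rw [Complex.star_def, map_div₀, map_one, map_ofNat]

theorem half_commute (u w : unitary (H →L[ℂ] H)) (h : u * w = w * u) :
    half u * half w = half w * half u := by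
  have h' : u.1 * w.1 = w.1 * u.1 := congrArg Subtype.val h
  rw [half, half]
  simp only [smul_mul_smul_comm, mul_add, add_mul, mul_one, one_mul, h']
  congr 1
  abel

/-- the products of the `(1 + M k) / 2` -/
def Ym : ℕ → H →L[ℂ] H
  | 0 => 1
  | (m + 1) => Ym m * half (uM b m)

/-- the products of the `(1 + M k⁻¹) / 2` -/
def Ym' : ℕ → H →L[ℂ] H
  | 0 => 1
  | (m + 1) => Ym' m * half (uM b m)⁻¹

/-- the products of the `(1 + T (t^j)) / 2` -/
def Xm : ℕ → H →L[ℂ] H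
  | 0 => 1 - half (uT b (mon 0))
  | (m + 1) => Xm m * half (uT b (mon (m + 1)))

theorem Ym_commute (m k : ℕ) : Ym b m * half (uM b k) = half (uM b k) * Ym b m := by
  induction m with
  | zero => rw [Ym, one_mul, mul_one]
  | succ m ih =>
    rw [Ym, mul_assoc, half_commute _ _ ((rel_model b).M_comm m k), ← mul_assoc, ih, mul_assoc]

theorem Ym_star (m : ℕ) : star (Ym b m) = Ym' b m := by
  induction m with
  | zero => rw [Ym, Ym', star_one]
  | succ m ih => rw [Ym, Ym_commute, star_mul, half_star, ih, Ym']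

theorem Xm_commute (m : ℕ) (v : V) : Xm b m * half (uT b v) = half (uT b v) * Xm b m := by
  induction m with
  | zero => rw [Xm, sub_mul, mul_sub, half_commute _ _ ((rel_model b).T_comm _ _), one_mul, mul_one]
  | succ m ih =>
    rw [Xm, mul_assoc, half_commute _ _ ((rel_model b).T_comm _ _), ← mul_assoc, ih, mul_assoc]

theorem Xm_star (m : ℕ) : star (Xm b m) = Xm b m := by
  induction m with
  | zero => rw [Xm, star_sub, star_one, half_star, (rel_model b).T_inv]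
  | succ m ih => rw [Xm, Xm_commute, star_mul, half_star, (rel_model b).T_inv, ih, Xm_commute]

theorem norm_Ym_le (m : ℕ) : ‖Ym b m‖ ≤ 1 := by
  induction m with
  | zero => exact ContinuousLinearMap.norm_id_le
  | succ m ih =>
    exact (norm_mul_le _ _).trans (mul_le_one₀ ih (norm_nonneg (half (uM b m))) (norm_half_le _))

theorem norm_Xm_le (m : ℕ) : ‖Xm b m‖ ≤ 1 := by
  induction m with
  | zero =>
    have e : (Xm b 0 : H →L[ℂ] H) = (1 / 2 : ℂ) • (1 - (uT b (mon 0)).1) := by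
      ext ξ
      rw [Xm, sub_apply, half_apply, smul_apply, sub_apply]
      simp only [one_apply_eq_self]
      module
    rw [e, norm_smul]
    have h1 : ‖(1 : H →L[ℂ] H)‖ ≤ 1 := ContinuousLinearMap.norm_id_le
    have h2 : ‖(1 : H →L[ℂ] H) - (uT b (mon 0)).1‖ ≤ 2 :=
      (norm_sub_le _ _).trans (by linarith [norm_unitary_le (uT b (mon 0))])
    have h3 : ‖(1 / 2 : ℂ)‖ = 1 / 2 := by norm_num
    rw [h3]; linarith
  | succ m ih =>
    exact (norm_mul_le _ _).trans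
      (mul_le_one₀ ih (norm_nonneg (half (uT b (mon (m + 1))))) (norm_half_le _))

theorem uM_eq {c : P} {B : ℕ} (hB : ∀ i, B ≤ i → c i = 0) (k : ℕ) (hk : B ≤ k) (n : ℤ) :
    (uM b k).1 (b (n, c)) = b (n, c) := by
  have h1 : mk' k c = c := by
    have : shp (k + 1) c = 0 := by
      ext i; rw [shp_apply]; exact hB _ (by omega)
    rw [mk', this, add_zero]
  rw [uM_apply, hB k hk, sgn_zero, one_smul, h1]

theorem uM_neg {c : P} {d : ℕ} (hd : c d = 1) (hB : ∀ i, d < i → c i = 0) (n : ℤ) :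
    (uM b d).1 (b (n, c)) = -b (n, c) := by
  have h1 : mk' d c = c := by
    have : shp (d + 1) c = 0 := by
      ext i; rw [shp_apply]; exact hB _ (by omega)
    rw [mk', this, add_zero]
  rw [uM_apply, hd, sgn_one, neg_one_smul, h1]

theorem inv_eq_of_eq {u : unitary (H →L[ℂ] H)} {ξ : H} (h : u.1 ξ = ξ) : (u⁻¹).1 ξ = ξ := by
  conv_lhs => rw [← h]
  exact u_inv u ξ

theorem inv_neg_of_neg {u : unitary (H →L[ℂ] H)} {ξ : H} (h : u.1 ξ = -ξ) :
    (u⁻¹).1 ξ = -ξ := by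
  have h1 : ξ = -(u.1 ξ) := by rw [h, neg_neg]
  conv_lhs => rw [h1]
  rw [map_neg, u_inv]

theorem exists_top {c : P} (hc : c ≠ 0) : ∃ d, c d = 1 ∧ ∀ j, d < j → c j = 0 := by
  have hne : c.support.Nonempty := Finsupp.support_nonempty_iff.2 hc
  refine ⟨c.support.max' hne, ?_, fun j hj => ?_⟩
  · exact (zmod2 _).resolve_left (Finsupp.mem_support_iff.1 (Finset.max'_mem _ _))
  · by_contra h
    have := Finset.le_max' _ j (Finsupp.mem_support_iff.2 h)
    omega

theorem Ym_zero (m : ℕ) (n : ℤ) : Ym b m (b (n, 0)) = b (n, 0) := by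
  induction m with
  | zero => rfl
  | succ m ih =>
    rw [Ym, mul_apply_eq_comp, half_apply_of_eq _ _ (uM_eq b (B := 0) (fun _ _ => rfl) m
      (Nat.zero_le _) n), ih]

theorem Ym'_zero (m : ℕ) (n : ℤ) : Ym' b m (b (n, 0)) = b (n, 0) := by
  induction m with
  | zero => rfl
  | succ m ih =>
    rw [Ym', mul_apply_eq_comp, half_apply_of_eq _ _ (inv_eq_of_eq (uM_eq b (B := 0)
      (fun _ _ => rfl) m (Nat.zero_le _) n)), ih]

theorem Ym_ne {c : P} (hc : c ≠ 0) (n : ℤ) : ∃ N, ∀ m, N ≤ m → Ym b m (b (n, c)) = 0 := by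
  obtain ⟨d, hd, hd'⟩ := exists_top hc
  refine ⟨d + 1, fun m hm => ?_⟩
  induction m, hm using Nat.le_induction with
  | base => rw [Ym, mul_apply_eq_comp, half_apply_of_neg _ _ (uM_neg b hd hd' n), map_zero]
  | succ m hm ih =>
    rw [Ym, mul_apply_eq_comp, half_apply_of_eq _ _ (uM_eq b (B := d + 1) (fun i hi => hd' i hi) m
      hm n), ih]

theorem Ym'_ne {c : P} (hc : c ≠ 0) (n : ℤ) : ∃ N, ∀ m, N ≤ m → Ym' b m (b (n, c)) = 0 := by
  obtain ⟨d, hd, hd'⟩ := exists_top hc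
  refine ⟨d + 1, fun m hm => ?_⟩
  induction m, hm using Nat.le_induction with
  | base =>
    rw [Ym', mul_apply_eq_comp, half_apply_of_neg _ _ (inv_neg_of_neg (uM_neg b hd hd' n)), map_zero]
  | succ m hm ih =>
    rw [Ym', mul_apply_eq_comp, half_apply_of_eq _ _ (inv_eq_of_eq (uM_eq b (B := d + 1)
      (fun i hi => hd' i hi) m hm n)), ih]

theorem uT_mon_eq {j n : ℤ} (h : n < j) (c : P) : (uT b (mon j)).1 (b (n, c)) = b (n, c) := by
  rw [uT_apply, mon_of_ne (by omega), sgn_zero, one_smul, red_mon_of_le h.le, add_zero]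

theorem uT_mon_neg (n : ℤ) (c : P) : (uT b (mon n)).1 (b (n, c)) = -b (n, c) := by
  rw [uT_apply, mon_self, sgn_one, neg_one_smul, red_mon_of_le le_rfl, add_zero]

theorem Xm_zero (m : ℕ) (c : P) : Xm b m (b (0, c)) = b (0, c) := by
  induction m with
  | zero => rw [Xm, sub_apply, half_apply_of_neg _ _ (uT_mon_neg b 0 c), sub_zero]; rfl
  | succ m ih => rw [Xm, mul_apply_eq_comp, half_apply_of_eq _ _ (uT_mon_eq b (by positivity) c), ih]

theorem Xm_ne {n : ℤ} (hn : n ≠ 0) (c : P) : ∃ N, ∀ m, N ≤ m → Xm b m (b (n, c)) = 0 := by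
  rcases lt_or_gt_of_ne hn with h | h
  · refine ⟨0, fun m _ => ?_⟩
    induction m with
    | zero => rw [Xm, sub_apply, half_apply_of_eq _ _ (uT_mon_eq b h c)]; exact sub_self _
    | succ m ih =>
      rw [Xm, mul_apply_eq_comp, half_apply_of_eq _ _ (uT_mon_eq b (by omega) c)]
      exact ih (Nat.zero_le _)
  · obtain ⟨N, rfl⟩ : ∃ N : ℕ, n = N + 1 := ⟨(n - 1).toNat, by omega⟩
    refine ⟨N + 1, fun m hm => ?_⟩
    induction m, hm using Nat.le_induction with
    | base => rw [Xm, mul_apply_eq_comp, half_apply_of_neg _ _ (uT_mon_neg b _ c), map_zero]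
    | succ m hm ih =>
      rw [Xm, mul_apply_eq_comp, half_apply_of_eq _ _ (uT_mon_eq b (by omega) c), ih]

/-- the projection onto the basis vector `(0, 0)` -/
def p0 : H →L[ℂ] H := rankOne ℂ (b (0, 0)) (b (0, 0))

theorem p0_self : p0 b (b (0, 0)) = b (0, 0) := by
  rw [p0, rankOne_apply, inner_self_eq_norm_sq_to_K, b.orthonormal.1]; simp

theorem p0_ne {x : ℤ × P} (hx : x ≠ (0, 0)) : p0 b (b x) = 0 := by
  rw [p0, rankOne_apply, b.orthonormal.2 (Ne.symm hx), zero_smul]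

theorem Zm_eventually (x : ℤ × P) :
    ∃ N, ∀ m, N ≤ m → (Ym b m * Xm b m) (b x) = p0 b (b x) := by
  obtain ⟨n, c⟩ := x
  by_cases hn : n = 0
  · subst hn
    by_cases hc : c = 0
    · subst hc
      exact ⟨0, fun m _ => by rw [mul_apply_eq_comp, Xm_zero, Ym_zero, p0_self]⟩
    · obtain ⟨N, hN⟩ := Ym_ne b hc 0
      exact ⟨N, fun m hm => by
        rw [mul_apply_eq_comp, Xm_zero, hN m hm, p0_ne b (fun h => hc (congrArg Prod.snd h))]⟩
  · obtain ⟨N, hN⟩ := Xm_ne b hn c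
    exact ⟨N, fun m hm => by
      rw [mul_apply_eq_comp, hN m hm, map_zero, p0_ne b (fun h => hn (congrArg Prod.fst h))]⟩

theorem Zm'_eventually (x : ℤ × P) :
    ∃ N, ∀ m, N ≤ m → (Xm b m * Ym' b m) (b x) = p0 b (b x) := by
  obtain ⟨n, c⟩ := x
  by_cases hc : c = 0
  · subst hc
    by_cases hn : n = 0
    · subst hn
      exact ⟨0, fun m _ => by rw [mul_apply_eq_comp, Ym'_zero, Xm_zero, p0_self]⟩
    · obtain ⟨N, hN⟩ := Xm_ne b hn 0
      exact ⟨N, fun m hm => by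
        rw [mul_apply_eq_comp, Ym'_zero, hN m hm, p0_ne b (fun h => hn (congrArg Prod.fst h))]⟩
  · obtain ⟨N, hN⟩ := Ym'_ne b hc n
    exact ⟨N, fun m hm => by
      rw [mul_apply_eq_comp, hN m hm, map_zero, p0_ne b (fun h => hc (congrArg Prod.snd h))]⟩

theorem tendsto_of_basis {ι : Type} {l : Filter ι} {X E : Type} [NormedAddCommGroup E]
    [InnerProductSpace ℂ E] (b : HilbertBasis X ℂ E) (S : ι → E →L[ℂ] E) (S₀ : E →L[ℂ] E)
    (C : ℝ) (hC : ∀ i, ‖S i‖ ≤ C) (h : ∀ x, Tendsto (fun i => S i (b x)) l (𝓝 (S₀ (b x)))) (ξ : E) :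
    Tendsto (fun i => S i ξ) l (𝓝 (S₀ ξ)) := by
  let W : Submodule ℂ E :=
    { carrier := {w | Tendsto (fun i => S i w) l (𝓝 (S₀ w))}
      add_mem' := fun {a c} ha hc => by
        have h1 : Tendsto (fun i => S i a) l (𝓝 (S₀ a)) := ha
        have h2 : Tendsto (fun i => S i c) l (𝓝 (S₀ c)) := hc
        change Tendsto (fun i => S i (a + c)) l (𝓝 (S₀ (a + c)))
        simp only [map_add]
        exact h1.add h2
      zero_mem' := by
        change Tendsto (fun i => S i 0) l (𝓝 (S₀ 0))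
        simp only [map_zero]
        exact tendsto_const_nhds
      smul_mem' := fun k {a} ha => by
        have h1 : Tendsto (fun i => S i a) l (𝓝 (S₀ a)) := ha
        change Tendsto (fun i => S i (k • a)) l (𝓝 (S₀ (k • a)))
        simp only [map_smul]
        exact h1.const_smul k }
  exact HilbertBasis_induction b W (isClosed_tendsto S S₀ C hC) h ξ

theorem norm_Ym'_le (m : ℕ) : ‖Ym' b m‖ ≤ 1 := by
  rw [← Ym_star, norm_star]; exact norm_Ym_le b m

theorem Zm_tendsto (ξ : H) :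
    Tendsto (fun m => (Ym b m * Xm b m) ξ) atTop (𝓝 (p0 b ξ)) := by
  refine tendsto_of_basis b _ _ 1 (fun m => ?_) (fun x => ?_) ξ
  · exact (norm_mul_le _ _).trans (mul_le_one₀ (norm_Ym_le b m) (norm_nonneg _) (norm_Xm_le b m))
  · obtain ⟨N, hN⟩ := Zm_eventually b x
    exact tendsto_const_nhds.congr' (by
      filter_upwards [eventually_ge_atTop N] with m hm
      exact (hN m hm).symm)

theorem Zm'_tendsto (ξ : H) :
    Tendsto (fun m => (star (Ym b m * Xm b m)) ξ) atTop (𝓝 (p0 b ξ)) := by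
  have e : ∀ m, star (Ym b m * Xm b m) = Xm b m * Ym' b m := fun m => by
    rw [star_mul, Ym_star, Xm_star]
  simp only [e]
  refine tendsto_of_basis b _ _ 1 (fun m => ?_) (fun x => ?_) ξ
  · exact (norm_mul_le _ _).trans (mul_le_one₀ (norm_Xm_le b m) (norm_nonneg _) (norm_Ym'_le b m))
  · obtain ⟨N, hN⟩ := Zm'_eventually b x
    exact tendsto_const_nhds.congr' (by
      filter_upwards [eventually_ge_atTop N] with m hm
      exact (hN m hm).symm)

/-- The linear span of the monoid. -/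
def Sp : Submodule ℂ (H →L[ℂ] H) := Submodule.span ℂ (Subtype.val '' (Gm b : Set (unitary (H →L[ℂ] H))))

theorem mem_Sp {u : unitary (H →L[ℂ] H)} (hu : u ∈ Gm b) : u.1 ∈ Sp b :=
  Submodule.subset_span ⟨u, hu, rfl⟩

theorem Sp_mul {x y : H →L[ℂ] H} (hx : x ∈ Sp b) (hy : y ∈ Sp b) : x * y ∈ Sp b := by
  have h := Submodule.mul_mem_mul hx hy
  rw [Sp, Submodule.span_mul_span] at h
  refine Submodule.span_mono ?_ h
  rintro _ ⟨_, ⟨u, hu, rfl⟩, _, ⟨w, hw, rfl⟩, rfl⟩
  exact ⟨u * w, mul_mem hu hw, rfl⟩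

theorem one_mem_Sp : (1 : H →L[ℂ] H) ∈ Sp b := mem_Sp b (one_mem (Gm b))

theorem half_mem {u : unitary (H →L[ℂ] H)} (hu : u ∈ Gm b) : half u ∈ Sp b :=
  (Sp b).smul_mem _ ((Sp b).add_mem (one_mem_Sp b) (mem_Sp b hu))

theorem Ym_mem (m : ℕ) : Ym b m ∈ Sp b := by
  induction m with
  | zero => exact one_mem_Sp b
  | succ m ih => exact Sp_mul b ih (half_mem b (uM_mem_Gm b m))

theorem Xm_mem (m : ℕ) : Xm b m ∈ Sp b := by
  induction m with
  | zero => exact (Sp b).sub_mem (one_mem_Sp b) (half_mem b (uT_mem_Gm b _))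
  | succ m ih => exact Sp_mul b ih (half_mem b (uT_mem_Gm b _))

theorem gx_mem (x : ℤ × P) : gx b x ∈ Gm b := mul_mem (uT_mem_Gm b _) (uD_mem_Gm b _)

theorem gx_inv_mem (x : ℤ × P) : (gx b x)⁻¹ ∈ Gm b := by
  rw [gx, mul_inv_rev, (rel_model b).T_inv, ← zpow_neg]
  exact mul_mem (uD_mem_Gm b _) (uT_mem_Gm b _)

/-- approximations of the matrix units -/
def Zx (x x' : ℤ × P) (m : ℕ) : H →L[ℂ] H :=
  (gx b x).1 * (Ym b m * Xm b m) * ((gx b x')⁻¹).1

theorem Zx_mem (x x' : ℤ × P) (m : ℕ) : Zx b x x' m ∈ Sp b :=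
  Sp_mul b (Sp_mul b (mem_Sp b (gx_mem b x)) (Sp_mul b (Ym_mem b m) (Xm_mem b m)))
    (mem_Sp b (gx_inv_mem b x'))

theorem norm_Zx_le (x x' : ℤ × P) (m : ℕ) : ‖Zx b x x' m‖ ≤ 1 := by
  refine (norm_mul_le _ _).trans (mul_le_one₀ ?_ (norm_nonneg _) (norm_unitary_le _))
  refine (norm_mul_le _ _).trans (mul_le_one₀ (norm_unitary_le _) (norm_nonneg _) ?_)
  exact (norm_mul_le _ _).trans (mul_le_one₀ (norm_Ym_le b m) (norm_nonneg _) (norm_Xm_le b m))

theorem rankOne_eq (x x' : ℤ × P) :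
    (rankOne ℂ (b x) (b x') : H →L[ℂ] H) = (gx b x).1 * p0 b * ((gx b x')⁻¹).1 := by
  ext ξ
  rw [rankOne_apply, mul_apply_eq_comp, mul_apply_eq_comp, p0, rankOne_apply, map_smul, gx_apply,
    ← u_inner_left, gx_apply]

theorem Zx_tendsto (x x' : ℤ × P) (ξ : H) :
    Tendsto (fun m => Zx b x x' m ξ) atTop (𝓝 ((rankOne ℂ (b x) (b x') : H →L[ℂ] H) ξ)) := by
  rw [rankOne_eq, mul_apply_eq_comp, mul_apply_eq_comp]
  exact ((gx b x).1.continuous.tendsto _).comp (Zm_tendsto b _)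

theorem Zx'_tendsto (x x' : ℤ × P) (ξ : H) :
    Tendsto (fun m => (star (Zx b x x' m)) ξ) atTop
      (𝓝 ((star (rankOne ℂ (b x) (b x') : H →L[ℂ] H)) ξ)) := by
  have e1 : star (rankOne ℂ (b x) (b x') : H →L[ℂ] H) =
      (rankOne ℂ (b x') (b x) : H →L[ℂ] H) := by
    rw [ContinuousLinearMap.star_eq_adjoint, adjoint_rankOne]
  have e2 : ∀ m, star (Zx b x x' m) = (gx b x').1 * star (Ym b m * Xm b m) * ((gx b x)⁻¹).1 := by
    intro m
    rw [Zx, star_mul, star_mul, ← mul_assoc]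
    congr 2
    exact congrArg Subtype.val (inv_inv (gx b x'))
  rw [e1, rankOne_eq, mul_apply_eq_comp, mul_apply_eq_comp]
  simp only [e2, mul_apply_eq_comp]
  exact ((gx b x').1.continuous.tendsto _).comp (Zm'_tendsto b _)

end Pool.Agent.Lib.MP_43823f_an
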