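import Pool.Agent.Lib.MP_43823f_an.KHDual

set_option autoImplicit false
set_option linter.unusedSectionVars false

/-!
# Hilbert space tensor products
-/

open Filter Topology InnerProductSpace
open scoped TensorProduct

noncomputable section

namespace Pool.Agent.Lib.MP_43823f_an

variable {H : Type} [NormedAddCommGroup H] [InnerProductSpace ℂ H] [CompleteSpace H]
  {K : Type} [NormedAddCommGroup K] [InnerProductSpace ℂ K] [CompleteSpace K]
  {X Y : Type}

/-- The Hilbert space tensor product. -/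
abbrev HT (H K : Type) [NormedAddCommGroup H] [InnerProductSpace ℂ H] [NormedAddCommGroup K]
    [InnerProductSpace ℂ K] : Type := UniformSpace.Completion (H ⊗[ℂ] K)

/-- The elementary tensor. -/
def tt (x : H) (y : K) : HT H K := ((x ⊗ₜ[ℂ] y : H ⊗[ℂ] K) : HT H K)

theorem inner_tt (x x' : H) (y y' : K) :
    inner ℂ (tt x y) (tt x' y') = inner ℂ x x' * inner ℂ y y' := by
  rw [tt, tt, UniformSpace.Completion.inner_coe, TensorProduct.inner_tmul]

theorem norm_tt (x : H) (y : K) : ‖tt x y‖ = ‖x‖ * ‖y‖ := by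
  rw [tt, UniformSpace.Completion.norm_coe, TensorProduct.norm_tmul]

theorem tt_add_left (x x' : H) (y : K) : tt (x + x') y = tt x y + tt x' y := by
  rw [tt, TensorProduct.add_tmul, UniformSpace.Completion.coe_add]; rfl

theorem tt_add_right (x : H) (y y' : K) : tt x (y + y') = tt x y + tt x y' := by
  rw [tt, TensorProduct.tmul_add, UniformSpace.Completion.coe_add]; rfl

theorem tt_smul_left (c : ℂ) (x : H) (y : K) : tt (c • x) y = c • tt x y := by
  rw [tt, ← TensorProduct.smul_tmul', UniformSpace.Completion.coe_smul]; rfl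

theorem tt_smul_right (c : ℂ) (x : H) (y : K) : tt x (c • y) = c • tt x y := by
  rw [tt, TensorProduct.tmul_smul, UniformSpace.Completion.coe_smul]; rfl

/-- `ζ ↦ ξ ⊗ ζ` -/
def tl (ξ : H) : K →L[ℂ] HT H K :=
  LinearMap.mkContinuous { toFun := fun ζ => tt ξ ζ, map_add' := tt_add_right ξ,
                           map_smul' := fun c y => tt_smul_right c ξ y } ‖ξ‖
    (fun y => (norm_tt ξ y).le)

theorem tl_apply (ξ : H) (ζ : K) : tl ξ ζ = tt ξ ζ := rfl

theorem norm_tl_le (ξ : H) : ‖(tl ξ : K →L[ℂ] HT H K)‖ ≤ ‖ξ‖ :=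
  ContinuousLinearMap.opNorm_le_bound _ (norm_nonneg _) fun y => (norm_tt ξ y).le

/-- `ζ ↦ ζ ⊗ ξ` -/
def tr (ξ : K) : H →L[ℂ] HT H K :=
  LinearMap.mkContinuous { toFun := fun ζ => tt ζ ξ, map_add' := fun x y => tt_add_left x y ξ,
                           map_smul' := fun c y => tt_smul_left c y ξ } ‖ξ‖
    (fun y => (norm_tt y ξ).trans_le (le_of_eq (mul_comm _ _)))

theorem tr_apply (ξ : K) (ζ : H) : tr ξ ζ = tt ζ ξ := rfl

theorem dense_span_tt : Dense (Submodule.span ℂ {z : HT H K | ∃ x y, z = tt x y} : Set (HT H K)) := by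
  have h1 : DenseRange ((↑) : (H ⊗[ℂ] K) → HT H K) := UniformSpace.Completion.denseRange_coe
  refine h1.mono ?_
  rintro _ ⟨z, rfl⟩
  induction z using TensorProduct.induction_on with
  | zero => rw [UniformSpace.Completion.coe_zero]; exact Submodule.zero_mem _
  | tmul x y => exact Submodule.subset_span ⟨x, y, rfl⟩
  | add z w hz hw => rw [UniformSpace.Completion.coe_add]; exact Submodule.add_mem _ hz hw

theorem ht_ext {E : Type} [NormedAddCommGroup E] [NormedSpace ℂ E] {S T : HT H K →L[ℂ] E}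
    (h : ∀ x y, S (tt x y) = T (tt x y)) : S = T := by
  refine ContinuousLinearMap.ext_on dense_span_tt ?_
  rintro _ ⟨x, y, rfl⟩
  exact h x y

theorem denseRange_toComplL : DenseRange (UniformSpace.Completion.toComplL :
    (H ⊗[ℂ] K) →L[ℂ] HT H K) := UniformSpace.Completion.denseRange_coe

/-- The operator `a ⊗ c`. -/
def top (a : H →L[ℂ] H) (c : K →L[ℂ] K) : HT H K →L[ℂ] HT H K :=
  ((UniformSpace.Completion.toComplL : (H ⊗[ℂ] K) →L[ℂ] HT H K) ∘L
    (TensorProduct.mapL a c)).extend
    (UniformSpace.Completion.toComplL : (H ⊗[ℂ] K) →L[ℂ] HT H K)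

theorem top_tt (a : H →L[ℂ] H) (c : K →L[ℂ] K) (x : H) (y : K) :
    top a c (tt x y) = tt (a x) (c y) := by
  rw [top]
  exact ContinuousLinearMap.extend_eq _ denseRange_toComplL
    (UniformSpace.Completion.isUniformInducing_coe _) (x ⊗ₜ[ℂ] y)

theorem norm_top_le (a : H →L[ℂ] H) (c : K →L[ℂ] K) : ‖top a c‖ ≤ ‖a‖ * ‖c‖ := by
  have h := ContinuousLinearMap.opNorm_extend_le (N := 1)
    ((UniformSpace.Completion.toComplL : (H ⊗[ℂ] K) →L[ℂ] HT H K) ∘L
    (TensorProduct.mapL a c)) (e := (UniformSpace.Completion.toComplL : (H ⊗[ℂ] K) →L[ℂ] HT H K))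
    denseRange_toComplL (fun x => by simp)
  rw [NNReal.coe_one, one_mul] at h
  refine h.trans ?_
  refine ContinuousLinearMap.opNorm_le_bound _ (by positivity) fun z => ?_
  rw [ContinuousLinearMap.comp_apply]
  change ‖((TensorProduct.mapL a c z : H ⊗[ℂ] K) : HT H K)‖ ≤ _
  rw [UniformSpace.Completion.norm_coe]
  exact ((TensorProduct.mapL a c).le_opNorm z).trans
    (mul_le_mul_of_nonneg_right (TensorProduct.norm_mapL_le a c) (norm_nonneg _))

theorem top_mul (a a' : H →L[ℂ] H) (c c' : K →L[ℂ] K) :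
    top a c * top a' c' = top (a * a') (c * c') :=
  ht_ext fun x y => by
    rw [mul_apply_eq_comp, top_tt, top_tt, top_tt]; rfl

theorem top_one : top (1 : H →L[ℂ] H) (1 : K →L[ℂ] K) = 1 :=
  ht_ext fun x y => by rw [top_tt]; rfl

theorem top_add_left (a a' : H →L[ℂ] H) (c : K →L[ℂ] K) :
    top (a + a') c = top a c + top a' c :=
  ht_ext fun x y => by
    rw [add_apply, top_tt, top_tt, top_tt, add_apply, tt_add_left]

theorem top_smul_left (k : ℂ) (a : H →L[ℂ] H) (c : K →L[ℂ] K) :
    top (k • a) c = k • top a c :=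
  ht_ext fun x y => by
    rw [smul_apply, top_tt, top_tt, smul_apply, tt_smul_left]

theorem top_add_right (a : H →L[ℂ] H) (c c' : K →L[ℂ] K) :
    top a (c + c') = top a c + top a c' :=
  ht_ext fun x y => by
    rw [add_apply, top_tt, top_tt, top_tt, add_apply, tt_add_right]

theorem top_smul_right (k : ℂ) (a : H →L[ℂ] H) (c : K →L[ℂ] K) :
    top a (k • c) = k • top a c :=
  ht_ext fun x y => by
    rw [smul_apply, top_tt, top_tt, smul_apply, tt_smul_right]

theorem top_star (a : H →L[ℂ] H) (c : K →L[ℂ] K) : star (top a c) = top (star a) (star c) := by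
  rw [ContinuousLinearMap.star_eq_adjoint]
  symm
  refine (ContinuousLinearMap.eq_adjoint_iff _ _).2 ?_
  intro z w
  have h1 : ∀ x y x' y', inner ℂ (top (star a) (star c) (tt x y)) (tt x' y') =
      inner ℂ (tt x y) (top a c (tt x' y')) := by
    intro x y x' y'
    rw [top_tt, top_tt, inner_tt, inner_tt, ContinuousLinearMap.star_eq_adjoint,
      ContinuousLinearMap.star_eq_adjoint, ContinuousLinearMap.adjoint_inner_left,
      ContinuousLinearMap.adjoint_inner_left]
  have h2 : ∀ x y, (innerSL ℂ (top (star a) (star c) (tt x y)) : HT H K →L[ℂ] ℂ) =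
      (innerSL ℂ (tt x y)) ∘L (top a c) := fun x y => ht_ext fun x' y' => h1 x y x' y'
  -- in the first variable
  have h3 : ∀ w, (innerSL ℂ w : HT H K →L[ℂ] ℂ) ∘L top (star a) (star c) =
      innerSL ℂ (top a c w) := fun w => ht_ext fun x y => by
    have := congrArg (fun f : HT H K →L[ℂ] ℂ => starRingEnd ℂ (f w)) (h2 x y)
    simpa using this
  have := congrArg (fun f : HT H K →L[ℂ] ℂ => starRingEnd ℂ (f z)) (h3 w)
  simpa using this

variable (b : HilbertBasis X ℂ H) (c : HilbertBasis Y ℂ K)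

theorem orthonormal_tt : Orthonormal ℂ fun p : X × Y => tt (b p.1) (c p.2) := by
  constructor
  · intro p
    rw [norm_tt, b.orthonormal.1, c.orthonormal.1, mul_one]
  · intro p q hpq
    change inner ℂ (tt (b p.1) (c p.2)) (tt (b q.1) (c q.2)) = 0
    rw [inner_tt]
    by_cases h : p.1 = q.1
    · have : p.2 ≠ q.2 := fun h' => hpq (Prod.ext h h')
      rw [c.orthonormal.2 this, mul_zero]
    · rw [b.orthonormal.2 h, zero_mul]

theorem HilbertBasis_induction {H : Type} [NormedAddCommGroup H] [InnerProductSpace ℂ H]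
    {X : Type} (b : HilbertBasis X ℂ H) (W : Submodule ℂ H) (hW : IsClosed (W : Set H))
    (h : ∀ x, b x ∈ W) (ξ : H) : ξ ∈ W := by
  have h1 : (Submodule.span ℂ (Set.range b)).topologicalClosure ≤ W :=
    Submodule.topologicalClosure_minimal _
      (Submodule.span_le.2 (by rintro _ ⟨x, rfl⟩; exact h x)) hW
  exact h1 (by rw [b.dense_span]; trivial)

theorem span_tt_top : ⊤ ≤ (Submodule.span ℂ (Set.range fun p : X × Y =>
    tt (b p.1) (c p.2))).topologicalClosure := by
  set W := (Submodule.span ℂ (Set.range fun p : X × Y => tt (b p.1) (c p.2))).topologicalClosure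
  have hW : IsClosed (W : Set (HT H K)) := Submodule.isClosed_topologicalClosure _
  have h1 : ∀ x y, tt (b x) (c y) ∈ W := fun x y =>
    Submodule.le_topologicalClosure _ (Submodule.subset_span ⟨(x, y), rfl⟩)
  have h2 : ∀ ξ y, tt ξ (c y) ∈ W := fun ξ y =>
    HilbertBasis_induction b (W.comap (tr (c y) : H →L[ℂ] HT H K).toLinearMap)
      (hW.preimage (tr (c y)).continuous) (fun x => h1 x y) ξ
  have h3 : ∀ ξ η, tt ξ η ∈ W := fun ξ η =>
    HilbertBasis_induction c (W.comap (tl ξ : K →L[ℂ] HT H K).toLinearMap)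
      (hW.preimage (tl ξ).continuous) (fun y => h2 ξ y) η
  intro z _
  have h4 : (Submodule.span ℂ {z : HT H K | ∃ x y, z = tt x y}).topologicalClosure ≤ W :=
    Submodule.topologicalClosure_minimal _
      (Submodule.span_le.2 (by rintro _ ⟨x, y, rfl⟩; exact h3 x y)) hW
  exact h4 (by
    have := (Submodule.dense_iff_topologicalClosure_eq_top.1 (dense_span_tt (H := H) (K := K)))
    rw [this]; trivial)

/-- The product Hilbert basis. -/
def hbt : HilbertBasis (X × Y) ℂ (HT H K) := HilbertBasis.mk (orthonormal_tt b c) (span_tt_top b c)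

theorem hbt_apply (p : X × Y) : hbt b c p = tt (b p.1) (c p.2) := by
  rw [hbt, HilbertBasis.coe_mk]

end Pool.Agent.Lib.MP_43823f_an
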