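import Pool.Agent.Lib.MP_43823f_an.HTensor

set_option autoImplicit false
set_option linter.unusedSectionVars false

/-!
# Laurent polynomials over the field with two elements, and signed permutations
-/

open Filter Topology InnerProductSpace

noncomputable section

namespace Pool.Agent.Lib.MP_43823f_an

/-- Laurent polynomials over the field with two elements -/
abbrev V := ℤ →₀ ZMod 2

abbrev P := ℕ →₀ ZMod 2

theorem inj_red (n : ℤ) : Function.Injective fun i : ℕ => n - 1 - (i : ℤ) := by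
  intro i j h
  have : n - 1 - (i : ℤ) = n - 1 - (j : ℤ) := h
  omega

/-- the part of `v` below `n` -/
def red (n : ℤ) : V →+ P := Finsupp.comapDomain.addMonoidHom (inj_red n)

theorem red_apply (n : ℤ) (v : V) (i : ℕ) : red n v i = v (n - 1 - i) := rfl

/-- the embedding of `P` -/
def iot (n : ℤ) (c : P) : V := Finsupp.embDomain ⟨fun i : ℕ => n - 1 - (i : ℤ), inj_red n⟩ c

theorem iot_apply_sub (n : ℤ) (c : P) (i : ℕ) : iot n c (n - 1 - i) = c i :=
  Finsupp.embDomain_apply_self ⟨fun i : ℕ => n - 1 - (i : ℤ), inj_red n⟩ c i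

theorem iot_apply_of_le (n : ℤ) (c : P) (j : ℤ) (h : n ≤ j) : iot n c j = 0 := by
  refine Finsupp.embDomain_of_notMem_range _ _ _ ?_
  rintro ⟨i, hi⟩
  have : n - 1 - (i : ℤ) = j := hi
  omega

theorem iot_apply_of_lt (n : ℤ) (c : P) (j : ℤ) (h : j < n) : iot n c j = c (n - 1 - j).toNat := by
  have := iot_apply_sub n c (n - 1 - j).toNat
  rwa [show n - 1 - (((n - 1 - j).toNat : ℕ) : ℤ) = j by omega] at this

/-- the shift by `k` -/
def sh (k : ℤ) : V →+ V :=
  Finsupp.comapDomain.addMonoidHom (f := fun j : ℤ => j - k) (fun _ _ h => by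
    simpa using h)

theorem sh_apply (k : ℤ) (v : V) (j : ℤ) : sh k v j = v (j - k) := rfl

/-- the shift of `P` -/
def shp (k : ℕ) : P →+ P :=
  Finsupp.comapDomain.addMonoidHom (f := fun j : ℕ => j + k) (fun _ _ h => by
    simpa using h)

theorem shp_apply (k : ℕ) (c : P) (j : ℕ) : shp k c j = c (j + k) := rfl

/-- the sign character -/
def sgn (a : ZMod 2) : ℂ := if a = 0 then 1 else -1

theorem sgn_zero : sgn 0 = 1 := by simp [sgn]

theorem sgn_one : sgn 1 = -1 := by simp [sgn]

theorem sgn_add (a c : ZMod 2) : sgn (a + c) = sgn a * sgn c := by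
  have h : ∀ a : ZMod 2, a = 0 ∨ a = 1 := by decide
  rcases h a with rfl | rfl <;> rcases h c with rfl | rfl
  · simp [sgn_zero]
  · simp [sgn_zero]
  · simp [sgn_zero]
  · rw [show (1 : ZMod 2) + 1 = 0 from rfl, sgn_zero, sgn_one]; norm_num

theorem norm_sgn (a : ZMod 2) : ‖sgn a‖ = 1 := by
  unfold sgn; split_ifs <;> simp

theorem sgn_mul_self (a : ZMod 2) : sgn a * sgn a = 1 := by
  unfold sgn; split_ifs <;> simp

theorem red_iot (n : ℤ) (c : P) : red n (iot n c) = c := by
  ext i; rw [red_apply, iot_apply_sub]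

theorem sh_add' (k l : ℤ) (v : V) : sh k (sh l v) = sh (k + l) v := by
  ext j; rw [sh_apply, sh_apply, sh_apply]; congr 1; ring

theorem sh_zero' (v : V) : sh 0 v = v := by
  ext j; rw [sh_apply, sub_zero]

theorem sh_iot (n k : ℤ) (c : P) : sh k (iot n c) = iot (n + k) c := by
  ext j
  rw [sh_apply]
  by_cases h : j - k < n
  · rw [iot_apply_of_lt _ _ _ h, iot_apply_of_lt _ _ _ (by omega)]
    congr 2; ring
  · rw [iot_apply_of_le _ _ _ (by omega), iot_apply_of_le _ _ _ (by omega)]

theorem red_sh (n : ℤ) (k : ℕ) (v : V) : red n (sh k v) = shp k (red n v) := by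
  ext i
  rw [red_apply, shp_apply, red_apply, sh_apply]
  congr 1; push_cast; ring

theorem red_sh_one (n k : ℤ) (v : V) : red (n + k) (sh k v) = red n v := by
  ext i
  rw [red_apply, red_apply, sh_apply]
  congr 1; ring

theorem add_self_P (c : P) : c + c = 0 := by
  ext i; rw [Finsupp.add_apply]; exact CharTwo.add_self_eq_zero _

theorem add_self_V (c : V) : c + c = 0 := by
  ext i; rw [Finsupp.add_apply]; exact CharTwo.add_self_eq_zero _

/-- `c ↦ c + shp (k+1) c` -/
def mk' (k : ℕ) (c : P) : P := c + shp (k + 1) c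

theorem mk'_add (k : ℕ) (c d : P) : mk' k (c + d) = mk' k c + mk' k d := by
  rw [mk', mk', mk', map_add]; abel

theorem mk'_comm (k l : ℕ) (c : P) : mk' k (mk' l c) = mk' l (mk' k c) := by
  ext i
  simp only [mk', map_add, Finsupp.add_apply, shp_apply]
  rw [show i + (k + 1) + (l + 1) = i + (l + 1) + (k + 1) by ring]; ring

theorem mk'_sq (k : ℕ) (c : P) : mk' k (mk' k c) = mk' (2 * k + 1) c := by
  ext i
  simp only [mk', map_add, Finsupp.add_apply, shp_apply]
  have h : ∀ a : ZMod 2, a + a = 0 := CharTwo.add_self_eq_zero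
  rw [show i + (k + 1) + (k + 1) = i + (2 * k + 1 + 1) by ring]
  linear_combination h (c (i + (k + 1)))

theorem exists_bound (c : P) : ∃ N, ∀ i, N ≤ i → c i = 0 := by
  refine ⟨c.support.sup id + 1, fun i hi => ?_⟩
  by_contra h
  have h1 : i ∈ c.support := Finsupp.mem_support_iff.2 h
  have h2 : i ≤ c.support.sup id := Finset.le_sup (f := id) h1
  omega

theorem mk'_iterate (k m : ℕ) : ∃ l : ℕ, m ≤ l ∧ ∀ c, (mk' k)^[2 ^ m] c = mk' l c := by
  induction m with
  | zero => exact ⟨k, Nat.zero_le _, fun c => rfl⟩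
  | succ m ih =>
    obtain ⟨l, hl, h⟩ := ih
    refine ⟨2 * l + 1, by omega, fun c => ?_⟩
    rw [pow_succ, mul_comm, two_mul, Function.iterate_add_apply, h, h, mk'_sq]

theorem mk'_periodic (k : ℕ) (c : P) : ∃ N > 0, (mk' k)^[N] c = c := by
  obtain ⟨B, hB⟩ := exists_bound c
  obtain ⟨l, hl, h⟩ := mk'_iterate k B
  refine ⟨2 ^ B, by positivity, ?_⟩
  rw [h, mk']
  have : shp (l + 1) c = 0 := by
    ext i; rw [shp_apply]; exact hB _ (by omega)
  rw [this, add_zero]

theorem mk'_bijective (k : ℕ) : Function.Bijective (mk' k) := by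
  constructor
  · intro a c hac
    obtain ⟨N, hN0, hN⟩ := mk'_periodic k a
    obtain ⟨M, hM0, hM⟩ := mk'_periodic k c
    have h1 : (mk' k)^[N * M] a = a := by
      rw [Function.iterate_mul]; exact Function.iterate_fixed hN _
    have h2 : (mk' k)^[N * M] c = c := by
      rw [mul_comm, Function.iterate_mul]; exact Function.iterate_fixed hM _
    obtain ⟨Q, hQ⟩ : ∃ Q, N * M = Q + 1 := ⟨N * M - 1, by
      have := Nat.mul_pos hN0 hM0; omega⟩
    rw [hQ, Function.iterate_succ_apply] at h1 h2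
    rw [← h1, ← h2, hac]
  · intro c
    obtain ⟨N, hN0, hN⟩ := mk'_periodic k c
    obtain ⟨Q, rfl⟩ : ∃ Q, N = Q + 1 := ⟨N - 1, by omega⟩
    exact ⟨(mk' k)^[Q] c, (Function.iterate_succ_apply' (mk' k) Q c).symm.trans hN⟩

/-! ### Signed permutations of a Hilbert basis -/

section sperm

variable {H : Type} [NormedAddCommGroup H] [InnerProductSpace ℂ H] [CompleteSpace H]
  {X : Type} (b : HilbertBasis X ℂ H)

theorem orthonormal_sperm (σ : X ≃ X) (s : X → ℂ) (hs : ∀ x, ‖s x‖ = 1) :
    Orthonormal ℂ fun x => s x • b (σ x) := by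
  constructor
  · intro x
    rw [norm_smul, hs, b.orthonormal.1, mul_one]
  · intro x y hxy
    change inner ℂ (s x • b (σ x)) (s y • b (σ y)) = 0
    rw [inner_smul_left, inner_smul_right, b.orthonormal.2 (fun h => hxy (σ.injective h)),
      mul_zero, mul_zero]

theorem span_sperm (σ : X ≃ X) (s : X → ℂ) (hs : ∀ x, ‖s x‖ = 1) :
    ⊤ ≤ (Submodule.span ℂ (Set.range fun x => s x • b (σ x))).topologicalClosure := by
  intro ξ _
  refine HilbertBasis_induction b _ (Submodule.isClosed_topologicalClosure _) (fun x => ?_) ξ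
  refine Submodule.le_topologicalClosure _ ?_
  have h0 : s (σ.symm x) ≠ 0 := by
    intro h; have := hs (σ.symm x); rw [h, norm_zero] at this; exact zero_ne_one this
  have h1 : b x = (s (σ.symm x))⁻¹ • (s (σ.symm x) • b (σ (σ.symm x))) := by
    rw [smul_smul, inv_mul_cancel₀ h0, one_smul, Equiv.apply_symm_apply]
  rw [h1]
  exact Submodule.smul_mem _ _ (Submodule.subset_span ⟨σ.symm x, rfl⟩)

/-- The unitary operator `b x ↦ s x • b (σ x)`. -/
def sperm (σ : X ≃ X) (s : X → ℂ) (hs : ∀ x, ‖s x‖ = 1) : unitary (H →L[ℂ] H) :=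
  Unitary.linearIsometryEquiv.symm (b.repr.trans
    (HilbertBasis.mk (orthonormal_sperm b σ s hs) (span_sperm b σ s hs)).repr.symm)

theorem sperm_apply (σ : X ≃ X) (s : X → ℂ) (hs : ∀ x, ‖s x‖ = 1) (x : X) :
    (sperm b σ s hs).1 (b x) = s x • b (σ x) := by
  classical
  have h : (sperm b σ s hs).1 (b x) =
      (HilbertBasis.mk (orthonormal_sperm b σ s hs) (span_sperm b σ s hs)).repr.symm
        (b.repr (b x)) := rfl
  rw [h, b.repr_self, HilbertBasis.repr_symm_single, HilbertBasis.coe_mk]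

theorem basis_ext {E : Type} [NormedAddCommGroup E] [NormedSpace ℂ E] {S T : H →L[ℂ] E}
    (h : ∀ x, S (b x) = T (b x)) : S = T := by
  ext ξ
  refine HilbertBasis_induction b (LinearMap.eqLocus S.toLinearMap T.toLinearMap) ?_ h ξ
  exact isClosed_eq S.continuous T.continuous

end sperm

end Pool.Agent.Lib.MP_43823f_an
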