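import Pool.Agent.Lib.MP_43823f_an.Defs

set_option autoImplicit false
set_option linter.unusedSectionVars false

/-!
# The C*-algebra of compact operators and its bidual
-/

open Filter Topology InnerProductSpace

noncomputable section

namespace Pool.Agent.Lib.MP_43823f_an

variable {H : Type} [NormedAddCommGroup H] [InnerProductSpace ℂ H] [CompleteSpace H]
  {X : Type} (b : HilbertBasis X ℂ H)

/-- The projection onto the span of finitely many basis vectors. -/
def fp (F : Finset X) : H →L[ℂ] H := ∑ x ∈ F, rankOne ℂ (b x) (b x)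

theorem fp_apply (F : Finset X) (ξ : H) : fp b F ξ = ∑ x ∈ F, inner ℂ (b x) ξ • b x := by
  simp [fp]

theorem fp_tendsto (ξ : H) : Tendsto (fun F => fp b F ξ) atTop (𝓝 ξ) := by
  have h := b.hasSum_repr ξ
  refine h.congr (fun F => ?_)
  rw [fp_apply]
  simp [b.repr_apply_apply]

theorem fp_star (F : Finset X) : star (fp b F) = fp b F := by
  rw [fp, star_sum]
  refine Finset.sum_congr rfl fun x _ => ?_
  rw [ContinuousLinearMap.star_eq_adjoint, adjoint_rankOne]

theorem fp_basis_of_mem [DecidableEq X] (F : Finset X) (x : X) (hx : x ∈ F) :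
    fp b F (b x) = b x := by
  rw [fp_apply, Finset.sum_eq_single x]
  · rw [inner_self_eq_norm_sq_to_K, b.orthonormal.1 x]; simp
  · intro y _ hy
    rw [b.orthonormal.2 hy, zero_smul]
  · intro h; exact absurd hx h

theorem fp_basis_of_notMem (F : Finset X) (x : X) (hx : x ∉ F) :
    fp b F (b x) = 0 := by
  rw [fp_apply]
  refine Finset.sum_eq_zero fun y hy => ?_
  rw [b.orthonormal.2 (by rintro rfl; exact hx hy), zero_smul]

theorem fp_comp_of_subset {F G : Finset X} (h : F ⊆ G) : fp b G * fp b F = fp b F := by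
  classical
  ext ξ
  rw [mul_apply_eq_comp, fp_apply b F, map_sum]
  refine Finset.sum_congr rfl fun x hx => ?_
  rw [map_smul, fp_basis_of_mem b G x (h hx)]

theorem fp_comp_of_subset' {F G : Finset X} (h : F ⊆ G) : fp b F * fp b G = fp b F := by
  have := congrArg star (fp_comp_of_subset b h)
  rwa [star_mul, fp_star, fp_star] at this

theorem fp_idem (F : Finset X) : fp b F * fp b F = fp b F := fp_comp_of_subset b subset_rfl

theorem fp_inner (F : Finset X) (ξ η : H) : inner ℂ (fp b F ξ) η = inner ℂ ξ (fp b F η) := by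
  conv_rhs => rw [← fp_star b F]
  rw [ContinuousLinearMap.star_eq_adjoint, ContinuousLinearMap.adjoint_inner_right]

theorem fp_pythagoras (F : Finset X) (ξ : H) :
    ‖fp b F ξ‖ ^ 2 + ‖ξ - fp b F ξ‖ ^ 2 = ‖ξ‖ ^ 2 := by
  have h : inner ℂ (fp b F ξ) (ξ - fp b F ξ) = 0 := by
    rw [fp_inner, map_sub, ← mul_apply_eq_comp, fp_idem, sub_self, inner_zero_right]
  have h2 := norm_add_sq_eq_norm_sq_add_norm_sq_of_inner_eq_zero _ _ h
  rw [add_sub_cancel] at h2
  nlinarith [h2]

theorem norm_fp_le (F : Finset X) : ‖fp b F‖ ≤ 1 := by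
  refine ContinuousLinearMap.opNorm_le_bound _ zero_le_one fun ξ => ?_
  have := fp_pythagoras b F ξ
  rw [one_mul]
  nlinarith [norm_nonneg (fp b F ξ), norm_nonneg ξ, sq_nonneg ‖ξ - fp b F ξ‖]

/-- a criterion for norm convergence of `a P_F` -/
theorem tendsto_mul_fp_iff (a : H →L[ℂ] H) :
    Tendsto (fun F : Finset X => a * fp b F) atTop (𝓝 a) ↔
      ∀ ε > 0, ∃ F : Finset X, ‖a - a * fp b F‖ < ε := by
  classical
  rw [Metric.tendsto_atTop]
  constructor
  · intro h ε hε
    obtain ⟨F, hF⟩ := h ε hε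
    refine ⟨F, ?_⟩
    have := hF F le_rfl
    rwa [dist_comm, dist_eq_norm] at this
  · intro h ε hε
    obtain ⟨F, hF⟩ := h ε hε
    refine ⟨F, fun G hG => ?_⟩
    rw [dist_comm, dist_eq_norm]
    have e : a - a * fp b G = (a - a * fp b F) * (1 - fp b G) := by
      rw [sub_mul, mul_sub, mul_sub, mul_one, mul_one, mul_assoc, fp_comp_of_subset' b hG]
      abel
    rw [e]
    have h1 : ‖(1 : H →L[ℂ] H) - fp b G‖ ≤ 1 := by
      refine ContinuousLinearMap.opNorm_le_bound _ zero_le_one fun ξ => ?_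
      have := fp_pythagoras b G ξ
      rw [one_mul, sub_apply, one_apply_eq_self]
      nlinarith [norm_nonneg (fp b G ξ), norm_nonneg ξ, norm_nonneg (ξ - fp b G ξ)]
    calc ‖(a - a * fp b F) * (1 - fp b G)‖ ≤ ‖a - a * fp b F‖ * ‖1 - fp b G‖ := norm_mul_le _ _
      _ ≤ ‖a - a * fp b F‖ * 1 := by gcongr
      _ < ε := by rwa [mul_one]

theorem fp_mul_tendsto {a : H →L[ℂ] H} (h : Tendsto (fun F : Finset X => a * fp b F) atTop (𝓝 a)) :
    Tendsto (fun F : Finset X => fp b F * a) atTop (𝓝 a) := by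
  classical
  rw [Metric.tendsto_atTop]
  intro ε hε
  obtain ⟨G, hG⟩ := (tendsto_mul_fp_iff b a).1 h (ε / 3) (by positivity)
  have h1 : Tendsto (fun F : Finset X => fp b F * (a * fp b G)) atTop (𝓝 (a * fp b G)) := by
    have e : ∀ c : H →L[ℂ] H, c * fp b G = ∑ x ∈ G, rankOne ℂ (c (b x)) (b x) := by
      intro c
      rw [fp, Finset.mul_sum]
      refine Finset.sum_congr rfl fun x _ => ?_
      exact comp_rankOne _ _ _
    have e2 : ∀ F : Finset X, fp b F * (a * fp b G) =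
        ∑ x ∈ G, rankOne ℂ (fp b F (a (b x))) (b x) := by
      intro F
      rw [← mul_assoc, e]; rfl
    have h5 : Tendsto (fun F : Finset X => ∑ x ∈ G, (rankOne ℂ (fp b F (a (b x))) (b x) :
        H →L[ℂ] H)) atTop (𝓝 (∑ x ∈ G, (rankOne ℂ (a (b x)) (b x) : H →L[ℂ] H))) := by
      refine tendsto_finsetSum _ fun x _ => ?_
      have hc : Continuous fun ζ : H => (rankOne ℂ ζ (b x) : H →L[ℂ] H) :=
        ((rankOne ℂ : H →L[ℂ] H →L⋆[ℂ] H →L[ℂ] H).flip (b x)).continuous
      exact (hc.tendsto _).comp (fp_tendsto b (a (b x)))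
    rw [← e a] at h5
    exact h5.congr fun F => (e2 F).symm
  rw [Metric.tendsto_atTop] at h1
  obtain ⟨F₀, hF₀⟩ := h1 (ε / 3) (by positivity)
  refine ⟨F₀, fun F hF => ?_⟩
  have h2 := hF₀ F hF
  rw [dist_eq_norm] at h2 ⊢
  have e : fp b F * a - a = fp b F * (a - a * fp b G) +
      (fp b F * (a * fp b G) - a * fp b G) - (a - a * fp b G) := by
    rw [mul_sub]; abel
  rw [e]
  have h3 : ‖fp b F * (a - a * fp b G)‖ ≤ ‖a - a * fp b G‖ :=
    (norm_mul_le _ _).trans (mul_le_of_le_one_left (norm_nonneg _) (norm_fp_le b F))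
  calc _ ≤ ‖fp b F * (a - a * fp b G) + (fp b F * (a * fp b G) - a * fp b G)‖
        + ‖a - a * fp b G‖ := norm_sub_le _ _
    _ ≤ ‖fp b F * (a - a * fp b G)‖ + ‖fp b F * (a * fp b G) - a * fp b G‖
        + ‖a - a * fp b G‖ := by gcongr; exact norm_add_le _ _
    _ < ε := by linarith

/-- The C*-algebra of compact operators. -/
def KH : NonUnitalStarSubalgebra ℂ (H →L[ℂ] H) where
  carrier := {a | Tendsto (fun F : Finset X => a * fp b F) atTop (𝓝 a)}
  add_mem' := fun {a c} ha hc => by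
    refine (ha.add hc).congr fun F => ?_
    rw [add_mul]
  zero_mem' := by simp
  mul_mem' := fun {a c} ha hc => by
    refine (hc.const_mul a).congr fun F => ?_
    rw [mul_assoc]
  smul_mem' := fun c {a} ha => by
    refine (ha.const_smul c).congr fun F => ?_
    rw [smul_mul_assoc]
  star_mem' := fun {a} ha => by
    refine (fp_mul_tendsto b ha).star.congr fun F => ?_
    rw [star_mul, fp_star]

theorem mem_KH_iff (a : H →L[ℂ] H) : a ∈ KH b ↔ ∀ ε > 0, ∃ F : Finset X, ‖a - a * fp b F‖ < ε :=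
  tendsto_mul_fp_iff b a

theorem mem_KH_iff' (a : H →L[ℂ] H) :
    a ∈ KH b ↔ Tendsto (fun F : Finset X => a * fp b F) atTop (𝓝 a) := Iff.rfl

theorem tendsto_fp_mul_of_mem {a : H →L[ℂ] H} (h : a ∈ KH b) :
    Tendsto (fun F : Finset X => fp b F * a) atTop (𝓝 a) := fp_mul_tendsto b h

theorem mul_mem_KH (S : H →L[ℂ] H) {a : H →L[ℂ] H} (h : a ∈ KH b) : S * a ∈ KH b := by
  rw [mem_KH_iff'] at h ⊢
  refine (h.const_mul S).congr fun F => ?_
  rw [mul_assoc]

theorem mul_mem_KH' (S : H →L[ℂ] H) {a : H →L[ℂ] H} (h : a ∈ KH b) : a * S ∈ KH b := by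
  have := star_mem (mul_mem_KH b (star S) (star_mem h))
  rwa [star_mul, star_star, star_star] at this

instance isClosed_KH : IsClosed ((KH b : NonUnitalStarSubalgebra ℂ (H →L[ℂ] H)) :
    Set (H →L[ℂ] H)) := by
  refine isClosed_of_closure_subset fun a ha => ?_
  rw [Metric.mem_closure_iff] at ha
  refine (mem_KH_iff b a).2 fun ε hε => ?_
  obtain ⟨c, hc, hac⟩ := ha (ε / 3) (by positivity)
  obtain ⟨F, hF⟩ := (mem_KH_iff b c).1 hc (ε / 3) (by positivity)
  refine ⟨F, ?_⟩
  rw [dist_eq_norm] at hac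
  have e : a - a * fp b F = (a - c) + (c - c * fp b F) - (a - c) * fp b F := by
    rw [sub_mul]; abel
  rw [e]
  have h3 : ‖(a - c) * fp b F‖ ≤ ‖a - c‖ :=
    (norm_mul_le _ _).trans (mul_le_of_le_one_right (norm_nonneg _) (norm_fp_le b F))
  calc _ ≤ ‖(a - c) + (c - c * fp b F)‖ + ‖(a - c) * fp b F‖ := norm_sub_le _ _
    _ ≤ ‖a - c‖ + ‖c - c * fp b F‖ + ‖(a - c) * fp b F‖ := by gcongr; exact norm_add_le _ _
    _ < ε := by linarith

theorem rankOne_mem (ξ η : H) : (rankOne ℂ ξ η : H →L[ℂ] H) ∈ KH b := by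
  rw [mem_KH_iff']
  have e : ∀ F : Finset X, rankOne ℂ ξ η * fp b F = (rankOne ℂ ξ (fp b F η) : H →L[ℂ] H) := by
    intro F
    ext ζ
    rw [mul_apply_eq_comp, rankOne_apply, rankOne_apply, ← fp_inner]
  simp_rw [e]
  have hc : Continuous fun ζ : H => (rankOne ℂ ξ ζ : H →L[ℂ] H) :=
    (rankOne ℂ ξ : H →L⋆[ℂ] H →L[ℂ] H).continuous
  exact (hc.tendsto _).comp (fp_tendsto b η)

theorem fp_mem (F : Finset X) : fp b F ∈ KH b := sum_mem fun _ _ => rankOne_mem b _ _

end Pool.Agent.Lib.MP_43823f_an
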