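import Pool.Agent.Lib.MP_43823f_an.KH

set_option autoImplicit false
set_option linter.unusedSectionVars false

/-!
# The bidual of the algebra of compact operators
-/

open Filter Topology InnerProductSpace

noncomputable section

namespace Pool.Agent.Lib.MP_43823f_an

variable {H : Type} [NormedAddCommGroup H] [InnerProductSpace ℂ H] [CompleteSpace H]
  {X : Type} (b : HilbertBasis X ℂ H)

/-- The vector functional `a ↦ ⟨ξ, a η⟩`. -/
def vf (ξ η : H) : Dual (KH b) :=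
  Dual.mk (fun a => inner ℂ ξ (a.1 η)) (fun a c => by
      rw [← inner_add_right]; rfl)
    (fun c a => by rw [← inner_smul_right]; rfl) (‖ξ‖ * ‖η‖)
    (fun a => by
      refine (norm_inner_le_norm _ _).trans ?_
      rw [mul_assoc, mul_comm ‖η‖]
      exact mul_le_mul_of_nonneg_left (a.1.le_opNorm η) (norm_nonneg ξ))

theorem vf_apply (ξ η : H) (a : KH b) : vf b ξ η a = inner ℂ ξ (a.1 η) := rfl

theorem vf_zero : vf b 0 0 = 0 := Dual.ext fun a => by rw [vf_apply, inner_zero_left]; rfl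

theorem vf_smul_right (c : ℂ) (ξ η : H) : vf b ξ (c • η) = c • vf b ξ η :=
  Dual.ext fun a => by rw [vf_apply, map_smul, inner_smul_right]; rfl

theorem vf_add_right (ξ η ζ : H) : vf b ξ (η + ζ) = vf b ξ η + vf b ξ ζ :=
  Dual.ext fun a => by rw [vf_apply, map_add, inner_add_right]; rfl

theorem vf_add_left (ξ η ζ : H) : vf b (ξ + η) ζ = vf b ξ ζ + vf b η ζ :=
  Dual.ext fun a => by rw [vf_apply, inner_add_left]; rfl

theorem vf_smul_left (c : ℂ) (ξ η : H) : vf b (c • ξ) η = starRingEnd ℂ c • vf b ξ η :=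
  Dual.ext fun a => by rw [vf_apply, inner_smul_left]; rfl

theorem norm_vf_le (ξ η : H) : ‖vf b ξ η‖ ≤ ‖ξ‖ * ‖η‖ :=
  Dual.norm_le _ _ (by positivity) fun a => by
      refine (norm_inner_le_norm _ _).trans ?_
      rw [mul_assoc, mul_comm ‖η‖]
      exact mul_le_mul_of_nonneg_left (a.1.le_opNorm η) (norm_nonneg ξ)

/-- The element `a P_F` of the algebra. -/
def mulfp (a : KH b) (F : Finset X) : KH b := a * ⟨fp b F, fp_mem b F⟩

theorem mulfp_coe (a : KH b) (F : Finset X) : (mulfp b a F).1 = a.1 * fp b F := rfl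

theorem mulfp_tendsto (a : KH b) : Tendsto (fun F => mulfp b a F) atTop (𝓝 a) := by
  rw [tendsto_subtype_rng]
  exact (mem_KH_iff' b a.1).1 a.2

/-- The functional `a ↦ μ (a P_F)`. -/
def cut (μ : Dual (KH b)) (F : Finset X) : Dual (KH b) := lmul ⟨fp b F, fp_mem b F⟩ μ

theorem cut_apply (μ : Dual (KH b)) (F : Finset X) (a : KH b) : cut b μ F a = μ (mulfp b a F) := rfl

theorem Dual.map_zero' {A : Type} [NonUnitalCStarAlgebra A] (μ : Dual A) : μ 0 = 0 := by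
  have := μ.map_smul 0 0
  simpa using this

theorem Dual.map_sub' {A : Type} [NonUnitalCStarAlgebra A] (μ : Dual A) (a c : A) :
    μ (a - c) = μ a - μ c := by
  rw [sub_eq_add_neg, μ.map_add, show -c = (-1 : ℂ) • c by simp, μ.map_smul]; ring

theorem Dual.map_sum' {A ι : Type} [NonUnitalCStarAlgebra A] (μ : Dual A) (s : Finset ι)
    (f : ι → A) : μ (∑ i ∈ s, f i) = ∑ i ∈ s, μ (f i) := by
  classical
  induction s using Finset.induction_on with
  | empty => simp [μ.map_zero']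
  | insert a s ha ih => rw [Finset.sum_insert ha, Finset.sum_insert ha, μ.map_add, ih]

theorem Dual.sum_apply' {A ι : Type} [NonUnitalCStarAlgebra A] (s : Finset ι)
    (f : ι → Dual A) (a : A) : (∑ i ∈ s, f i) a = ∑ i ∈ s, f i a := by
  classical
  induction s using Finset.induction_on with
  | empty => rfl
  | insert a s ha ih => rw [Finset.sum_insert ha, Finset.sum_insert ha, Dual.add_apply, ih]

theorem Dual.sub_apply' {A : Type} [NonUnitalCStarAlgebra A] (μ ν : Dual A) (a : A) :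
    (μ - ν) a = μ a - ν a := rfl

/-- rank one operators as elements of the algebra -/
def rk (ξ η : H) : KH b := ⟨rankOne ℂ ξ η, rankOne_mem b ξ η⟩

theorem exists_riesz (μ : Dual (KH b)) (ζ : H) : ∃ ξ : H, ∀ η, μ (rk b η ζ) = inner ℂ ξ η := by
  let f : H →L[ℂ] ℂ := LinearMap.mkContinuous
    { toFun := fun η => μ (rk b η ζ)
      map_add' := fun x y => by
        rw [← μ.map_add]; congr 1; apply Subtype.ext
        change rankOne ℂ (x + y) ζ = rankOne ℂ x ζ + rankOne ℂ y ζ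
        simp
      map_smul' := fun c x => by
        change _ = c * _
        rw [← μ.map_smul]; congr 1; apply Subtype.ext
        change rankOne ℂ (c • x) ζ = c • rankOne ℂ x ζ
        simp } (‖μ‖ * ‖ζ‖) (fun η => by
          refine (μ.le_norm _).trans ?_
          have : ‖rk b η ζ‖ = ‖η‖ * ‖ζ‖ := norm_rankOne η ζ
          rw [this]; exact le_of_eq (by ring))
  refine ⟨(toDual ℂ H).symm f, fun η => ?_⟩
  rw [toDual_symm_apply]; rfl

theorem exists_cut_eq (μ : Dual (KH b)) (F : Finset X) :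
    ∃ ξ : X → H, cut b μ F = ∑ x ∈ F, vf b (ξ x) (b x) := by
  choose ξ hξ using fun x => exists_riesz b μ (b x)
  refine ⟨ξ, Dual.ext fun a => ?_⟩
  rw [cut_apply, Dual.sum_apply']
  have e : mulfp b a F = ∑ x ∈ F, rk b (a.1 (b x)) (b x) := by
    apply Subtype.ext
    rw [mulfp_coe, fp, Finset.mul_sum, AddSubmonoidClass.coe_finsetSum]
    refine Finset.sum_congr rfl fun x _ => ?_
    exact comp_rankOne _ _ _
  rw [e, μ.map_sum']
  refine Finset.sum_congr rfl fun x _ => ?_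
  rw [hξ, vf_apply]

theorem norm_comb_le (a c : H →L[ℂ] H) (ha : ‖a‖ ≤ 1) (hc : ‖c‖ ≤ 1) (F : Finset X) (α β : ℂ) :
    ‖α • (a * fp b F) + β • (c - c * fp b F)‖ ≤ √(‖α‖ ^ 2 + ‖β‖ ^ 2) := by
  refine ContinuousLinearMap.opNorm_le_bound _ (Real.sqrt_nonneg _) fun ξ => ?_
  have h1 : (α • (a * fp b F) + β • (c - c * fp b F)) ξ =
      α • a (fp b F ξ) + β • c (ξ - fp b F ξ) := by
    simp
  have h2 := fp_pythagoras b F ξ
  have h3 : ‖a (fp b F ξ)‖ ≤ ‖fp b F ξ‖ := (a.le_opNorm _).trans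
    (mul_le_of_le_one_left (norm_nonneg _) ha)
  have h4 : ‖c (ξ - fp b F ξ)‖ ≤ ‖ξ - fp b F ξ‖ := (c.le_opNorm _).trans
    (mul_le_of_le_one_left (norm_nonneg _) hc)
  rw [h1]
  have h5 : ‖α • a (fp b F ξ) + β • c (ξ - fp b F ξ)‖ ≤
      ‖α‖ * ‖fp b F ξ‖ + ‖β‖ * ‖ξ - fp b F ξ‖ := by
    refine (norm_add_le _ _).trans ?_
    rw [norm_smul, norm_smul]
    gcongr
  refine h5.trans ?_
  have h6 : √(‖α‖ ^ 2 + ‖β‖ ^ 2) * ‖ξ‖ = √((‖α‖ ^ 2 + ‖β‖ ^ 2) * ‖ξ‖ ^ 2) := by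
    rw [Real.sqrt_mul (by positivity), Real.sqrt_sq (norm_nonneg _)]
  rw [h6, ← h2]
  refine Real.le_sqrt_of_sq_le ?_
  nlinarith [sq_nonneg (‖α‖ * ‖ξ - fp b F ξ‖ - ‖β‖ * ‖fp b F ξ‖)]

theorem split_norm (μ : Dual (KH b)) (a c : KH b) (ha : ‖a‖ ≤ 1) (hc : ‖c‖ ≤ 1)
    (F : Finset X) : ‖μ (mulfp b a F)‖ ^ 2 + ‖μ (c - mulfp b c F)‖ ^ 2 ≤ ‖μ‖ ^ 2 := by
  set u := μ (mulfp b a F) with hu
  set v := μ (c - mulfp b c F) with hv
  have h1 : ‖(starRingEnd ℂ u) • mulfp b a F + (starRingEnd ℂ v) • (c - mulfp b c F)‖ ≤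
      √(‖starRingEnd ℂ u‖ ^ 2 + ‖starRingEnd ℂ v‖ ^ 2) :=
    norm_comb_le b a.1 c.1 ha hc F _ _
  have h2 : μ ((starRingEnd ℂ u) • mulfp b a F + (starRingEnd ℂ v) • (c - mulfp b c F)) =
      ((‖u‖ ^ 2 + ‖v‖ ^ 2 : ℝ) : ℂ) := by
    rw [μ.map_add, μ.map_smul, μ.map_smul, ← hu, ← hv, mul_comm, Complex.mul_conj, mul_comm,
      Complex.mul_conj, Complex.normSq_eq_norm_sq, Complex.normSq_eq_norm_sq]
    push_cast; ring
  have h3 := μ.le_norm ((starRingEnd ℂ u) • mulfp b a F + (starRingEnd ℂ v) • (c - mulfp b c F))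
  rw [h2, Complex.norm_real, Real.norm_of_nonneg (by positivity)] at h3
  rw [RCLike.norm_conj, RCLike.norm_conj] at h1
  have h4 : ‖u‖ ^ 2 + ‖v‖ ^ 2 ≤ ‖μ‖ * √(‖u‖ ^ 2 + ‖v‖ ^ 2) :=
    h3.trans (mul_le_mul_of_nonneg_left h1 (norm_nonneg _))
  set S := ‖u‖ ^ 2 + ‖v‖ ^ 2 with hS
  have hS0 : 0 ≤ S := by positivity
  have h5 : √S ^ 2 = S := Real.sq_sqrt hS0
  by_cases h0 : √S = 0
  · have : S = 0 := by rw [← h5, h0]; ring
    rw [this]; positivity
  · have h6 : 0 < √S := lt_of_le_of_ne (Real.sqrt_nonneg _) (Ne.symm h0)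
    have h7 : √S ≤ ‖μ‖ := by nlinarith
    rw [← h5]; nlinarith [norm_nonneg μ]

theorem Dual.exists_lt {A : Type} [NonUnitalCStarAlgebra A] (μ : Dual A) (r : ℝ) (hr : r < ‖μ‖) :
    ∃ a : A, ‖a‖ ≤ 1 ∧ r < ‖μ a‖ := by
  obtain ⟨a, h1, h2⟩ := ContinuousLinearMap.exists_lt_apply_of_lt_opNorm (μ : A →L[ℂ] ℂ) hr
  exact ⟨a, h1.le, h2⟩

theorem cut_tendsto (μ : Dual (KH b)) : Tendsto (fun F => cut b μ F) atTop (𝓝 μ) := by
  classical
  rw [Metric.tendsto_atTop]
  intro ε hε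
  -- choose `δ` with `4 δ ‖μ‖ ≤ (ε/2)^2`
  obtain ⟨δ, hδ0, hδ⟩ : ∃ δ > 0, 4 * δ * ‖μ‖ ≤ (ε / 2) ^ 2 := by
    refine ⟨(ε / 2) ^ 2 / (4 * (‖μ‖ + 1)), by positivity, ?_⟩
    have : 0 < ‖μ‖ + 1 := by positivity
    rw [show 4 * ((ε / 2) ^ 2 / (4 * (‖μ‖ + 1))) * ‖μ‖ = (ε / 2) ^ 2 * (‖μ‖ / (‖μ‖ + 1)) by
      field_simp]
    exact mul_le_of_le_one_right (by positivity) ((div_le_one this).2 (by linarith))
  obtain ⟨a, ha1, ha2⟩ := μ.exists_lt (‖μ‖ - δ) (by linarith)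
  have h1 : Tendsto (fun F => ‖μ (mulfp b a F)‖) atTop (𝓝 ‖μ a‖) := by
    have hc : Continuous fun c : KH b => ‖μ c‖ :=
      (ContinuousLinearMap.continuous (μ : (KH b) →L[ℂ] ℂ)).norm
    exact (hc.tendsto _).comp (mulfp_tendsto b a)
  have h2 : ∀ᶠ F in atTop, ‖μ‖ - 2 * δ < ‖μ (mulfp b a F)‖ :=
    h1.eventually (lt_mem_nhds (by linarith))
  obtain ⟨F₀, hF₀⟩ := Filter.eventually_atTop.1 h2
  refine ⟨F₀, fun F hF => ?_⟩
  have h3 := hF₀ F hF
  rw [dist_comm, dist_eq_norm]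
  refine lt_of_le_of_lt (b := ε / 2) ?_ (by linarith)
  refine Dual.norm_le _ _ (by positivity) fun c => ?_
  rw [Dual.sub_apply', cut_apply, ← μ.map_sub']
  by_cases hc : ‖c‖ = 0
  · rw [norm_eq_zero.1 hc]
    have : (0 : KH b) - mulfp b 0 F = 0 := by
      rw [mulfp, zero_mul, sub_zero]
    rw [this, μ.map_zero']; simp
  · have hc0 : 0 < ‖c‖ := lt_of_le_of_ne (norm_nonneg _) (Ne.symm hc)
    set d : KH b := ((‖c‖⁻¹ : ℝ) : ℂ) • c with hd
    have hd1 : ‖d‖ ≤ 1 := by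
      rw [hd, norm_smul, Complex.norm_real, norm_inv, norm_norm, inv_mul_cancel₀ hc]
    have h4 := split_norm b μ a d ha1 hd1 F
    have h5 : d - mulfp b d F = ((‖c‖⁻¹ : ℝ) : ℂ) • (c - mulfp b c F) := by
      rw [hd, mulfp, mulfp, smul_mul_assoc, smul_sub]
    have h6 : ‖μ (d - mulfp b d F)‖ = ‖c‖⁻¹ * ‖μ (c - mulfp b c F)‖ := by
      rw [h5, μ.map_smul, norm_mul, Complex.norm_real, norm_inv, norm_norm]
    have h7 : ‖μ (d - mulfp b d F)‖ ^ 2 ≤ (ε / 2) ^ 2 := by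
      by_cases h8 : 0 ≤ ‖μ‖ - 2 * δ
      · nlinarith [norm_nonneg μ]
      · nlinarith [norm_nonneg μ, norm_nonneg (μ (mulfp b a F))]
    have h9 : ‖μ (d - mulfp b d F)‖ ≤ ε / 2 := by
      exact (le_abs_self _).trans (abs_le_of_sq_le_sq h7 (by positivity))
    rw [h6] at h9
    have h10 : ‖μ (c - mulfp b c F)‖ = ‖c‖ * (‖c‖⁻¹ * ‖μ (c - mulfp b c F)‖) := by
      rw [← mul_assoc, mul_inv_cancel₀ hc, one_mul]
    rw [h10, mul_comm (ε / 2)]
    exact mul_le_mul_of_nonneg_left h9 (norm_nonneg _)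

/-- Induction principle for `K(H)*`. -/
theorem dual_induction (p : Dual (KH b) → Prop) (h0 : ∀ ξ η, p (vf b ξ η))
    (h1 : ∀ μ ν, p μ → p ν → p (μ + ν)) (h2 : IsClosed {μ | p μ}) (μ : Dual (KH b)) : p μ := by
  classical
  refine h2.mem_of_tendsto (cut_tendsto b μ) (Eventually.of_forall fun F => ?_)
  obtain ⟨ξ, hξ⟩ := exists_cut_eq b μ F
  change p _
  rw [hξ]
  have h3 : ∀ s : Finset X, p (∑ x ∈ s, vf b (ξ x) (b x)) := by
    intro s
    induction s using Finset.induction_on with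
    | empty => rw [Finset.sum_empty, ← vf_zero b]; exact h0 _ _
    | insert a s ha ih =>
      rw [Finset.sum_insert ha]
      exact h1 _ _ (h0 _ _) ih
  exact h3 F

theorem Bidual.continuous' {A : Type} [NonUnitalCStarAlgebra A] (F : Bidual A) :
    Continuous fun μ => F μ := ContinuousLinearMap.continuous (F : Dual A →L[ℂ] ℂ)

theorem Dual.continuous' {A : Type} [NonUnitalCStarAlgebra A] (μ : Dual A) :
    Continuous fun a => μ a := ContinuousLinearMap.continuous (μ : A →L[ℂ] ℂ)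

theorem bidual_ext {F G : Bidual (KH b)} (h : ∀ ξ η, F (vf b ξ η) = G (vf b ξ η)) : F = G := by
  refine Bidual.ext fun μ => ?_
  refine dual_induction b (fun μ => F μ = G μ) h (fun μ ν h1 h2 => ?_) ?_ μ
  · rw [F.map_add, G.map_add]
    exact congrArg₂ _ h1 h2
  · exact isClosed_eq F.continuous' G.continuous'

/-! ### Bounded operators as elements of the bidual -/

theorem mul_rk (S : H →L[ℂ] H) (ξ η : H) : S * (rankOne ℂ ξ η) = rankOne ℂ (S ξ) η :=
  comp_rankOne _ _ _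

theorem sum_norm_le (μ : Dual (KH b)) (S : H →L[ℂ] H) (F : Finset X) :
    ∑ x ∈ F, ‖μ (rk b (S (b x)) (b x))‖ ≤ ‖μ‖ * ‖S‖ := by
  classical
  let w : X → ℂ := fun x => μ (rk b (S (b x)) (b x))
  let z : X → ℂ := fun x => if w x = 0 then 0 else starRingEnd ℂ (w x) / ‖w x‖
  have hz : ∀ x, z x * w x = ‖w x‖ := by
    intro x
    by_cases h : w x = 0
    · simp [z, h]
    · simp only [z, if_neg h]
      have h' : (‖w x‖ : ℂ) ≠ 0 := by exact_mod_cast norm_ne_zero_iff.2 h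
      rw [div_mul_eq_mul_div, mul_comm, Complex.mul_conj, Complex.normSq_eq_norm_sq,
        div_eq_iff h']
      push_cast; ring
  have hz1 : ∀ x, ‖z x‖ ≤ 1 := by
    intro x
    by_cases h : w x = 0
    · simp [z, h]
    · simp only [z, if_neg h]
      rw [norm_div, RCLike.norm_conj, Complex.norm_real, norm_norm,
        div_self (norm_ne_zero_iff.2 h)]
  let D : H →L[ℂ] H := ∑ x ∈ F, z x • rankOne ℂ (b x) (b x)
  have hDm : D ∈ KH b := sum_mem fun x _ => SMulMemClass.smul_mem _ (rankOne_mem b _ _)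
  have hD : ‖D‖ ≤ 1 := by
    refine ContinuousLinearMap.opNorm_le_bound _ zero_le_one fun ξ => ?_
    rw [one_mul]
    have h1 : D ξ = ∑ x ∈ F, (z x * inner ℂ (b x) ξ) • b x := by
      simp [D, smul_smul]
    have h2 : ‖D ξ‖ ^ 2 = ∑ x ∈ F, ‖z x * inner ℂ (b x) ξ‖ ^ 2 := by
      rw [h1]
      have := b.orthonormal.inner_sum (fun x => z x * inner ℂ (b x) ξ)
        (fun x => z x * inner ℂ (b x) ξ) F
      rw [inner_self_eq_norm_sq_to_K] at this
      have h3 : ((‖∑ x ∈ F, (z x * inner ℂ (b x) ξ) • b x‖ ^ 2 : ℝ) : ℂ) =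
          ((∑ x ∈ F, ‖z x * inner ℂ (b x) ξ‖ ^ 2 : ℝ) : ℂ) := by
        push_cast
        refine this.trans (Finset.sum_congr rfl fun x _ => ?_)
        rw [mul_comm, Complex.mul_conj, Complex.normSq_eq_norm_sq]
        push_cast; ring
      exact_mod_cast h3
    have h4 : ∑ x ∈ F, ‖z x * inner ℂ (b x) ξ‖ ^ 2 ≤ ‖ξ‖ ^ 2 := by
      refine le_trans (Finset.sum_le_sum fun x _ => ?_)
        (b.orthonormal.sum_inner_products_le (x := ξ) (s := F))
      rw [norm_mul]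
      have := hz1 x
      have h5 : ‖z x‖ * ‖inner ℂ (b x) ξ‖ ≤ ‖inner ℂ (b x) ξ‖ :=
        mul_le_of_le_one_left (norm_nonneg _) this
      exact pow_le_pow_left₀ (by positivity) h5 2
    rw [← h2] at h4
    exact abs_le_of_sq_le_sq h4 (norm_nonneg _) |> (le_abs_self _).trans
  have h5 : ((∑ x ∈ F, ‖μ (rk b (S (b x)) (b x))‖ : ℝ) : ℂ) = μ ⟨S * D, mul_mem_KH b S hDm⟩ := by
    have e : (⟨S * D, mul_mem_KH b S hDm⟩ : KH b) = ∑ x ∈ F, z x • rk b (S (b x)) (b x) := by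
      apply Subtype.ext
      rw [AddSubmonoidClass.coe_finsetSum]
      change S * D = ∑ x ∈ F, z x • rankOne ℂ (S (b x)) (b x)
      rw [Finset.mul_sum]
      refine Finset.sum_congr rfl fun x _ => ?_
      rw [mul_smul_comm, mul_rk]
    rw [e, μ.map_sum']
    push_cast
    refine Finset.sum_congr rfl fun x _ => ?_
    rw [μ.map_smul]
    exact (hz x).symm
  have h6 : ‖((∑ x ∈ F, ‖μ (rk b (S (b x)) (b x))‖ : ℝ) : ℂ)‖ ≤ ‖μ‖ * ‖S‖ := by
    rw [h5]
    refine (μ.le_norm _).trans (mul_le_mul_of_nonneg_left ?_ (norm_nonneg _))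
    exact (norm_mul_le S D).trans (mul_le_of_le_one_right (norm_nonneg _) hD)
  rw [Complex.norm_real, Real.norm_of_nonneg (Finset.sum_nonneg fun _ _ => norm_nonneg _)] at h6
  exact h6

theorem norm_tsum_ev_le (μ : Dual (KH b)) (S : H →L[ℂ] H) :
    ‖∑' x, μ (rk b (S (b x)) (b x))‖ ≤ ‖S‖ * ‖μ‖ := by
  have hs : Summable fun x => ‖μ (rk b (S (b x)) (b x))‖ :=
    summable_of_sum_le (fun _ => norm_nonneg _) (sum_norm_le b μ S)
  refine (norm_tsum_le_tsum_norm hs).trans ?_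
  rw [mul_comm]
  exact hs.tsum_le_of_sum_le (sum_norm_le b μ S)

theorem summable_ev (μ : Dual (KH b)) (S : H →L[ℂ] H) :
    Summable fun x => μ (rk b (S (b x)) (b x)) :=
  Summable.of_norm (summable_of_sum_le (fun _ => norm_nonneg _) (sum_norm_le b μ S))

/-- A bounded operator as an element of the bidual of `K(H)`. -/
def bop (S : H →L[ℂ] H) : Bidual (KH b) :=
  Bidual.mk (fun μ => ∑' x, μ (rk b (S (b x)) (b x)))
    (fun μ ν => by
      simp only [Dual.add_apply]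
      exact (summable_ev b μ S).tsum_add (summable_ev b ν S))
    (fun c μ => by
      simp only [Dual.smul_apply]
      exact tsum_mul_left)
    ‖S‖ (norm_tsum_ev_le b · S)

theorem bop_apply (S : H →L[ℂ] H) (μ : Dual (KH b)) :
    bop b S μ = ∑' x, μ (rk b (S (b x)) (b x)) := rfl

theorem bop_vf (S : H →L[ℂ] H) (ξ η : H) : bop b S (vf b ξ η) = inner ℂ ξ (S η) := by
  rw [bop_apply]
  have h1 : HasSum (fun x => b.repr η x • b x) η := b.hasSum_repr η
  have hc : Continuous fun ζ : H => inner ℂ ξ (S ζ) := by fun_prop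
  have h2 : HasSum (fun x => inner ℂ ξ (S (b.repr η x • b x))) (inner ℂ ξ (S η)) :=
    h1.mapL (innerSL ℂ ξ ∘L S)
  rw [← h2.tsum_eq]
  refine tsum_congr fun x => ?_
  rw [vf_apply]
  change inner ℂ ξ (rankOne ℂ (S (b x)) (b x) η) = _
  rw [rankOne_apply, b.repr_apply_apply, map_smul]

theorem norm_bop_le (S : H →L[ℂ] H) : ‖bop b S‖ ≤ ‖S‖ :=
  Bidual.norm_le _ _ (norm_nonneg _) fun μ => norm_tsum_ev_le b μ S

theorem Bidual.add_apply {A : Type} [NonUnitalCStarAlgebra A] (F G : Bidual A) (μ : Dual A) :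
    (F + G) μ = F μ + G μ := rfl

theorem Bidual.sub_apply {A : Type} [NonUnitalCStarAlgebra A] (F G : Bidual A) (μ : Dual A) :
    (F - G) μ = F μ - G μ := rfl

theorem Bidual.smul_apply {A : Type} [NonUnitalCStarAlgebra A] (c : ℂ) (F : Bidual A)
    (μ : Dual A) : (c • F) μ = c * F μ := rfl

theorem bop_add (S T : H →L[ℂ] H) : bop b (S + T) = bop b S + bop b T :=
  bidual_ext b fun ξ η => by
    rw [Bidual.add_apply, bop_vf, bop_vf, bop_vf, ← inner_add_right]; rfl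

theorem bop_sub (S T : H →L[ℂ] H) : bop b (S - T) = bop b S - bop b T :=
  bidual_ext b fun ξ η => by
    rw [Bidual.sub_apply, bop_vf, bop_vf, bop_vf, ← inner_sub_right]; rfl

theorem bop_smul (c : ℂ) (S : H →L[ℂ] H) : bop b (c • S) = c • bop b S :=
  bidual_ext b fun ξ η => by
    rw [Bidual.smul_apply, bop_vf, bop_vf, ← inner_smul_right]; rfl

theorem rmul_vf (ξ η : H) (a : KH b) : rmul (vf b ξ η) a = vf b ((star a.1) ξ) η :=
  Dual.ext fun c => by
    rw [rmul_apply, vf_apply, vf_apply, ContinuousLinearMap.star_eq_adjoint,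
      ContinuousLinearMap.adjoint_inner_left]; rfl

theorem act_bop_vf (S : H →L[ℂ] H) (ξ η : H) : act (bop b S) (vf b ξ η) = vf b ξ (S η) :=
  Dual.ext fun c => by
    rw [act_apply, rmul_vf, bop_vf, vf_apply, ContinuousLinearMap.star_eq_adjoint,
      ContinuousLinearMap.adjoint_inner_left]

theorem arens_bop (S T : H →L[ℂ] H) : arens (bop b S) (bop b T) = bop b (S * T) :=
  bidual_ext b fun ξ η => by
    rw [arens_apply, act_bop_vf, bop_vf, bop_vf]; rfl

theorem dstar_vf (ξ η : H) : dstar (vf b ξ η) = vf b η ξ :=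
  Dual.ext fun c => by
    rw [dstar_apply, vf_apply, vf_apply, inner_conj_symm]
    change inner ℂ ((star c.1) η) ξ = _
    rw [ContinuousLinearMap.star_eq_adjoint, ContinuousLinearMap.adjoint_inner_left]

theorem bstar_bop (S : H →L[ℂ] H) : bstar (bop b S) = bop b (star S) :=
  bidual_ext b fun ξ η => by
    rw [bstar_apply, dstar_vf, bop_vf, bop_vf, inner_conj_symm,
      ContinuousLinearMap.star_eq_adjoint, ContinuousLinearMap.adjoint_inner_right]

theorem emb_eq (a : KH b) : emb a = bop b a.1 :=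
  bidual_ext b fun ξ η => by rw [emb_apply, bop_vf, vf_apply]

theorem bop_injective {S T : H →L[ℂ] H} (h : bop b S = bop b T) : S = T := by
  ext η
  refine ext_inner_left ℂ fun ξ => ?_
  rw [← bop_vf, ← bop_vf, h]

/-- Every element of the bidual comes from a bounded operator. -/
theorem exists_bop (F : Bidual (KH b)) : ∃ S : H →L[ℂ] H, bop b S = F := by
  let B : H →L⋆[ℂ] H →L[ℂ] ℂ := LinearMap.mkContinuous₂
    (LinearMap.mk₂'ₛₗ (starRingEnd ℂ) (RingHom.id ℂ) (fun ξ η => F (vf b ξ η))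
      (fun x y z => by rw [vf_add_left, F.map_add])
      (fun c x y => by rw [vf_smul_left, F.map_smul]; rfl)
      (fun x y z => by rw [vf_add_right, F.map_add])
      (fun c x y => by rw [vf_smul_right, F.map_smul]; rfl)) ‖F‖ (fun x y => by
        rw [mul_assoc]
        exact (F.le_norm _).trans (mul_le_mul_of_nonneg_left (norm_vf_le b x y) (norm_nonneg _)))
  refine ⟨(ContinuousLinearMap.adjoint (continuousLinearMapOfBilin B)), bidual_ext b fun ξ η => ?_⟩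
  rw [bop_vf, ContinuousLinearMap.adjoint_inner_right, continuousLinearMapOfBilin_apply]
  rfl

theorem isMult_bop (S : H →L[ℂ] H) : IsMult (bop b S) := fun a =>
  ⟨⟨⟨S * a.1, mul_mem_KH b S a.2⟩, by rw [emb_eq, arens_bop, emb_eq]⟩,
    ⟨⟨a.1 * S, mul_mem_KH' b S a.2⟩, by rw [emb_eq, arens_bop, emb_eq]⟩⟩

theorem isUnit1_iff (e : Bidual (KH b)) : IsUnit1 e ↔ e = bop b 1 := by
  constructor
  · intro h
    have h1 := (h (bop b 1)).1
    obtain ⟨S, rfl⟩ := exists_bop b e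
    rw [arens_bop, mul_one] at h1
    exact h1
  · rintro rfl F
    obtain ⟨S, rfl⟩ := exists_bop b F
    rw [arens_bop, arens_bop, one_mul, mul_one]
    exact ⟨rfl, rfl⟩

/-! ### Strong convergence -/

theorem bop_tendsto {ι : Type} {l : Filter ι} (S : ι → H →L[ℂ] H) (S₀ : H →L[ℂ] H) (C : ℝ)
    (hC : ∀ i, ‖S i‖ ≤ C) (h : ∀ ξ, Tendsto (fun i => S i ξ) l (𝓝 (S₀ ξ))) (μ : Dual (KH b)) :
    Tendsto (fun i => bop b (S i) μ) l (𝓝 (bop b S₀ μ)) := by
  refine dual_induction b (fun μ => Tendsto (fun i => bop b (S i) μ) l (𝓝 (bop b S₀ μ)))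
    (fun ξ η => ?_) (fun μ ν h1 h2 => ?_) ?_ μ
  · simp only [bop_vf]
    exact tendsto_const_nhds.inner (h η)
  · simp only [Bidual.map_add]
    exact h1.add h2
  · refine isClosed_of_closure_subset fun μ hμ => ?_
    rw [Metric.mem_closure_iff] at hμ
    change Tendsto _ _ _
    rw [Metric.tendsto_nhds]
    intro ε hε
    set K := |C| + ‖S₀‖ + 1 with hK
    have hK0 : 0 < K := by positivity
    obtain ⟨ν, hν, hμν⟩ := hμ (ε / (3 * K)) (by positivity)
    have h3 : ∀ᶠ i in l, dist (bop b (S i) ν) (bop b S₀ ν) < ε / 3 :=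
      (Metric.tendsto_nhds.1 hν) _ (by positivity)
    filter_upwards [h3] with i hi
    rw [dist_eq_norm] at hi hμν ⊢
    have e : bop b (S i) μ - bop b S₀ μ = bop b (S i) (μ - ν) +
        (bop b (S i) ν - bop b S₀ ν) - bop b S₀ (μ - ν) := by
      have h4 : ∀ F : Bidual (KH b), F (μ - ν) = F μ - F ν := fun F => by
        rw [sub_eq_add_neg, F.map_add, show -ν = (-1 : ℂ) • ν by simp, F.map_smul]; ring
      rw [h4, h4]; ring
    have h5 : ‖bop b (S i) (μ - ν)‖ ≤ |C| * ‖μ - ν‖ :=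
      ((bop b (S i)).le_norm _).trans (mul_le_mul_of_nonneg_right
        ((norm_bop_le b _).trans ((hC i).trans (le_abs_self C))) (norm_nonneg _))
    have h6 : ‖bop b S₀ (μ - ν)‖ ≤ ‖S₀‖ * ‖μ - ν‖ :=
      ((bop b S₀).le_norm _).trans (mul_le_mul_of_nonneg_right (norm_bop_le b _) (norm_nonneg _))
    have h7 : (|C| + ‖S₀‖) * ‖μ - ν‖ ≤ ε / 3 := by
      have h8 : (|C| + ‖S₀‖) * ‖μ - ν‖ ≤ K * (ε / (3 * K)) :=
        mul_le_mul (by linarith) hμν.le (norm_nonneg _) hK0.le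
      have h9 : K * (ε / (3 * K)) = ε / 3 := by field_simp
      linarith
    rw [e]
    calc _ ≤ ‖bop b (S i) (μ - ν) + (bop b (S i) ν - bop b S₀ ν)‖ + ‖bop b S₀ (μ - ν)‖ :=
          norm_sub_le _ _
      _ ≤ ‖bop b (S i) (μ - ν)‖ + ‖bop b (S i) ν - bop b S₀ ν‖ + ‖bop b S₀ (μ - ν)‖ := by
          gcongr; exact norm_add_le _ _
      _ < ε := by nlinarith

theorem tendsto_mul_right {ι : Type} {l : Filter ι} (S : ι → H →L[ℂ] H) (S₀ : H →L[ℂ] H) (C : ℝ)
    (hC : ∀ i, ‖S i‖ ≤ C) (h : ∀ ξ, Tendsto (fun i => S i ξ) l (𝓝 (S₀ ξ))) (a : KH b) :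
    Tendsto (fun i => S i * a.1) l (𝓝 (S₀ * a.1)) := by
  rw [Metric.tendsto_nhds]
  intro ε hε
  set K := |C| + ‖S₀‖ + 1 with hK
  have hK0 : 0 < K := by positivity
  obtain ⟨G, hG⟩ := Filter.eventually_atTop.1 ((tendsto_fp_mul_of_mem b a.2).eventually
    (Metric.ball_mem_nhds _ (show 0 < ε / (3 * K) by positivity)))
  have hG' := hG G le_rfl
  rw [dist_comm, dist_eq_norm] at hG'
  have h1 : Tendsto (fun i => S i * (fp b G * a.1)) l (𝓝 (S₀ * (fp b G * a.1))) := by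
    have e : ∀ T : H →L[ℂ] H, T * (fp b G * a.1) = (∑ x ∈ G, rankOne ℂ (T (b x)) (b x)) * a.1 := by
      intro T
      rw [← mul_assoc, fp, Finset.mul_sum]
      simp only [mul_rk]
    simp only [e]
    refine Tendsto.mul_const _ (tendsto_finsetSum _ fun x _ => ?_)
    have hc : Continuous fun ζ : H => (rankOne ℂ ζ (b x) : H →L[ℂ] H) :=
      ((rankOne ℂ : H →L[ℂ] H →L⋆[ℂ] H →L[ℂ] H).flip (b x)).continuous
    exact (hc.tendsto _).comp (h (b x))
  filter_upwards [(Metric.tendsto_nhds.1 h1) (ε / 3) (by positivity)] with i hi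
  rw [dist_eq_norm] at hi ⊢
  have e : S i * a.1 - S₀ * a.1 = S i * (a.1 - fp b G * a.1) +
      (S i * (fp b G * a.1) - S₀ * (fp b G * a.1)) - S₀ * (a.1 - fp b G * a.1) := by
    rw [mul_sub, mul_sub]; abel
  have h5 : ‖S i * (a.1 - fp b G * a.1)‖ ≤ |C| * ‖a.1 - fp b G * a.1‖ :=
    (norm_mul_le _ _).trans (mul_le_mul_of_nonneg_right ((hC i).trans (le_abs_self C))
      (norm_nonneg _))
  have h6 : ‖S₀ * (a.1 - fp b G * a.1)‖ ≤ ‖S₀‖ * ‖a.1 - fp b G * a.1‖ := norm_mul_le _ _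
  have h7 : (|C| + ‖S₀‖) * ‖a.1 - fp b G * a.1‖ ≤ ε / 3 := by
    have h8 : (|C| + ‖S₀‖) * ‖a.1 - fp b G * a.1‖ ≤ K * (ε / (3 * K)) :=
      mul_le_mul (by linarith) hG'.le (norm_nonneg _) hK0.le
    have h9 : K * (ε / (3 * K)) = ε / 3 := by field_simp
    linarith
  rw [e]
  calc _ ≤ ‖S i * (a.1 - fp b G * a.1) + (S i * (fp b G * a.1) - S₀ * (fp b G * a.1))‖ +
        ‖S₀ * (a.1 - fp b G * a.1)‖ := norm_sub_le _ _
    _ ≤ ‖S i * (a.1 - fp b G * a.1)‖ + ‖S i * (fp b G * a.1) - S₀ * (fp b G * a.1)‖ +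
        ‖S₀ * (a.1 - fp b G * a.1)‖ := by gcongr; exact norm_add_le _ _
    _ < ε := by nlinarith

end Pool.Agent.Lib.MP_43823f_an
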