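import Pool.Agent.Lib.MP_43823f_an.Index

set_option autoImplicit false
set_option linter.unusedSectionVars false

/-!
# The group of signed permutations
-/

open Filter Topology InnerProductSpace

noncomputable section

namespace Pool.Agent.Lib.MP_43823f_an

/-- Relations of the group. -/
structure Rel (G : Type) [Group G] (T : V → G) (D : G) (M : ℕ → G) : Prop where
  T_add : ∀ v w, T (v + w) = T v * T w
  D_T : ∀ v, D * T v = T (sh 1 v) * D
  M_T : ∀ k v, M k * T v = T (v + sh ((k : ℤ) + 1) v) * M k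
  M_sq : ∀ k, M k * M k = M (2 * k + 1)
  M_comm : ∀ k l, M k * M l = M l * M k
  M_D : ∀ k, M k * D = D * M k

theorem Rel.map {G G' : Type} [Group G] [Group G'] {T : V → G} {D : G} {M : ℕ → G}
    (h : Rel G T D M) (f : G →* G') : Rel G' (fun v => f (T v)) (f D) (fun k => f (M k)) where
  T_add v w := by rw [h.T_add, map_mul]
  D_T v := by rw [← map_mul, h.D_T, map_mul]
  M_T k v := by rw [← map_mul, h.M_T, map_mul]
  M_sq k := by rw [← map_mul, h.M_sq]
  M_comm k l := by rw [← map_mul, h.M_comm, map_mul]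
  M_D k := by rw [← map_mul, h.M_D, map_mul]

section abstractRel

variable {G : Type} [Group G] {T : V → G} {D : G} {M : ℕ → G}

theorem Rel.T_zero (h : Rel G T D M) : T 0 = 1 := by
  have := h.T_add 0 0
  rw [add_zero] at this
  exact (mul_eq_left.1 this.symm)

theorem Rel.T_mul_self (h : Rel G T D M) (v : V) : T v * T v = 1 := by
  rw [← h.T_add, add_self_V, h.T_zero]

theorem Rel.T_inv (h : Rel G T D M) (v : V) : (T v)⁻¹ = T v := by
  rw [inv_eq_iff_mul_eq_one, h.T_mul_self]

theorem Rel.T_comm (h : Rel G T D M) (v w : V) : T v * T w = T w * T v := by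
  rw [← h.T_add, add_comm, h.T_add]

theorem Rel.Dinv_T (h : Rel G T D M) (v : V) : D⁻¹ * T v = T (sh (-1) v) * D⁻¹ := by
  rw [inv_mul_eq_iff_eq_mul, ← mul_assoc, h.D_T, sh_add', add_neg_cancel, sh_zero', mul_assoc,
    mul_inv_cancel, mul_one]

theorem Rel.Dpow_T (h : Rel G T D M) (n : ℤ) (v : V) : D ^ n * T v = T (sh n v) * D ^ n := by
  induction n using Int.induction_on generalizing v with
  | zero => rw [zpow_zero, sh_zero', one_mul, mul_one]
  | succ n ih =>
    rw [zpow_add_one, mul_assoc, h.D_T, ← mul_assoc, ih, sh_add', mul_assoc]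
  | pred n ih =>
    rw [zpow_sub_one, mul_assoc, h.Dinv_T, ← mul_assoc, ih, sh_add', mul_assoc]; rfl

theorem Rel.M_Dpow (h : Rel G T D M) (k : ℕ) (n : ℤ) : M k * D ^ n = D ^ n * M k :=
  (show Commute (M k) D from h.M_D k).zpow_right n

end abstractRel

/-! ### The concrete representation -/

section model

variable {H : Type} [NormedAddCommGroup H] [InnerProductSpace ℂ H] [CompleteSpace H]
  (b : HilbertBasis (ℤ × P) ℂ H)

/-- the permutation of `T v` -/
def permT (v : V) : (ℤ × P) ≃ (ℤ × P) where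
  toFun x := (x.1, x.2 + red x.1 v)
  invFun x := (x.1, x.2 + red x.1 v)
  left_inv x := by
    simp only [add_assoc, add_self_P, add_zero]
  right_inv x := by
    simp only [add_assoc, add_self_P, add_zero]

/-- the permutation of `D` -/
def permD : (ℤ × P) ≃ (ℤ × P) where
  toFun x := (x.1 + 1, x.2)
  invFun x := (x.1 - 1, x.2)
  left_inv x := by simp
  right_inv x := by simp

/-- the permutation of `M k` -/
def permM (k : ℕ) : (ℤ × P) ≃ (ℤ × P) :=
  Equiv.prodCongr (Equiv.refl ℤ) (Equiv.ofBijective (mk' k) (mk'_bijective k))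

/-- `T v` -/
def uT (v : V) : unitary (H →L[ℂ] H) := sperm b (permT v) (fun x => sgn (v x.1)) fun _ => norm_sgn _

/-- `D` -/
def uD : unitary (H →L[ℂ] H) := sperm b permD (fun _ => 1) fun _ => norm_one

/-- `M k`, which multiplies by `1 + t ^ (k + 1)` -/
def uM (k : ℕ) : unitary (H →L[ℂ] H) :=
  sperm b (permM k) (fun x => sgn (x.2 k)) fun _ => norm_sgn _

theorem uT_apply (v : V) (n : ℤ) (c : P) :
    (uT b v).1 (b (n, c)) = sgn (v n) • b (n, c + red n v) := sperm_apply _ _ _ _ _

theorem uD_apply (n : ℤ) (c : P) : (uD b).1 (b (n, c)) = b (n + 1, c) :=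
  (sperm_apply _ _ _ _ _).trans (one_smul _ _)

theorem uM_apply (k : ℕ) (n : ℤ) (c : P) :
    (uM b k).1 (b (n, c)) = sgn (c k) • b (n, mk' k c) := sperm_apply _ _ _ _ _

theorem unitary_ext {u w : unitary (H →L[ℂ] H)} (h : ∀ n c, u.1 (b (n, c)) = w.1 (b (n, c))) :
    u = w := Subtype.ext (basis_ext b fun x => h x.1 x.2)

theorem unitary_mul_apply (u w : unitary (H →L[ℂ] H)) (ξ : H) : (u * w).1 ξ = u.1 (w.1 ξ) := rfl

theorem rel_model : Rel (unitary (H →L[ℂ] H)) (uT b) (uD b) (uM b) where
  T_add v w := unitary_ext b fun n c => by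
    rw [unitary_mul_apply, uT_apply, uT_apply, map_smul, uT_apply, smul_smul, Finsupp.add_apply,
      sgn_add, mul_comm, map_add, add_assoc, add_comm (red n v)]
  D_T v := unitary_ext b fun n c => by
    rw [unitary_mul_apply, unitary_mul_apply, uT_apply, map_smul, uD_apply, uD_apply, uT_apply,
      red_sh_one, sh_apply, add_sub_cancel_right]
  M_T k v := unitary_ext b fun n c => by
    rw [unitary_mul_apply, unitary_mul_apply, uT_apply, map_smul, uM_apply, uM_apply, map_smul,
      uT_apply, smul_smul, smul_smul, Finsupp.add_apply, sgn_add, mk'_add, map_add,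
      show ((k : ℤ) + 1) = ((k + 1 : ℕ) : ℤ) by push_cast; ring, red_sh, Finsupp.add_apply,
      sgn_add, red_apply, sh_apply]
    have e : n - 1 - (k : ℤ) = n - ((k + 1 : ℕ) : ℤ) := by push_cast; ring
    rw [e]
    congr 1
    ring
  M_sq k := unitary_ext b fun n c => by
    rw [unitary_mul_apply, uM_apply, map_smul, uM_apply, uM_apply, smul_smul, mk'_sq]
    congr 1
    rw [mk', Finsupp.add_apply, sgn_add, ← mul_assoc, sgn_mul_self, one_mul, shp_apply]
    congr 2; ring
  M_comm k l := unitary_ext b fun n c => by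
    rw [unitary_mul_apply, unitary_mul_apply, uM_apply, uM_apply, map_smul, map_smul, uM_apply,
      uM_apply, smul_smul, smul_smul, mk'_comm]
    congr 1
    rw [mk', mk', Finsupp.add_apply, Finsupp.add_apply, sgn_add, sgn_add, shp_apply, shp_apply,
      show k + (l + 1) = l + (k + 1) by ring]
    ring
  M_D k := unitary_ext b fun n c => by
    rw [unitary_mul_apply, unitary_mul_apply, uD_apply, uM_apply, uM_apply, map_smul, uD_apply]

theorem uDpow_apply (m n : ℤ) (c : P) : ((uD b) ^ m).1 (b (n, c)) = b (n + m, c) := by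
  induction m using Int.induction_on generalizing n with
  | zero => rw [zpow_zero, add_zero]; rfl
  | succ m ih =>
    rw [zpow_add_one, unitary_mul_apply, uD_apply, ih]
    congr 2; ring
  | pred m ih =>
    rw [zpow_sub_one, unitary_mul_apply]
    have h1 : ((uD b)⁻¹).1 (b (n, c)) = b (n - 1, c) := by
      have h2 : (uD b).1 (b (n - 1, c)) = b (n, c) := by
        rw [uD_apply, sub_add_cancel]
      rw [← h2, ← unitary_mul_apply, inv_mul_cancel]; rfl
    rw [h1, ih]
    congr 2; ring

/-- the element that moves the basis vector `(0, 0)` to `x` -/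
def gx (x : ℤ × P) : unitary (H →L[ℂ] H) := uT b (iot x.1 x.2) * (uD b) ^ x.1

theorem gx_apply (x : ℤ × P) : (gx b x).1 (b (0, 0)) = b x := by
  rw [gx, unitary_mul_apply, uDpow_apply, zero_add, uT_apply, iot_apply_of_le _ _ _ le_rfl,
    sgn_zero, one_smul, red_iot, zero_add]

end model

end Pool.Agent.Lib.MP_43823f_an
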