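import Pool.Agent.Lib.MP_43823f_an.WC

set_option autoImplicit false
set_option linter.unusedSectionVars false

/-!
# The idempotent state and its support
-/

open Filter Topology InnerProductSpace

noncomputable section

namespace Pool.Agent.Lib.MP_43823f_an

variable {H : Type} [NormedAddCommGroup H] [InnerProductSpace ℂ H] [CompleteSpace H]
  (b : HilbertBasis (ℤ × P) ℂ H)
  {K : Type} [NormedAddCommGroup K] [InnerProductSpace ℂ K] [CompleteSpace K]
  (U : HT H K ≃ₗᵢ[ℂ] HT H H)

/-- the index of the `n`-th vector -/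
def ix (n : ℕ) : ℤ × P := (-((n : ℤ) + 1), 0)

theorem ix_inj : Function.Injective ix := by
  intro n m h
  have : -((n : ℤ) + 1) = -((m : ℤ) + 1) := congrArg Prod.fst h
  omega

/-- the weights -/
def wt (n : ℕ) : ℂ := ((1 / 2 : ℝ) ^ (n + 1) : ℝ)

theorem wt_hasSum : HasSum (fun n : ℕ => (1 / 2 : ℝ) ^ (n + 1)) 1 := by
  have h := (hasSum_geometric_two).mul_left (1 / 2 : ℝ)
  have e : ∀ n : ℕ, (1 / 2 : ℝ) * (1 / 2) ^ n = (1 / 2) ^ (n + 1) := fun n => by
    rw [pow_succ]; ring
  have e2 : (1 / 2 : ℝ) * 2 = 1 := by norm_num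
  simp only [e] at h
  rwa [e2] at h

theorem wt_hasSum_complex : HasSum wt 1 := by
  have h2 := (Complex.hasSum_ofReal (f := fun n : ℕ => (1 / 2 : ℝ) ^ (n + 1)) (x := 1)).2 wt_hasSum
  rw [Complex.ofReal_one] at h2
  exact h2

instance completeSpace_dual (A : Type) [NonUnitalCStarAlgebra A] : CompleteSpace (Dual A) :=
  (inferInstance : CompleteSpace (A →L[ℂ] ℂ))

theorem norm_basis (x : ℤ × P) : ‖b x‖ = 1 := b.orthonormal.1 x

theorem norm_term_le (n : ℕ) :
    ‖wt n • vf b (b (ix n)) (b (ix n))‖ ≤ (1 / 2 : ℝ) ^ (n + 1) := by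
  rw [norm_smul, wt, Complex.norm_real, Real.norm_of_nonneg (by positivity)]
  have h := norm_vf_le b (b (ix n)) (b (ix n))
  rw [norm_basis, one_mul] at h
  exact mul_le_of_le_one_right (by positivity) h

/-- The state. -/
def om : Dual (KH b) := ∑' n, wt n • vf b (b (ix n)) (b (ix n))

theorem om_hasSum : HasSum (fun n => wt n • vf b (b (ix n)) (b (ix n))) (om b) :=
  (Summable.of_norm_bounded wt_hasSum.summable (norm_term_le b)).hasSum

theorem bop_om (S : H →L[ℂ] H) :
    HasSum (fun n => wt n * inner ℂ (b (ix n)) (S (b (ix n)))) (bop b S (om b)) := by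
  have h := (om_hasSum b).mapL (bop b S : Dual (KH b) →L[ℂ] ℂ)
  have e : (fun n => wt n * inner ℂ (b (ix n)) (S (b (ix n)))) =
      fun n => (bop b S : Dual (KH b) →L[ℂ] ℂ) (wt n • vf b (b (ix n)) (b (ix n))) := by
    funext n
    have e1 := Bidual.map_smul (bop b S) (wt n) (vf b (b (ix n)) (b (ix n)))
    rw [bop_vf] at e1
    exact e1.symm
  rw [e]; exact h

theorem om_apply (a : KH b) :
    HasSum (fun n => wt n * inner ℂ (b (ix n)) (a.1 (b (ix n)))) (om b a) := by
  rw [← emb_apply, emb_eq]; exact bop_om b a.1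

theorem inner_basis (x : ℤ × P) : inner ℂ (b x) (b x) = (1 : ℂ) := by
  rw [inner_self_eq_norm_sq_to_K, norm_basis]; simp

theorem bop_one_om : bop b 1 (om b) = 1 := by
  have h := bop_om b 1
  simp only [one_apply_eq_self, inner_basis, mul_one] at h
  exact h.unique wt_hasSum_complex

theorem norm_om : ‖om b‖ = 1 := by
  refine le_antisymm ?_ ?_
  · have h := tsum_of_norm_bounded wt_hasSum (norm_term_le b)
    exact h
  · have h := (bop b 1).le_norm (om b)
    rw [bop_one_om, norm_one] at h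
    have h2 : ‖bop b (1 : H →L[ℂ] H)‖ ≤ 1 := (norm_bop_le b 1).trans ContinuousLinearMap.norm_id_le
    have h3 : ‖bop b (1 : H →L[ℂ] H)‖ * ‖om b‖ ≤ 1 * ‖om b‖ :=
      mul_le_mul_of_nonneg_right h2 (norm_nonneg _)
    linarith

theorem inner_star_mul (c : H →L[ℂ] H) (ξ : H) :
    inner ℂ ξ ((star c * c) ξ) = ((‖c ξ‖ ^ 2 : ℝ) : ℂ) := by
  rw [mul_apply_eq_comp, ContinuousLinearMap.star_eq_adjoint,
    ContinuousLinearMap.adjoint_inner_right, inner_self_eq_norm_sq_to_K]
  push_cast; rfl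

theorem isState_om : IsState (om b) := by
  refine ⟨norm_om b, ?_⟩
  rintro _ ⟨c, rfl⟩
  have h := om_apply b (star c * c)
  have e : ∀ n, wt n * inner ℂ (b (ix n)) ((star c * c).1 (b (ix n))) =
      (((1 / 2 : ℝ) ^ (n + 1) * ‖c.1 (b (ix n))‖ ^ 2 : ℝ) : ℂ) := by
    intro n
    change wt n * inner ℂ (b (ix n)) ((star c.1 * c.1) (b (ix n))) = _
    rw [inner_star_mul, wt, ← Complex.ofReal_mul]
  simp only [e] at h
  refine ⟨∑' n, (1 / 2 : ℝ) ^ (n + 1) * ‖c.1 (b (ix n))‖ ^ 2, tsum_nonneg fun n => by positivity, ?_⟩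
  rw [← h.tsum_eq, Complex.ofReal_tsum]

/-- The values on the monoid are `0` or `1`. -/
theorem bop_om_Gm {u : unitary (H →L[ℂ] H)} (hu : u ∈ Gm b) :
    bop b u.1 (om b) = 0 ∨ bop b u.1 (om b) = 1 := by
  obtain ⟨v, k, m, hm, rfl⟩ := Gm_normal b hu
  have h := bop_om b (uT b v * uD b ^ k * m).1
  have e : ∀ n : ℕ, (uT b v * uD b ^ k * m).1 (b (ix n)) =
      sgn (v (-((n : ℤ) + 1) + k)) • b (-((n : ℤ) + 1) + k, red (-((n : ℤ) + 1) + k) v) := by
    intro n
    rw [← u_mul, ← u_mul, ix, Mm_apply b hm, uDpow_apply, uT_apply, zero_add]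
  simp only [e, inner_smul_right] at h
  by_cases hk : k = 0
  · subst hk
    simp only [add_zero] at h
    by_cases hv : ∀ j < 0, v j = 0
    · right
      have e2 : ∀ n : ℕ, wt n * (sgn (v (-((n : ℤ) + 1))) *
          inner ℂ (b (ix n)) (b (-((n : ℤ) + 1), red (-((n : ℤ) + 1)) v))) = wt n := by
        intro n
        have h1 : red (-((n : ℤ) + 1)) v = 0 := by
          ext i; rw [red_apply]; exact hv _ (by omega)
        rw [h1, hv _ (by omega), sgn_zero, one_mul]
        change wt n * inner ℂ (b (ix n)) (b (ix n)) = _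
        rw [inner_basis, mul_one]
      simp only [e2] at h
      exact h.unique wt_hasSum_complex
    · left
      push Not at hv
      obtain ⟨j, hj, hvj⟩ := hv
      -- the smallest element of the support
      have hne : v.support.Nonempty := ⟨j, Finsupp.mem_support_iff.2 hvj⟩
      set j₀ := v.support.min' hne with hj₀
      have hj0 : j₀ ≤ j := Finset.min'_le _ _ (Finsupp.mem_support_iff.2 hvj)
      have hvj0 : v j₀ = 1 :=
        (zmod2 _).resolve_left (Finsupp.mem_support_iff.1 (Finset.min'_mem _ hne))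
      have hlt : ∀ i < j₀, v i = 0 := by
        intro i hi
        by_contra h
        have := Finset.min'_le _ i (Finsupp.mem_support_iff.2 h)
        omega
      obtain ⟨N, hN⟩ : ∃ N : ℕ, j₀ = -((N : ℤ) + 1) := ⟨(-j₀ - 1).toNat, by omega⟩
      set f : ℕ → ℂ := fun n => wt n * (sgn (v (-((n : ℤ) + 1))) *
          inner ℂ (b (ix n)) (b (-((n : ℤ) + 1), red (-((n : ℤ) + 1)) v))) with hf
      have f1 : ∀ n < N, f n = 0 := by
        intro n hn
        have h1 : inner ℂ (b (ix n)) (b (-((n : ℤ) + 1), red (-((n : ℤ) + 1)) v)) = (0 : ℂ) := by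
          refine b.orthonormal.2 fun h2 => ?_
          have h3 : (0 : P) = red (-((n : ℤ) + 1)) v := congrArg Prod.snd h2
          have h4 := DFunLike.congr_fun h3 (N - n - 1)
          rw [red_apply, show -((n : ℤ) + 1) - 1 - ((N - n - 1 : ℕ) : ℤ) = j₀ by omega, hvj0] at h4
          exact zero_ne_one h4
        simp only [hf]; rw [h1, mul_zero, mul_zero]
      have hred : ∀ n, N ≤ n → red (-((n : ℤ) + 1)) v = 0 := by
        intro n hn
        ext i; rw [red_apply]; exact hlt _ (by omega)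
      have f2 : f N = -wt N := by
        simp only [hf]
        rw [hred N le_rfl, ← hN, hvj0, sgn_one]
        have : inner ℂ (b (ix N)) (b (j₀, 0)) = (1 : ℂ) := by
          rw [hN]; exact inner_basis b (ix N)
        rw [this]; ring
      have f3 : ∀ n, N < n → f n = wt n := by
        intro n hn
        simp only [hf]
        rw [hred n hn.le, hlt _ (by omega), sgn_zero, one_mul]
        change wt n * inner ℂ (b (ix n)) (b (ix n)) = _
        rw [inner_basis, mul_one]
      have hs : Summable f := h.summable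
      have h5 := hs.sum_add_tsum_nat_add (N + 1)
      rw [h.tsum_eq] at h5
      rw [← h5, Finset.sum_range_succ, Finset.sum_eq_zero (fun n hn => f1 n (Finset.mem_range.1 hn)),
        f2, zero_add]
      have h6 : ∀ i : ℕ, f (i + (N + 1)) = ((1 / 2 : ℝ) ^ (N + 1) : ℝ) * wt i := by
        intro i
        rw [f3 _ (by omega), wt, wt, ← Complex.ofReal_mul]
        congr 1
        rw [← pow_add]; congr 1; ring
      simp only [h6]
      rw [tsum_mul_left, wt_hasSum_complex.tsum_eq, mul_one, wt]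
      ring
  · left
    have e2 : ∀ n : ℕ, wt n * (sgn (v (-((n : ℤ) + 1) + k)) *
          inner ℂ (b (ix n)) (b (-((n : ℤ) + 1) + k, red (-((n : ℤ) + 1) + k) v))) = 0 := by
      intro n
      rw [b.orthonormal.2 (fun h2 => hk ?_), mul_zero, mul_zero]
      have h3 : -((n : ℤ) + 1) = -((n : ℤ) + 1) + k := congrArg Prod.fst h2
      omega
    simp only [e2] at h
    exact h.unique hasSum_zero

theorem isIdempotent_om (hU : ∀ u ∈ Gm b, u ∈ GLike U) : IsIdempotent (qs b U hU) (om b) := by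
  have h : conv b U (om b) (om b) = om b := eq_of_Gm b fun u hu => by
    rw [bop_conv_of_mem b U (hU u hu)]
    rcases bop_om_Gm b hu with h | h <;> rw [h] <;> simp
  intro a
  exact congrArg (fun φ : Dual (KH b) => φ a) h

/-! ### The support projection -/

/-- the support space -/
def Es : Submodule ℂ H := (Submodule.span ℂ (Set.range fun n => b (ix n))).topologicalClosure

theorem isClosed_Es : IsClosed (Es b : Set H) := Submodule.isClosed_topologicalClosure _

instance : CompleteSpace (Es b) := (isClosed_Es b).completeSpace_coe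

/-- the projection onto the support space -/
def Pe : H →L[ℂ] H := (Es b).starProjection

theorem Pe_of_mem {ξ : H} (h : ξ ∈ Es b) : Pe b ξ = ξ := Submodule.starProjection_eq_self_iff.2 h

theorem Pe_mem (ξ : H) : Pe b ξ ∈ Es b := Submodule.starProjection_apply_mem _ _

theorem mem_Es (n : ℕ) : b (ix n) ∈ Es b :=
  Submodule.le_topologicalClosure _ (Submodule.subset_span ⟨n, rfl⟩)

theorem Pe_ix (n : ℕ) : Pe b (b (ix n)) = b (ix n) := Pe_of_mem b (mem_Es b n)

theorem Pe_of_ne {x : ℤ × P} (hx : ∀ n, x ≠ ix n) : Pe b (b x) = 0 := by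
  refine (Submodule.starProjection_apply_eq_zero_iff (Es b)).2 ?_
  rw [Es, Submodule.orthogonal_closure, Submodule.mem_orthogonal]
  intro w hw
  induction hw using Submodule.span_induction with
  | mem w hw =>
    obtain ⟨n, rfl⟩ := hw
    exact b.orthonormal.2 (Ne.symm (hx n))
  | zero => exact inner_zero_left _
  | add x y _ _ hx hy => rw [inner_add_left, hx, hy, add_zero]
  | smul k x _ hx => rw [inner_smul_left, hx, mul_zero]

theorem Pe_idem : Pe b * Pe b = Pe b := by
  ext ξ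
  rw [mul_apply_eq_comp]
  exact Pe_of_mem b (Pe_mem b ξ)

theorem Pe_star : star (Pe b) = Pe b := by
  rw [ContinuousLinearMap.star_eq_adjoint]
  symm
  refine (ContinuousLinearMap.eq_adjoint_iff _ _).2 fun ξ η => ?_
  exact Submodule.inner_starProjection_left_eq_right _ _ _

theorem isProj_bop {S : H →L[ℂ] H} (h1 : S * S = S) (h2 : star S = S) : IsProj (bop b S) :=
  ⟨by rw [arens_bop, h1], by rw [bstar_bop, h2]⟩

open Classical in
theorem fpf_tendsto (ξ : H) : Tendsto
    (fun F : Finset (ℤ × P) => fp b (F.filter fun x => ∀ n, x ≠ ix n) ξ) atTop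
    (𝓝 ((1 - Pe b) ξ)) := by
  refine tendsto_of_basis b _ _ 1 (fun F => norm_fp_le b _) (fun x => ?_) ξ
  by_cases hx : ∀ n, x ≠ ix n
  · rw [sub_apply, Pe_of_ne b hx, sub_zero]
    refine tendsto_const_nhds.congr' ?_
    filter_upwards [eventually_ge_atTop ({x} : Finset (ℤ × P))] with F hF
    rw [fp_basis_of_mem b _ x (Finset.mem_filter.2 ⟨hF (Finset.mem_singleton_self x), hx⟩)]
    rfl
  · push Not at hx
    obtain ⟨n, rfl⟩ := hx
    rw [sub_apply, Pe_ix]
    have e : (1 : H →L[ℂ] H) (b (ix n)) - b (ix n) = 0 := sub_self _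
    rw [e]
    refine tendsto_const_nhds.congr fun F => ?_
    rw [fp_basis_of_notMem]
    intro h
    exact (Finset.mem_filter.1 h).2 n rfl

theorem isOpenProj : IsOpenProj (bop b (1 - Pe b)) := by
  classical
  have hq1 : (1 - Pe b) * (1 - Pe b) = 1 - Pe b := by
    simp only [mul_sub, sub_mul, mul_one, one_mul, Pe_idem]; abel
  have hq2 : star (1 - Pe b) = 1 - Pe b := by rw [star_sub, star_one, Pe_star]
  refine ⟨isProj_bop b hq1 hq2, Finset (ℤ × P), inferInstance, inferInstance,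
    fun F => ⟨fp b (F.filter fun x => ∀ n, x ≠ ix n), fp_mem b _⟩, fun F G =>
      ⟨F ∪ G, Finset.subset_union_left, Finset.subset_union_right⟩, fun F => ?_, fun F G hFG => ?_,
    fun μ => ?_⟩
  · refine ⟨⟨fp b (F.filter fun x => ∀ n, x ≠ ix n), fp_mem b _⟩, Subtype.ext ?_⟩
    change _ = star (fp b _) * fp b _
    rw [fp_star, fp_idem]
  · refine ⟨⟨fp b (G.filter fun x => ∀ n, x ≠ ix n), fp_mem b _⟩ -
      ⟨fp b (F.filter fun x => ∀ n, x ≠ ix n), fp_mem b _⟩, Subtype.ext ?_⟩
    change fp b _ - fp b _ = star (fp b _ - fp b _) * (fp b _ - fp b _)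
    have hs : F.filter (fun x => ∀ n, x ≠ ix n) ⊆ G.filter fun x => ∀ n, x ≠ ix n :=
      Finset.filter_subset_filter _ hFG
    rw [star_sub, fp_star, fp_star, sub_mul, mul_sub, mul_sub, fp_idem, fp_idem,
      fp_comp_of_subset b hs, fp_comp_of_subset' b hs]
    abel
  · have e : ∀ F : Finset (ℤ × P), arens (bstar (bop b (1 - Pe b) -
        emb (⟨fp b (F.filter fun x => ∀ n, x ≠ ix n), fp_mem b _⟩ : KH b)))
        (bop b (1 - Pe b) - emb (⟨fp b (F.filter fun x => ∀ n, x ≠ ix n), fp_mem b _⟩ : KH b)) =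
        bop b (star ((1 - Pe b) - fp b (F.filter fun x => ∀ n, x ≠ ix n)) *
          ((1 - Pe b) - fp b (F.filter fun x => ∀ n, x ≠ ix n))) := by
      intro F
      rw [emb_eq, ← bop_sub, bstar_bop, arens_bop]
    simp only [e]
    have h0 : bop b (0 : H →L[ℂ] H) μ = 0 := by rw [bop_zero]; rfl
    rw [← h0]
    have hPe : ‖Pe b‖ ≤ 1 := Submodule.starProjection_norm_le _
    have hn : ∀ F : Finset (ℤ × P), ‖(1 - Pe b) - fp b (F.filter fun x => ∀ n, x ≠ ix n)‖ ≤ 3 := by
      intro F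
      have h1 : ‖(1 : H →L[ℂ] H)‖ ≤ 1 := ContinuousLinearMap.norm_id_le
      have h2 := norm_sub_le (1 - Pe b) (fp b (F.filter fun x => ∀ n, x ≠ ix n))
      have h3 := norm_sub_le (1 : H →L[ℂ] H) (Pe b)
      have h4 := norm_fp_le b (F.filter fun x => ∀ n, x ≠ ix n)
      linarith
    refine bop_tendsto b _ _ (3 * 3) (fun F => ?_) (fun ξ => ?_) μ
    · refine (norm_mul_le _ _).trans ?_
      rw [norm_star]
      exact mul_le_mul (hn F) (hn F) (norm_nonneg _) (by norm_num)
    · have h1 : Tendsto (fun F : Finset (ℤ × P) =>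
          ((1 - Pe b) - fp b (F.filter fun x => ∀ n, x ≠ ix n)) ξ) atTop (𝓝 0) := by
        have h2 := (tendsto_const_nhds (x := (1 - Pe b) ξ)).sub (fpf_tendsto b ξ)
        rw [sub_self] at h2
        exact h2
      rw [tendsto_zero_iff_norm_tendsto_zero] at h1
      have h3 : (0 : H →L[ℂ] H) ξ = 0 := rfl
      rw [h3, tendsto_zero_iff_norm_tendsto_zero]
      refine squeeze_zero (fun F => norm_nonneg _) (fun F => ?_) (g := fun F : Finset (ℤ × P) =>
        3 * ‖((1 - Pe b) - fp b (F.filter fun x => ∀ n, x ≠ ix n)) ξ‖) ?_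
      · rw [mul_apply_eq_comp]
        refine (ContinuousLinearMap.le_opNorm _ _).trans ?_
        rw [norm_star]
        exact mul_le_mul_of_nonneg_right (hn F) (norm_nonneg _)
      · have := h1.const_mul 3
        rwa [mul_zero] at this

theorem isClosedProj : IsClosedProj (bop b (Pe b)) :=
  ⟨isProj_bop b (Pe_idem b) (Pe_star b), bop b 1, (isUnit1_iff b _).2 rfl, by
    rw [← bop_sub]; exact isOpenProj b⟩

theorem bop_Pe_om : bop b (Pe b) (om b) = 1 := by
  have h := bop_om b (Pe b)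
  simp only [Pe_ix, inner_basis, mul_one] at h
  exact h.unique wt_hasSum_complex

theorem norm_le_of_proj {S : H →L[ℂ] H} (h1 : S * S = S) (h2 : star S = S) (ξ : H) :
    inner ℂ ξ (S ξ) = ((‖S ξ‖ ^ 2 : ℝ) : ℂ) ∧ ‖ξ - S ξ‖ ^ 2 = ‖ξ‖ ^ 2 - ‖S ξ‖ ^ 2 := by
  have e : inner ℂ ξ (S ξ) = ((‖S ξ‖ ^ 2 : ℝ) : ℂ) := by
    have h3 : S = star S * S := by rw [h2, h1]
    conv_lhs => rw [h3]
    exact inner_star_mul S ξ
  refine ⟨e, ?_⟩
  have h3 := norm_sub_sq (𝕜 := ℂ) ξ (S ξ)
  rw [e] at h3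
  have h4 : RCLike.re (((‖S ξ‖ ^ 2 : ℝ) : ℂ)) = ‖S ξ‖ ^ 2 := Complex.ofReal_re _
  rw [h4] at h3
  linarith

theorem isSupport : IsSupport (om b) (bop b (Pe b)) := by
  refine ⟨isClosedProj b, bop_Pe_om b, fun p' hp' h1 => ?_⟩
  obtain ⟨S, rfl⟩ := exists_bop b p'
  have hS1 : S * S = S := bop_injective b (by rw [← arens_bop]; exact hp'.1.1)
  have hS2 : star S = S := bop_injective b (by rw [← bstar_bop]; exact hp'.1.2)
  have h2 := bop_om b S
  rw [h1] at h2
  have e : ∀ n, wt n * inner ℂ (b (ix n)) (S (b (ix n))) =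
      (((1 / 2 : ℝ) ^ (n + 1) * ‖S (b (ix n))‖ ^ 2 : ℝ) : ℂ) := fun n => by
    rw [(norm_le_of_proj hS1 hS2 _).1, wt, ← Complex.ofReal_mul]
  simp only [e] at h2
  have h3 : HasSum (fun n => (1 / 2 : ℝ) ^ (n + 1) * ‖S (b (ix n))‖ ^ 2) 1 := by
    rw [← Complex.ofReal_one] at h2
    exact (Complex.hasSum_ofReal).1 h2
  have h4 := wt_hasSum.sub h3
  rw [sub_self] at h4
  have h5 : ∀ n, ‖S (b (ix n))‖ ^ 2 ≤ 1 := by
    intro n
    have := (norm_le_of_proj hS1 hS2 (b (ix n))).2
    rw [norm_basis] at this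
    nlinarith [sq_nonneg ‖b (ix n) - S (b (ix n))‖]
  have h6 : ∀ n, 0 ≤ (1 / 2 : ℝ) ^ (n + 1) - (1 / 2 : ℝ) ^ (n + 1) * ‖S (b (ix n))‖ ^ 2 := by
    intro n
    have h7 : (0 : ℝ) < (1 / 2) ^ (n + 1) := by positivity
    nlinarith [h5 n]
  have h7 := (hasSum_zero_iff_of_nonneg h6).1 h4
  have h8 : ∀ n, S (b (ix n)) = b (ix n) := by
    intro n
    have h9 := congrFun h7 n
    simp only [Pi.zero_apply] at h9
    have h10 : (0 : ℝ) < (1 / 2) ^ (n + 1) := by positivity
    have h11 : ‖S (b (ix n))‖ ^ 2 = 1 := by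
      have : (1 / 2 : ℝ) ^ (n + 1) * (1 - ‖S (b (ix n))‖ ^ 2) = 0 := by linarith
      rcases mul_eq_zero.1 this with h | h
      · exact absurd h h10.ne'
      · linarith
    have h12 := (norm_le_of_proj hS1 hS2 (b (ix n))).2
    rw [h11, norm_basis] at h12
    have h13 : ‖b (ix n) - S (b (ix n))‖ = 0 := by
      nlinarith [norm_nonneg (b (ix n) - S (b (ix n)))]
    exact (sub_eq_zero.1 (norm_eq_zero.1 h13)).symm
  have h9 : S * Pe b = Pe b := by
    ext ξ
    rw [mul_apply_eq_comp]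
    have h10 : Es b ≤ LinearMap.eqLocus S.toLinearMap (1 : H →L[ℂ] H).toLinearMap :=
      Submodule.topologicalClosure_minimal _ (Submodule.span_le.2 (by
        rintro _ ⟨n, rfl⟩; exact h8 n)) (isClosed_eq S.continuous continuous_id)
    exact h10 (Pe_mem b ξ)
  have h10 := congrArg star h9
  rw [star_mul, hS2, Pe_star] at h10
  rw [arens_bop, h10]

theorem not_isCompactProj : ¬ IsCompactProj (bop b (Pe b)) := by
  rintro ⟨_, x, _, hx⟩
  rw [emb_eq, arens_bop] at hx
  have h1 := bop_injective b hx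
  obtain ⟨F, hF⟩ := (mem_KH_iff b x.1).1 x.2 (1 / 2) (by norm_num)
  obtain ⟨n, hn⟩ : ∃ n, ix n ∉ F := by
    by_contra h
    push Not at h
    exact Set.infinite_range_of_injective ix_inj (F.finite_toSet.subset (by
      rintro _ ⟨n, rfl⟩; exact h n))
  have h2 : x.1 (b (ix n)) = b (ix n) := by
    have h3 := congrArg (fun S : H →L[ℂ] H => S (b (ix n))) h1
    simp only [mul_apply_eq_comp, Pe_ix] at h3
    exact h3
  have h3 : (x.1 - x.1 * fp b F) (b (ix n)) = b (ix n) := by
    rw [sub_apply, mul_apply_eq_comp, fp_basis_of_notMem b F _ hn, map_zero, sub_zero, h2]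
  have h4 := (x.1 - x.1 * fp b F).le_opNorm (b (ix n))
  rw [h3, norm_basis, mul_one] at h4
  linarith

end Pool.Agent.Lib.MP_43823f_an
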