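import Pool.Agent.Lib.MP_43823f_an.Model

set_option autoImplicit false
set_option linter.unusedSectionVars false

/-!
# The structure theorem
-/

open Filter Topology InnerProductSpace

noncomputable section

namespace Pool.Agent.Lib.MP_43823f_an

/-- the monomial `t ^ j` -/
def mon (j : ℤ) : V := Finsupp.single j 1

theorem mon_self (j : ℤ) : mon j j = 1 := Finsupp.single_eq_same

theorem mon_of_ne {j i : ℤ} (h : i ≠ j) : mon j i = 0 := Finsupp.single_eq_of_ne h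

theorem sh_mon (k j : ℤ) : sh k (mon j) = mon (j + k) := by
  ext i
  rw [sh_apply]
  by_cases h : i = j + k
  · subst h; rw [mon_self, add_sub_cancel_right, mon_self]
  · rw [mon_of_ne h, mon_of_ne (by omega)]

section main

variable {L : Type} [NormedAddCommGroup L] [InnerProductSpace ℂ L] [CompleteSpace L]
  {T : V → unitary (L →L[ℂ] L)} {D : unitary (L →L[ℂ] L)} {M : ℕ → unitary (L →L[ℂ] L)}

theorem u_mul (u w : unitary (L →L[ℂ] L)) (ξ : L) : u.1 (w.1 ξ) = (u * w).1 ξ := rfl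

theorem u_one (ξ : L) : (1 : unitary (L →L[ℂ] L)).1 ξ = ξ := rfl

theorem u_inner (u : unitary (L →L[ℂ] L)) (ξ η : L) : inner ℂ (u.1 ξ) (u.1 η) = inner ℂ ξ η := by
  rw [← ContinuousLinearMap.adjoint_inner_right, ← ContinuousLinearMap.star_eq_adjoint,
    ← mul_apply_eq_comp, Unitary.coe_star_mul_self]
  rfl

theorem u_inv (u : unitary (L →L[ℂ] L)) (ξ : L) : (u⁻¹).1 (u.1 ξ) = ξ := by
  rw [u_mul, inv_mul_cancel, u_one]

theorem u_inv' (u : unitary (L →L[ℂ] L)) (ξ : L) : u.1 ((u⁻¹).1 ξ) = ξ := by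
  rw [u_mul, mul_inv_cancel, u_one]

theorem u_inj (u : unitary (L →L[ℂ] L)) {ξ : L} (h : u.1 ξ = 0) : ξ = 0 := by
  rw [← u_inv u ξ, h, map_zero]

theorem u_inner_left (u : unitary (L →L[ℂ] L)) (ξ η : L) :
    inner ℂ (u.1 ξ) η = inner ℂ ξ ((u⁻¹).1 η) := by
  rw [← u_inner u ξ, u_inv']

/-- the conditions on `κ` with respect to `T` -/
def TCond (T : V → unitary (L →L[ℂ] L)) (κ : L) : Prop :=
  (T (mon 0)).1 κ = -κ ∧ ∀ j : ℤ, 1 ≤ j → (T (mon j)).1 κ = κ

/-- the space of all `κ` -/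
def KK (T : V → unitary (L →L[ℂ] L)) (M : ℕ → unitary (L →L[ℂ] L)) : Submodule ℂ L where
  carrier := {κ | TCond T κ ∧ ∀ k, (M k).1 κ = κ}
  add_mem' := fun {a c} ha hc => by
    refine ⟨⟨?_, fun j hj => ?_⟩, fun k => ?_⟩
    · rw [map_add, ha.1.1, hc.1.1]; abel
    · rw [map_add, ha.1.2 j hj, hc.1.2 j hj]
    · rw [map_add, ha.2, hc.2]
  zero_mem' := by
    refine ⟨⟨?_, fun j hj => ?_⟩, fun k => ?_⟩ <;> simp
  smul_mem' := fun r {a} ha => by
    refine ⟨⟨?_, fun j hj => ?_⟩, fun k => ?_⟩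
    · rw [map_smul, ha.1.1, smul_neg]
    · rw [map_smul, ha.1.2 j hj]
    · rw [map_smul, ha.2]

theorem mem_KK {κ : L} : κ ∈ KK T M ↔ TCond T κ ∧ ∀ k, (M k).1 κ = κ := Iff.rfl

theorem isClosed_KK : IsClosed (KK T M : Set L) := by
  have e : (KK T M : Set L) = {κ | (T (mon 0)).1 κ = -κ} ∩
      (⋂ (j : ℤ) (_ : 1 ≤ j), {κ | (T (mon j)).1 κ = κ}) ∩ ⋂ k, {κ | (M k).1 κ = κ} := by
    ext κ
    simp only [SetLike.mem_coe, mem_KK, TCond, Set.mem_inter_iff, Set.mem_iInter]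
    rfl
  rw [e]
  refine IsClosed.inter (IsClosed.inter ?_ ?_) ?_
  · exact isClosed_eq (T (mon 0)).1.continuous continuous_neg
  · exact isClosed_iInter fun j => isClosed_iInter fun _ =>
      isClosed_eq (T (mon j)).1.continuous continuous_id
  · exact isClosed_iInter fun k => isClosed_eq (M k).1.continuous continuous_id

theorem zmod2 (a : ZMod 2) : a = 0 ∨ a = 1 := by
  revert a; decide

variable (hR : Rel (unitary (L →L[ℂ] L)) T D M)
include hR

theorem T_add_apply (v w : V) (ξ : L) : (T (v + w)).1 ξ = (T v).1 ((T w).1 ξ) := by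
  rw [hR.T_add]; rfl

theorem T_nonneg {κ : L} (hκ : TCond T κ) (r : V) (hr : ∀ j < 0, r j = 0) :
    (T r).1 κ = sgn (r 0) • κ := by
  let S : AddSubmonoid V :=
    { carrier := {v | (T v).1 κ = sgn (v 0) • κ}
      add_mem' := fun {v w} hv hw => by
        change (T (v + w)).1 κ = _
        have hv' : (T v).1 κ = sgn (v 0) • κ := hv
        have hw' : (T w).1 κ = sgn (w 0) • κ := hw
        rw [T_add_apply hR, hw', map_smul, hv', smul_smul, Finsupp.add_apply, sgn_add, mul_comm]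
      zero_mem' := by
        change (T 0).1 κ = _
        rw [hR.T_zero, Finsupp.zero_apply, sgn_zero, one_smul]; rfl }
  have h1 : ∀ j : ℤ, 0 ≤ j → mon j ∈ S := by
    intro j hj
    change (T (mon j)).1 κ = _
    by_cases h0 : j = 0
    · subst h0; rw [hκ.1, mon_self, sgn_one, neg_one_smul]
    · rw [hκ.2 j (by omega), mon_of_ne (Ne.symm h0), sgn_zero, one_smul]
  have h2 : r ∈ S := by
    rw [← Finsupp.sum_single r, Finsupp.sum]
    refine AddSubmonoid.sum_mem _ fun j hj => ?_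
    have hj0 : r j ≠ 0 := Finsupp.mem_support_iff.1 hj
    have hj1 : r j = 1 := (zmod2 (r j)).resolve_left hj0
    rw [hj1]
    exact h1 j (by by_contra h; exact hj0 (hr j (by omega)))
  exact h2

theorem T_Dpow {κ : L} (hκ : TCond T κ) (n : ℤ) (r : V) (hr : ∀ j < n, r j = 0) :
    (T r).1 ((D ^ n).1 κ) = sgn (r n) • (D ^ n).1 κ := by
  have h1 : T r * D ^ n = D ^ n * T (sh (-n) r) := by
    rw [hR.Dpow_T, sh_add', add_neg_cancel, sh_zero']
  rw [u_mul, h1, ← u_mul, T_nonneg hR hκ _ (fun j hj => by rw [sh_apply]; exact hr _ (by omega)),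
    map_smul, sh_apply, zero_sub, neg_neg]

/-- the family of vectors -/
def ev (T : V → unitary (L →L[ℂ] L)) (D : unitary (L →L[ℂ] L)) (x : ℤ × P) (κ : L) : L :=
  (T (iot x.1 x.2)).1 ((D ^ x.1).1 κ)

theorem low_part {κ : L} (hκ : TCond T κ) (n : ℤ) (w : V) :
    (T w).1 ((D ^ n).1 κ) = sgn (w n) • ev T D (n, red n w) κ := by
  have h1 : w = iot n (red n w) + (iot n (red n w) + w) := by
    rw [← add_assoc, add_self_V, zero_add]
  conv_lhs => rw [h1]
  rw [T_add_apply hR, T_Dpow hR hκ n, map_smul, Finsupp.add_apply, iot_apply_of_le _ _ _ le_rfl,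
    zero_add]
  · rfl
  · intro j hj
    rw [Finsupp.add_apply, iot_apply_of_lt _ _ _ hj, red_apply,
      show n - 1 - (((n - 1 - j).toNat : ℕ) : ℤ) = j by omega]
    exact CharTwo.add_self_eq_zero _

theorem T_ev {κ : L} (hκ : TCond T κ) (v : V) (n : ℤ) (c : P) :
    (T v).1 (ev T D (n, c) κ) = sgn (v n) • ev T D (n, c + red n v) κ := by
  rw [ev, ← T_add_apply hR, low_part hR hκ, Finsupp.add_apply, iot_apply_of_le _ _ _ le_rfl,
    add_zero, map_add, red_iot, add_comm]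

theorem D_ev {κ : L} (n : ℤ) (c : P) : D.1 (ev T D (n, c) κ) = ev T D (n + 1, c) κ := by
  rw [ev, ev, u_mul, hR.D_T, ← u_mul, u_mul D, ← zpow_one_add, add_comm 1 n, sh_iot]

theorem M_ev {κ : L} (hκ : κ ∈ KK T M) (k : ℕ) (n : ℤ) (c : P) :
    (M k).1 (ev T D (n, c) κ) = sgn (c k) • ev T D (n, mk' k c) κ := by
  have h1 : (M k).1 (ev T D (n, c) κ) =
      (T (iot n c + sh ((k : ℤ) + 1) (iot n c))).1 ((D ^ n).1 κ) := by
    rw [ev, u_mul, hR.M_T, ← u_mul, u_mul (M k), hR.M_Dpow, ← u_mul, hκ.2 k]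
  rw [h1, low_part hR hκ.1, Finsupp.add_apply, iot_apply_of_le _ _ _ le_rfl, zero_add, map_add,
    red_iot, show ((k : ℤ) + 1) = ((k + 1 : ℕ) : ℤ) by push_cast; ring, red_sh, red_iot, sh_apply,
    show n - ((k + 1 : ℕ) : ℤ) = n - 1 - (k : ℤ) by push_cast; ring, iot_apply_sub]
  rfl

theorem inner_ev_same (κ κ' : L) (x : ℤ × P) :
    inner ℂ (ev T D x κ) (ev T D x κ') = inner ℂ κ κ' := by
  rw [ev, ev, u_inner, u_inner]

theorem inner_ev_lt {κ κ' : L} (hκ : TCond T κ) (hκ' : TCond T κ') (x x' : ℤ × P)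
    (h : x.1 < x'.1) : inner ℂ (ev T D x κ) (ev T D x' κ') = 0 := by
  have h1 : (T (mon x'.1)).1 (ev T D x κ) = ev T D x κ := by
    rw [ev, u_mul, hR.T_comm, ← u_mul, T_Dpow hR hκ x.1 _ (fun j hj => mon_of_ne (by omega)),
      mon_of_ne (by omega), sgn_zero, one_smul]
  have h2 : (T (mon x'.1)).1 (ev T D x' κ') = -ev T D x' κ' := by
    rw [ev, u_mul, hR.T_comm, ← u_mul, T_Dpow hR hκ' x'.1 _ (fun j hj => mon_of_ne (by omega)),
      mon_self, sgn_one, neg_one_smul, map_neg]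
  have h3 := u_inner (T (mon x'.1)) (ev T D x κ) (ev T D x' κ')
  rw [h1, h2, inner_neg_right] at h3
  have h4 : (2 : ℂ) * inner ℂ (ev T D x κ) (ev T D x' κ') = 0 := by linear_combination -h3
  exact (mul_eq_zero.1 h4).resolve_left two_ne_zero

theorem inner_T_KK {κ κ' : L} (hκ : κ ∈ KK T M) (hκ' : κ' ∈ KK T M) (c : P) (hc : c ≠ 0) :
    inner ℂ κ ((T (iot 0 c)).1 κ') = 0 := by
  obtain ⟨i, hi, hmax⟩ : ∃ i, c i = 1 ∧ ∀ j, i < j → c j = 0 := by
    have hne : c.support.Nonempty := Finsupp.support_nonempty_iff.2 hc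
    refine ⟨c.support.max' hne, ?_, fun j hj => ?_⟩
    · exact (zmod2 _).resolve_left (Finsupp.mem_support_iff.1 (Finset.max'_mem _ _))
    · by_contra h
      have := Finset.le_max' _ j (Finsupp.mem_support_iff.2 h)
      omega
  have h1 : inner ℂ κ ((T (iot 0 c)).1 κ') =
      inner ℂ ((M i).1 κ) ((M i).1 ((T (iot 0 c)).1 κ')) := (u_inner _ _ _).symm
  have h2 : (M i).1 ((T (iot 0 c)).1 κ') = -(T (iot 0 c)).1 κ' := by
    rw [u_mul, hR.M_T, ← u_mul, hκ'.2 i, T_add_apply hR, T_nonneg hR hκ'.1]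
    · rw [sh_apply, show (0 : ℤ) - ((i : ℤ) + 1) = 0 - 1 - (i : ℤ) by ring, iot_apply_sub, hi,
        sgn_one, neg_one_smul, map_neg]
    · intro j hj
      rw [sh_apply, iot_apply_of_lt _ _ _ (by omega)]
      exact hmax _ (by omega)
  rw [h2, hκ.2 i, inner_neg_right] at h1
  have h4 : (2 : ℂ) * inner ℂ κ ((T (iot 0 c)).1 κ') = 0 := by linear_combination h1
  exact (mul_eq_zero.1 h4).resolve_left two_ne_zero

theorem inner_ev_eq {κ κ' : L} (hκ : κ ∈ KK T M) (hκ' : κ' ∈ KK T M) (n : ℤ) (c c' : P)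
    (h : c ≠ c') : inner ℂ (ev T D (n, c) κ) (ev T D (n, c') κ') = 0 := by
  have h1 : inner ℂ (ev T D (n, c) κ) (ev T D (n, c') κ') =
      inner ℂ κ ((T (iot 0 (c + c'))).1 κ') := by
    rw [ev, u_inner_left, hR.T_inv, ev, ← T_add_apply hR]
    have e : T (iot n c + iot n c') * D ^ n = D ^ n * T (iot 0 (c + c')) := by
      rw [hR.Dpow_T, sh_iot, zero_add]
      congr 2
      ext j
      rw [Finsupp.add_apply]
      by_cases hj : j < n
      · rw [iot_apply_of_lt _ _ _ hj, iot_apply_of_lt _ _ _ hj, iot_apply_of_lt _ _ _ hj,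
          Finsupp.add_apply]
      · rw [iot_apply_of_le _ _ _ (by omega), iot_apply_of_le _ _ _ (by omega),
          iot_apply_of_le _ _ _ (by omega), add_zero]
    change inner ℂ ((D ^ n).1 κ) ((T (iot n c + iot n c') * D ^ n).1 κ') = _
    rw [e, ← u_mul, u_inner]
  rw [h1]
  refine inner_T_KK hR hκ hκ' _ fun h0 => h ?_
  have : c + c' + c' = c' := by rw [h0, zero_add]
  rw [add_assoc, add_self_P, add_zero] at this
  exact this

end main

end Pool.Agent.Lib.MP_43823f_an
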