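import Pool.Agent.Lib.MP_43823f_an.Structure

set_option autoImplicit false
set_option linter.unusedSectionVars false

/-!
# Totality in the structure theorem
-/

open Filter Topology InnerProductSpace

noncomputable section

namespace Pool.Agent.Lib.MP_43823f_an

section main

variable {L : Type} [NormedAddCommGroup L] [InnerProductSpace ℂ L] [CompleteSpace L]
  {T : V → unitary (L →L[ℂ] L)} {D : unitary (L →L[ℂ] L)} {M : ℕ → unitary (L →L[ℂ] L)}

/-- `N` is invariant under `u` and its inverse -/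
def InvU (N : Submodule ℂ L) (u : unitary (L →L[ℂ] L)) : Prop :=
  ∀ η ∈ N, u.1 η ∈ N ∧ (u⁻¹).1 η ∈ N

theorem InvU.inv {N : Submodule ℂ L} {u : unitary (L →L[ℂ] L)} (h : InvU N u) : InvU N u⁻¹ :=
  fun η hη => ⟨(h η hη).2, by rw [inv_inv]; exact (h η hη).1⟩

theorem InvU.zpow {N : Submodule ℂ L} {u : unitary (L →L[ℂ] L)} (h : InvU N u) (n : ℤ) (η : L)
    (hη : η ∈ N) : (u ^ n).1 η ∈ N := by
  induction n using Int.induction_on generalizing η with
  | zero => exact hη
  | succ n ih => rw [zpow_add_one, ← u_mul]; exact ih _ (h η hη).1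
  | pred n ih => rw [zpow_sub_one, ← u_mul]; exact ih _ (h η hη).2

theorem InvU.orthogonal {N : Submodule ℂ L} {u : unitary (L →L[ℂ] L)} (h : InvU N u) :
    InvU Nᗮ u := by
  intro η hη
  rw [Submodule.mem_orthogonal] at hη
  refine ⟨(Submodule.mem_orthogonal _ _).2 fun w hw => ?_,
    (Submodule.mem_orthogonal _ _).2 fun w hw => ?_⟩
  · have := u_inner_left u⁻¹ w η
    rw [inv_inv] at this
    rw [← this]; exact hη _ (h w hw).2
  · rw [← u_inner_left]; exact hη _ (h w hw).1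

theorem proj_commute (N : Submodule ℂ L) [N.HasOrthogonalProjection] {u : unitary (L →L[ℂ] L)}
    (h : InvU N u) (ζ : L) : u.1 (N.starProjection ζ) = N.starProjection (u.1 ζ) := by
  symm
  refine Submodule.eq_starProjection_of_mem_orthogonal (h _ (Submodule.starProjection_apply_mem N ζ)).1
    ?_
  rw [← map_sub]
  exact (h.orthogonal _ (Submodule.sub_starProjection_mem_orthogonal ζ)).1

variable (hR : Rel (unitary (L →L[ℂ] L)) T D M)
include hR

theorem M_T_mon (k : ℕ) (j : ℤ) (ξ : L) :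
    (M k).1 ((T (mon j)).1 ξ) = (T (mon j)).1 ((T (mon (j + k + 1))).1 ((M k).1 ξ)) := by
  rw [u_mul, hR.M_T, ← u_mul, T_add_apply hR, sh_mon, add_assoc]

theorem T_comm_apply (v w : V) (ξ : L) : (T v).1 ((T w).1 ξ) = (T w).1 ((T v).1 ξ) := by
  rw [u_mul, hR.T_comm, ← u_mul]

/-- downward induction -/
theorem descend (N : Submodule ℂ L) (hT : ∀ v, InvU N (T v)) (hM : ∀ k, InvU N (M k)) (K : ℕ) :
    ∀ η ∈ N, η ≠ 0 → TCond T η → (∀ k, K ≤ k → (M k).1 η = η) → ∃ κ ∈ N, κ ≠ 0 ∧ κ ∈ KK T M := by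
  induction K with
  | zero => exact fun η h1 h2 h3 h4 => ⟨η, h1, h2, h3, fun k => h4 k (Nat.zero_le _)⟩
  | succ K ih =>
    intro η h1 h2 h3 h4
    have hsq : (M K).1 ((M K).1 η) = η := by
      rw [u_mul, hR.M_sq]; exact h4 _ (by omega)
    have hinv : (M K).1 η = ((M K)⁻¹).1 η := by
      conv_rhs => rw [← hsq]
      rw [u_inv]
    have hTM : ∀ v : V, (T v).1 ((M K).1 η) =
        ((M K)⁻¹).1 ((T (v + sh ((K : ℤ) + 1) v)).1 η) := by
      intro v
      rw [hinv, u_mul, u_mul]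
      congr 2
      rw [eq_inv_mul_iff_mul_eq, ← mul_assoc, hR.M_T, mul_assoc, mul_inv_cancel, mul_one]
    by_cases h5 : η + (M K).1 η = 0
    · have h6 : (M K).1 η = -η := by rw [← sub_eq_zero, sub_neg_eq_add, add_comm]; exact h5
      set η' := (T (mon (-((K : ℤ) + 1)))).1 η with hη'
      refine ih η' (hT _ _ h1).1 (fun h => h2 (u_inj _ h)) ⟨?_, fun j hj => ?_⟩ ?_
      · rw [hη', T_comm_apply hR, h3.1, map_neg]
      · rw [hη', T_comm_apply hR, h3.2 j hj]
      · intro k hk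
        rw [hη', M_T_mon hR]
        rcases Nat.lt_or_ge K k with hk' | hk'
        · rw [h4 k hk', h3.2 _ (by omega)]
        · obtain rfl : k = K := le_antisymm hk' hk
          rw [h6, show -((k : ℤ) + 1) + k + 1 = 0 by ring, map_neg, h3.1, neg_neg]
    · refine ih (η + (M K).1 η) (N.add_mem h1 (hM K _ h1).1) h5 ⟨?_, fun j hj => ?_⟩ ?_
      · rw [map_add, h3.1, hTM, sh_mon, T_add_apply hR, zero_add, h3.2 _ (by omega), h3.1, map_neg,
          ← hinv]
        abel
      · rw [map_add, h3.2 j hj, hTM, sh_mon, T_add_apply hR, h3.2 _ (by omega), h3.2 j hj, ← hinv]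
      · intro k hk
        rcases Nat.lt_or_ge K k with hk' | hk'
        · rw [map_add, h4 k hk', u_mul, hR.M_comm, ← u_mul, h4 k hk']
        · obtain rfl : k = K := le_antisymm hk' hk
          rw [map_add, hsq, add_comm]

theorem exists_KK (N : Submodule ℂ L) (hT : ∀ v, InvU N (T v)) (hD : InvU N D)
    (hM : ∀ k, InvU N (M k)) (η : L) (hηN : η ∈ N) (hη0 : η ≠ 0)
    (hN : ∀ η, (∀ j, (T (mon j)).1 η = η) → η = 0) (J : ℤ) (hJ : ∀ j, J < j → (T (mon j)).1 η = η)
    (K : ℕ) (hK : ∀ k, K ≤ k → (M k).1 η = η) : ∃ κ ∈ N, κ ≠ 0 ∧ κ ∈ KK T M := by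
  have hex : ∃ j, (T (mon j)).1 η ≠ η := by
    by_contra h
    push Not at h
    exact hη0 (hN η h)
  obtain ⟨n, hn, hmax⟩ := Int.exists_greatest_of_bdd (P := fun j => (T (mon j)).1 η ≠ η)
    ⟨J, fun z hz => by by_contra h; exact hz (hJ z (by omega))⟩ hex
  have hgt : ∀ j, n < j → (T (mon j)).1 η = η := by
    intro j hj
    by_contra h
    have := hmax j h
    omega
  set η₁ := η - (T (mon n)).1 η with hη₁
  have h10 : η₁ ≠ 0 := fun h => hn (sub_eq_zero.1 h).symm
  have h1T : (T (mon n)).1 η₁ = -η₁ := by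
    rw [hη₁, map_sub, u_mul, hR.T_mul_self, u_one]; abel
  have h1T' : ∀ j, n < j → (T (mon j)).1 η₁ = η₁ := by
    intro j hj
    rw [hη₁, map_sub, T_comm_apply hR, hgt j hj]
  have h1M : ∀ k, K ≤ k → (M k).1 η₁ = η₁ := by
    intro k hk
    rw [hη₁, map_sub, M_T_mon hR, hK k hk, hgt _ (by omega)]
  have h1N : η₁ ∈ N := N.sub_mem hηN (hT _ _ hηN).1
  have hD' : ∀ v : V, (T v).1 ((D ^ (-n)).1 η₁) = (D ^ (-n)).1 ((T (sh n v)).1 η₁) := by
    intro v
    rw [u_mul, u_mul, hR.Dpow_T, sh_add', neg_add_cancel, sh_zero']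
  refine descend hR N hT hM K ((D ^ (-n)).1 η₁) (hD.zpow _ _ h1N) (fun h => h10 (u_inj _ h))
    ⟨?_, fun j hj => ?_⟩ ?_
  · rw [hD', sh_mon, zero_add, h1T, map_neg]
  · rw [hD', sh_mon, h1T' _ (by omega)]
  · intro k hk
    rw [u_mul, hR.M_Dpow, ← u_mul, h1M k hk]

variable {Z : Type} (bL : HilbertBasis Z ℂ L)
  (hN : ∀ η, (∀ j, (T (mon j)).1 η = η) → η = 0)
  (hJ : ∀ z, ∃ J : ℤ, ∀ j, J < j → (T (mon j)).1 (bL z) = bL z)
  (hK : ∀ z, ∃ K : ℕ, ∀ k, K ≤ k → (M k).1 (bL z) = bL z)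
include hN hJ hK

theorem exists_KK_of_ne_bot (N : Submodule ℂ L) (hNc : IsClosed (N : Set L))
    (hT : ∀ v, InvU N (T v)) (hD : InvU N D)
    (hM : ∀ k, InvU N (M k)) (hbot : N ≠ ⊥) : ∃ κ ∈ N, κ ≠ 0 ∧ κ ∈ KK T M := by
  have : CompleteSpace N := hNc.completeSpace_coe
  obtain ⟨η₀, hη₀N, hη₀⟩ := Submodule.exists_mem_ne_zero_of_ne_bot hbot
  have hex : ∃ z, N.starProjection (bL z) ≠ 0 := by
    by_contra h
    push Not at h
    have h1 : ∀ ζ : L, N.starProjection ζ = 0 := fun ζ =>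
      HilbertBasis_induction bL (LinearMap.ker N.starProjection.toLinearMap)
        (isClosed_eq N.starProjection.continuous continuous_const) h ζ
    have h2 : N.starProjection η₀ = η₀ := Submodule.starProjection_eq_self_iff.2 hη₀N
    exact hη₀ (by rw [← h2, h1])
  obtain ⟨z, hz⟩ := hex
  obtain ⟨J, hJ'⟩ := hJ z
  obtain ⟨K, hK'⟩ := hK z
  refine exists_KK hR N hT hD hM (N.starProjection (bL z)) (Submodule.starProjection_apply_mem _ _)
    hz hN J (fun j hj => ?_) K (fun k hk => ?_)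
  · rw [proj_commute N (hT _), hJ' j hj]
  · rw [proj_commute N (hM _), hK' k hk]

variable {Y : Type} (c : HilbertBasis Y ℂ (KK T M))

omit hN hJ hK in
theorem orthonormal_ev :
    Orthonormal ℂ fun p : (ℤ × P) × Y => ev T D p.1 (c p.2 : L) := by
  classical
  have hc : Orthonormal ℂ fun y => (c y : L) := by
    have := c.orthonormal
    exact this.comp_linearIsometry (KK T M).subtypeₗᵢ
  constructor
  · rintro ⟨x, y⟩
    have h1 := inner_ev_same hR (c y : L) (c y : L) x
    have h2 : (‖ev T D x (c y : L)‖ : ℂ) ^ 2 = 1 := by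
      have h3 := inner_self_eq_norm_sq_to_K (𝕜 := ℂ) (ev T D x (c y : L))
      have h4 := inner_self_eq_norm_sq_to_K (𝕜 := ℂ) (c y : L)
      rw [hc.1 y] at h4
      rw [h1, h4] at h3
      simpa using h3.symm
    have h3 : ‖ev T D x (c y : L)‖ ^ 2 = 1 := by exact_mod_cast h2
    have h4 : ‖ev T D x (c y : L)‖ = 1 := by
      nlinarith [norm_nonneg (ev T D x (c y : L))]
    exact h4
  · rintro ⟨⟨n, p⟩, y⟩ ⟨⟨n', p'⟩, y'⟩ h
    change inner ℂ (ev T D (n, p) (c y : L)) (ev T D (n', p') (c y' : L)) = 0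
    rcases lt_trichotomy n n' with h1 | h1 | h1
    · exact inner_ev_lt hR (c y).2.1 (c y').2.1 _ _ h1
    · subst h1
      by_cases h2 : p = p'
      · subst h2
        rw [inner_ev_same hR]
        refine hc.2 fun h3 => h ?_
        rw [h3]
      · exact inner_ev_eq hR (c y).2 (c y').2 _ _ _ h2
    · rw [← inner_conj_symm, inner_ev_lt hR (c y').2.1 (c y).2.1 _ _ h1, map_zero]

theorem span_ev_top : ⊤ ≤ (Submodule.span ℂ (Set.range fun p : (ℤ × P) × Y =>
    ev T D p.1 (c p.2 : L))).topologicalClosure := by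
  set W := (Submodule.span ℂ (Set.range fun p : (ℤ × P) × Y =>
    ev T D p.1 (c p.2 : L))).topologicalClosure with hW
  have hWc : IsClosed (W : Set L) := Submodule.isClosed_topologicalClosure _
  have hmem : ∀ x y, ev T D x (c y : L) ∈ W := fun x y =>
    Submodule.le_topologicalClosure _ (Submodule.subset_span ⟨(x, y), rfl⟩)
  -- invariance from generators
  have hinv : ∀ u : unitary (L →L[ℂ] L), (∀ x y, u.1 (ev T D x (c y : L)) ∈ W) →
      (∀ x y, (u⁻¹).1 (ev T D x (c y : L)) ∈ W) → InvU W u := by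
    intro u h1 h2 η hη
    have h3 : ∀ w : unitary (L →L[ℂ] L), (∀ x y, w.1 (ev T D x (c y : L)) ∈ W) →
        w.1 η ∈ W := by
      intro w hw
      have h4 : W ≤ W.comap w.1.toLinearMap := by
        rw [hW]
        refine Submodule.topologicalClosure_minimal _ (Submodule.span_le.2 ?_)
          (hWc.preimage w.1.continuous)
        rintro _ ⟨p, rfl⟩
        exact hw _ _
      exact h4 hη
    exact ⟨h3 u h1, h3 _ h2⟩
  have hT : ∀ v, InvU W (T v) := by
    intro v
    have h1 : ∀ x y, (T v).1 (ev T D x (c y : L)) ∈ W := by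
      rintro ⟨n, p⟩ y
      rw [T_ev hR (c y).2.1]
      exact W.smul_mem _ (hmem _ _)
    refine hinv _ h1 ?_
    rw [hR.T_inv]; exact h1
  have hD : InvU W D := by
    refine hinv _ ?_ ?_
    · rintro ⟨n, p⟩ y
      rw [D_ev hR]; exact hmem _ _
    · rintro ⟨n, p⟩ y
      have : ev T D (n, p) (c y : L) = D.1 (ev T D (n - 1, p) (c y : L)) := by
        rw [D_ev hR, sub_add_cancel]
      rw [this, u_inv]; exact hmem _ _
  have hM : ∀ k, InvU W (M k) := by
    intro k
    refine hinv _ ?_ ?_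
    · rintro ⟨n, p⟩ y
      rw [M_ev hR (c y).2]; exact W.smul_mem _ (hmem _ _)
    · rintro ⟨n, p⟩ y
      obtain ⟨q, hq⟩ := (mk'_bijective k).2 p
      have h1 := M_ev hR (c y).2 k n q
      rw [hq] at h1
      have h2 : ev T D (n, p) (c y : L) = sgn (q k) • (M k).1 (ev T D (n, q) (c y : L)) := by
        rw [h1, smul_smul, sgn_mul_self, one_smul]
      rw [h2, map_smul, u_inv]
      exact W.smul_mem _ (hmem _ _)
  have hbot : Wᗮ = ⊥ := by
    by_contra hne
    obtain ⟨κ, hκN, hκ0, hκ⟩ := exists_KK_of_ne_bot hR bL hN hJ hK Wᗮ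
      (Submodule.isClosed_orthogonal W) (fun v => (hT v).orthogonal) hD.orthogonal
      (fun k => (hM k).orthogonal) hne
    have h1 : κ ∈ W := by
      have h2 : (⟨κ, hκ⟩ : KK T M) ∈ W.comap (KK T M).subtypeL.toLinearMap := by
        refine HilbertBasis_induction c _ (hWc.preimage (KK T M).subtypeL.continuous) (fun y => ?_) _
        change (c y : L) ∈ W
        have h3 : (c y : L) = ev T D (0, 0) (c y : L) := by
          have h4 : iot 0 (0 : P) = 0 := by
            ext j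
            by_cases h : j < 0
            · rw [iot_apply_of_lt _ _ _ h]; rfl
            · rw [iot_apply_of_le _ _ _ (by omega)]; rfl
          rw [ev]
          change _ = (T (iot 0 0)).1 ((D ^ (0 : ℤ)).1 (c y : L))
          rw [h4, hR.T_zero, zpow_zero]; rfl
        rw [h3]; exact hmem _ _
      exact h2
    have h2 := (Submodule.mem_orthogonal _ _).1 hκN κ h1
    exact hκ0 (inner_self_eq_zero.1 h2)
  have : CompleteSpace W := hWc.completeSpace_coe
  rw [Submodule.orthogonal_eq_bot_iff] at hbot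
  exact hbot.ge

/-- The adapted Hilbert basis. -/
def bEv : HilbertBasis ((ℤ × P) × Y) ℂ L :=
  HilbertBasis.mk (orthonormal_ev hR c) (span_ev_top hR bL hN hJ hK c)

theorem bEv_apply (p : (ℤ × P) × Y) :
    bEv hR bL hN hJ hK c p = ev T D p.1 (c p.2 : L) := by
  rw [bEv, HilbertBasis.coe_mk]

end main

end Pool.Agent.Lib.MP_43823f_an
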