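import Pool.Agent.Lib.MP_43823f_an.Conv

set_option autoImplicit false
set_option linter.unusedSectionVars false

/-!
# Weak cancellation
-/

open Filter Topology InnerProductSpace

noncomputable section

namespace Pool.Agent.Lib.MP_43823f_an

variable {H : Type} [NormedAddCommGroup H] [InnerProductSpace ℂ H] [CompleteSpace H]
  (b : HilbertBasis (ℤ × P) ℂ H)
  {K : Type} [NormedAddCommGroup K] [InnerProductSpace ℂ K] [CompleteSpace K]
  (U : HT H K ≃ₗᵢ[ℂ] HT H H)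

/-- The operator `S` is in the strict closure of `W`. -/
def SCo (W : Submodule ℂ (Bidual (KH b))) (S : H →L[ℂ] H) : Prop :=
  ∀ (s : Finset (KH b)) (ε : ℝ), 0 < ε →
    ∃ N : H →L[ℂ] H, bop b N ∈ W ∧ ∀ c ∈ s, ‖(S - N) * c.1‖ < ε ∧ ‖c.1 * (S - N)‖ < ε

variable {b} {W : Submodule ℂ (Bidual (KH b))}

theorem SCo_of_mem {N : H →L[ℂ] H} (h : bop b N ∈ W) : SCo b W N := fun s ε hε =>
  ⟨N, h, fun c _ => by rw [sub_self, zero_mul, mul_zero, norm_zero]; exact ⟨hε, hε⟩⟩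

theorem SCo_limit {S : H →L[ℂ] H} (h : ∀ (s : Finset (KH b)) (ε : ℝ), 0 < ε →
    ∃ S', SCo b W S' ∧ ∀ c ∈ s, ‖(S - S') * c.1‖ < ε ∧ ‖c.1 * (S - S')‖ < ε) : SCo b W S := by
  intro s ε hε
  obtain ⟨S', hS', h1⟩ := h s (ε / 2) (by positivity)
  obtain ⟨N, hN, h2⟩ := hS' s (ε / 2) (by positivity)
  refine ⟨N, hN, fun c hc => ⟨?_, ?_⟩⟩
  · have e : (S - N) * c.1 = (S - S') * c.1 + (S' - N) * c.1 := by
      rw [← add_mul]; congr 1; abel
    rw [e]
    calc _ ≤ ‖(S - S') * c.1‖ + ‖(S' - N) * c.1‖ := norm_add_le _ _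
      _ < ε := by linarith [(h1 c hc).1, (h2 c hc).1]
  · have e : c.1 * (S - N) = c.1 * (S - S') + c.1 * (S' - N) := by
      rw [← mul_add]; congr 1; abel
    rw [e]
    calc _ ≤ ‖c.1 * (S - S')‖ + ‖c.1 * (S' - N)‖ := norm_add_le _ _
      _ < ε := by linarith [(h1 c hc).2, (h2 c hc).2]

theorem SCo_add {S S' : H →L[ℂ] H} (h : SCo b W S) (h' : SCo b W S') : SCo b W (S + S') := by
  intro s ε hε
  obtain ⟨N, hN, h1⟩ := h s (ε / 2) (by positivity)
  obtain ⟨N', hN', h2⟩ := h' s (ε / 2) (by positivity)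
  refine ⟨N + N', by rw [bop_add]; exact W.add_mem hN hN', fun c hc => ⟨?_, ?_⟩⟩
  · have e : (S + S' - (N + N')) * c.1 = (S - N) * c.1 + (S' - N') * c.1 := by
      rw [← add_mul]; congr 1; abel
    rw [e]
    calc _ ≤ ‖(S - N) * c.1‖ + ‖(S' - N') * c.1‖ := norm_add_le _ _
      _ < ε := by linarith [(h1 c hc).1, (h2 c hc).1]
  · have e : c.1 * (S + S' - (N + N')) = c.1 * (S - N) + c.1 * (S' - N') := by
      rw [← mul_add]; congr 1; abel
    rw [e]
    calc _ ≤ ‖c.1 * (S - N)‖ + ‖c.1 * (S' - N')‖ := norm_add_le _ _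
      _ < ε := by linarith [(h1 c hc).2, (h2 c hc).2]

theorem bop_zero : bop b (0 : H →L[ℂ] H) = 0 := by
  have := bop_smul b 0 (0 : H →L[ℂ] H)
  rwa [zero_smul, zero_smul] at this

theorem SCo_zero : SCo b W 0 := SCo_of_mem (by rw [bop_zero]; exact W.zero_mem)

theorem SCo_smul {S : H →L[ℂ] H} (k : ℂ) (h : SCo b W S) : SCo b W (k • S) := by
  intro s ε hε
  obtain ⟨N, hN, h1⟩ := h s (ε / (‖k‖ + 1)) (by positivity)
  have hk : 0 < ‖k‖ + 1 := by positivity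
  have h3 : ∀ t : ℝ, 0 ≤ t → t < ε / (‖k‖ + 1) → ‖k‖ * t < ε := by
    intro t ht0 ht
    rw [lt_div_iff₀ hk] at ht
    nlinarith
  refine ⟨k • N, by rw [bop_smul]; exact W.smul_mem _ hN, fun c hc => ⟨?_, ?_⟩⟩
  · rw [← smul_sub, smul_mul_assoc, norm_smul]; exact h3 _ (norm_nonneg _) (h1 c hc).1
  · rw [← smul_sub, mul_smul_comm, norm_smul]; exact h3 _ (norm_nonneg _) (h1 c hc).2

theorem SCo_tendsto {ι : Type} {l : Filter ι} [l.NeBot] (S : ι → H →L[ℂ] H) (S₀ : H →L[ℂ] H)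
    (C : ℝ) (hC : ∀ i, ‖S i‖ ≤ C) (h : ∀ ξ, Tendsto (fun i => S i ξ) l (𝓝 (S₀ ξ)))
    (h' : ∀ ξ, Tendsto (fun i => (star (S i)) ξ) l (𝓝 ((star S₀) ξ)))
    (hS : ∀ i, SCo b W (S i)) : SCo b W S₀ := by
  refine SCo_limit fun s ε hε => ?_
  have h1 : ∀ c : KH b, ∀ᶠ i in l, ‖(S₀ - S i) * c.1‖ < ε ∧ ‖c.1 * (S₀ - S i)‖ < ε := by
    intro c
    have h2 := (Metric.tendsto_nhds.1 (tendsto_mul_right b S S₀ C hC h c)) ε hε
    have h3 := (Metric.tendsto_nhds.1 (tendsto_mul_right b (fun i => star (S i)) (star S₀) C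
      (fun i => by rw [norm_star]; exact hC i) h' (star c))) ε hε
    filter_upwards [h2, h3] with i hi hi'
    rw [dist_comm, dist_eq_norm, ← sub_mul] at hi hi'
    refine ⟨hi, ?_⟩
    have e : (star S₀ - star (S i)) * (star c).1 = star (c.1 * (S₀ - S i)) := by
      rw [star_mul, star_sub]; rfl
    rwa [e, norm_star] at hi'
  have h4 : ∀ᶠ i in l, ∀ c ∈ s, ‖(S₀ - S i) * c.1‖ < ε ∧ ‖c.1 * (S₀ - S i)‖ < ε :=
    (Filter.eventually_all_finset s).2 fun c _ => h1 c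
  obtain ⟨i, hi⟩ := h4.exists
  exact ⟨S i, hS i, hi⟩

theorem strictlyDense_of_SCo (h : ∀ S, SCo b W S) : StrictlyDense W := by
  intro m _ s ε hε
  obtain ⟨S, rfl⟩ := exists_bop b m
  obtain ⟨N, hN, h1⟩ := h S s ε hε
  refine ⟨bop b N, hN, fun c hc => ⟨?_, ?_⟩⟩
  · rw [emb_eq, ← bop_sub, arens_bop]
    exact (norm_bop_le _ _).trans_lt (h1 c hc).1
  · rw [emb_eq, ← bop_sub, arens_bop]
    exact (norm_bop_le _ _).trans_lt (h1 c hc).2

theorem SCo_u {u : unitary (H →L[ℂ] H)} (hu : u ∈ GLike U) (ξ η : H)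
    (h0 : inner ℂ ξ (u.1 η) ≠ 0)
    (hW : ∀ d : KH b, bop b (blk (dop U d.1) ξ η) ∈ W) : SCo b W u.1 := by
  have hu' : dop U u.1 = top u.1 u.1 := hu
  have h1 : SCo b W (inner ℂ ξ (u.1 η) • u.1) := by
    have e0 : blk (dop U u.1) ξ η = inner ℂ ξ (u.1 η) • u.1 := by rw [hu', blk_top]
    have e1 : star (inner ℂ ξ (u.1 η) • u.1) = blk (dop U (star u.1)) η ξ := by
      rw [← e0, blk_star, dop_star]
    refine SCo_tendsto (l := atTop) (fun F : Finset (ℤ × P) => blk (dop U (u.1 * fp b F)) ξ η) _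
      (‖ξ‖ * ‖η‖)
      (fun F => ?_) (fun ζ => ?_) (fun ζ => ?_) fun F => ?_
    · refine (norm_blk_le _ _ _).trans ?_
      rw [mul_assoc]
      refine mul_le_of_le_one_left (by positivity) ((norm_dop_le U _).trans ?_)
      exact (norm_mul_fp_le b _ F).trans (norm_unitary_le u)
    · rw [← e0]
      exact blk_apply_tendsto _ _ (dop_tendsto U _ _ ‖u.1‖ (norm_mul_fp_le b _)
        (mul_fp_tendsto b u.1)) _ _ _
    · rw [e1]
      have e2 : ∀ F : Finset (ℤ × P), star (blk (dop U (u.1 * fp b F)) ξ η) =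
          blk (dop U (fp b F * star u.1)) η ξ := fun F => by
        rw [blk_star, dop_star, star_mul, fp_star]
      simp only [e2]
      refine blk_apply_tendsto _ _ (dop_tendsto U _ _ ‖star u.1‖ (fun F => ?_) (fun ζ' => ?_)) _ _ _
      · exact (norm_mul_le _ _).trans (mul_le_of_le_one_left (norm_nonneg _) (norm_fp_le b F))
      · exact fp_tendsto b ((star u.1) ζ')
    · exact SCo_of_mem (hW ⟨u.1 * fp b F, mul_fp_mem b _ F⟩)
  have h2 := SCo_smul (inner ℂ ξ (u.1 η))⁻¹ h1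
  rwa [smul_smul, inv_mul_cancel₀ h0, one_smul] at h2

theorem SCo_all (hG : ∀ u ∈ Gm b, SCo b W u.1) (S : H →L[ℂ] H) : SCo b W S := by
  have h1 : ∀ x ∈ Sp b, SCo b W x := by
    intro x hx
    induction hx using Submodule.span_induction with
    | mem x hx => obtain ⟨u, hu, rfl⟩ := hx; exact hG u hu
    | zero => exact SCo_zero
    | add x y _ _ hx hy => exact SCo_add hx hy
    | smul k x _ hx => exact SCo_smul k hx
  have h2 : ∀ x x', SCo b W (rankOne ℂ (b x) (b x')) := fun x x' =>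
    SCo_tendsto (Zx b x x') _ 1 (norm_Zx_le b x x') (Zx_tendsto b x x') (Zx'_tendsto b x x')
      fun m => h1 _ (Zx_mem b x x' m)
  have h3 : ∀ a : KH b, SCo b W a.1 := by
    let W' : Submodule ℂ (KH b) :=
      { carrier := {a | SCo b W a.1}
        add_mem' := fun {a c} ha hc => SCo_add ha hc
        zero_mem' := SCo_zero
        smul_mem' := fun k {a} ha => SCo_smul k ha }
    have hW' : IsClosed (W' : Set (KH b)) := by
      refine isClosed_of_closure_subset fun a ha => SCo_limit fun s ε hε => ?_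
      rw [Metric.mem_closure_iff] at ha
      obtain ⟨B, hB0, hB⟩ : ∃ B : ℝ, 0 < B ∧ ∀ c ∈ s, ‖c‖ ≤ B := by
        refine ⟨∑ c ∈ s, ‖c‖ + 1, by positivity, fun c hc => ?_⟩
        have := Finset.single_le_sum (f := fun c => ‖c‖) (fun _ _ => norm_nonneg _) hc
        linarith
      obtain ⟨a', ha', h4⟩ := ha (ε / (B + 1)) (by positivity)
      rw [dist_eq_norm] at h4
      have hB1 : 0 < B + 1 := by positivity
      rw [lt_div_iff₀ hB1] at h4
      refine ⟨a'.1, ha', fun c hc => ⟨?_, ?_⟩⟩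
      · have h5 : ‖(a.1 - a'.1) * c.1‖ ≤ ‖a - a'‖ * ‖c‖ := norm_mul_le (a.1 - a'.1) c.1
        have h6 : ‖a - a'‖ * ‖c‖ ≤ ‖a - a'‖ * B := mul_le_mul_of_nonneg_left (hB c hc) (norm_nonneg _)
        nlinarith [norm_nonneg (a - a')]
      · have h5 : ‖c.1 * (a.1 - a'.1)‖ ≤ ‖c‖ * ‖a - a'‖ := norm_mul_le c.1 (a.1 - a'.1)
        have h6 : ‖c‖ * ‖a - a'‖ ≤ B * ‖a - a'‖ := mul_le_mul_of_nonneg_right (hB c hc) (norm_nonneg _)
        nlinarith [norm_nonneg (a - a')]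
    exact fun a => KH_dense_induction b W' hW' (fun x x' => h2 x x') a
  refine SCo_tendsto (fun F : Finset (ℤ × P) => S * fp b F) S ‖S‖ (norm_mul_fp_le b S)
    (mul_fp_tendsto b S) (fun ξ => ?_) fun F => h3 ⟨S * fp b F, mul_fp_mem b S F⟩
  simp only [star_mul, fp_star, mul_apply_eq_comp]
  exact fp_tendsto b _

theorem exists_riesz' (μ : Dual (KH b)) (ξ : H) : ∃ θ : H, ∀ ζ, μ (rk b ξ ζ) = inner ℂ ζ θ := by
  obtain ⟨θ, hθ⟩ := exists_riesz b (dstar μ) ξ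
  refine ⟨θ, fun ζ => ?_⟩
  have h1 := hθ ζ
  rw [dstar_apply] at h1
  have h2 : star (rk b ζ ξ) = rk b ξ ζ := by
    apply Subtype.ext
    change star (rankOne ℂ ζ ξ : H →L[ℂ] H) = rankOne ℂ ξ ζ
    rw [ContinuousLinearMap.star_eq_adjoint, adjoint_rankOne]
  rw [h2] at h1
  have h3 := congrArg (starRingEnd ℂ) h1
  rw [Complex.conj_conj, inner_conj_symm] at h3
  exact h3

theorem exists_ne {μ : Dual (KH b)} (hμ : μ ≠ 0) : ∃ ξ ζ : H, μ (rk b ξ ζ) ≠ 0 := by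
  by_contra h
  push Not at h
  refine hμ (Dual.ext fun a => ?_)
  exact KH_dense_induction b (LinearMap.ker (μ : KH b →L[ℂ] ℂ).toLinearMap)
    (isClosed_eq μ.continuous' continuous_const) (fun x x' => h _ _) a

variable (hU : ∀ u ∈ Gm b, u ∈ GLike U)

/-- Weak cancellation. -/
theorem weakCancellation : WeakCancellation (qs b U hU) := by
  intro μ hμ
  obtain ⟨ξ₀, ζ₀, h0⟩ := exists_ne hμ
  constructor
  · refine strictlyDense_of_SCo (SCo_all fun u hu => ?_)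
    obtain ⟨θ, hθ⟩ := exists_riesz' μ ξ₀
    have hθ0 : θ ≠ 0 := by
      rintro rfl
      exact h0 (by rw [hθ, inner_zero_right])
    have h1 : ∀ η : H, rmul μ (rk b ξ₀ η) = vf b η θ := fun η => Dual.ext fun c => by
      rw [rmul_apply, vf_apply]
      have e : rk b ξ₀ η * c = rk b ξ₀ ((star c.1) η) := by
        apply Subtype.ext
        change (rankOne ℂ ξ₀ η : H →L[ℂ] H) * c.1 = rankOne ℂ ξ₀ ((star c.1) η)
        ext ζ
        rw [mul_apply_eq_comp, rankOne_apply, rankOne_apply, ContinuousLinearMap.star_eq_adjoint,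
          ContinuousLinearMap.adjoint_inner_left]
      rw [e, hθ, ContinuousLinearMap.star_eq_adjoint, ContinuousLinearMap.adjoint_inner_left]
    refine SCo_u U (hU u hu) (u.1 θ) θ ?_ fun d => ?_
    · rw [inner_self_ne_zero]
      exact fun h => hθ0 (u_inj u h)
    · refine Submodule.subset_span ⟨rk b ξ₀ (u.1 θ), d, fun ρ => ?_⟩
      rw [h1]
      have h2 := slb_vf b U (u.1 θ) θ d (slb b U (vf b (u.1 θ) θ) d) (fun _ => rfl)
      rw [← h2]; rfl
  · refine strictlyDense_of_SCo (SCo_all fun u hu => ?_)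
    obtain ⟨θ, hθ⟩ := exists_riesz b μ ζ₀
    have hθ0 : θ ≠ 0 := by
      rintro rfl
      exact h0 (by rw [hθ, inner_zero_left])
    have h1 : ∀ η : H, lmul (rk b η ζ₀) μ = vf b θ η := fun η => Dual.ext fun c => by
      rw [lmul_apply, vf_apply]
      have e : c * rk b η ζ₀ = rk b (c.1 η) ζ₀ := Subtype.ext (comp_rankOne _ _ _)
      rw [e, hθ]
    refine SCo_u U (hU u hu) θ ((u⁻¹).1 θ) ?_ fun d => ?_
    · rw [u_inv', inner_self_ne_zero]
      exact hθ0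
    · refine Submodule.subset_span ⟨d, rk b ((u⁻¹).1 θ) ζ₀, fun ρ => ?_⟩
      rw [h1]
      have h2 := slb_vf b U θ ((u⁻¹).1 θ) d (slb b U (vf b θ ((u⁻¹).1 θ)) d) (fun _ => rfl)
      rw [← h2]
      have h3 := congrArg (fun φ : Dual (KH b) => φ d)
        (conv_comm b U hU (vf b θ ((u⁻¹).1 θ)) ρ)
      exact h3

end Pool.Agent.Lib.MP_43823f_an
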